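import Pool.Agent.H48.Mob.Quad

/-! # From edge-scribed polytopes to Lorentz vectors -/

open scoped RealInnerProductSpace

namespace Pool.Agent.H48.Mob

/-- The unit space-like vector of a point outside the unit ball. -/
noncomputable def nrm (v : E 4) : L := (Real.sqrt (‖v‖ ^ 2 - 1))⁻¹ • ((v, 1) : L)

theorem sqrt_pos_of {v : E 4} (h : 1 < ‖v‖) : 0 < Real.sqrt (‖v‖ ^ 2 - 1) := by
  apply Real.sqrt_pos.mpr
  nlinarith only [h]

theorem B_raw (u v : E 4) : B ((u, 1) : L) ((v, 1) : L) = ⟪u, v⟫ - 1 := by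
  unfold B; simp

theorem B_nrm_self {v : E 4} (h : 1 < ‖v‖) : B (nrm v) (nrm v) = 1 := by
  have h0 := sqrt_pos_of h
  have hs : Real.sqrt (‖v‖ ^ 2 - 1) * Real.sqrt (‖v‖ ^ 2 - 1) = ‖v‖ ^ 2 - 1 :=
    Real.mul_self_sqrt (by nlinarith)
  unfold nrm
  rw [B_smul_left, B_smul_right, B_raw, real_inner_self_eq_norm_sq]
  nth_rewrite 3 [← hs]
  field_simp

theorem tangent_norm {u v : E 4} (h : TangentEdge u v) : 1 ≤ ‖u‖ := by
  obtain ⟨t, _, ht, hu, _⟩ := h
  have := real_inner_le_norm t u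
  rw [hu, ht, one_mul] at this
  exact this

theorem tangent_inner {u v : E 4} (h : TangentEdge u v) (hu1 : ‖u‖ = 1) : ⟪u, v⟫ = 1 := by
  obtain ⟨t, _, ht, hu, hv⟩ := h
  have : ‖t - u‖ ^ 2 = 0 := by
    rw [@norm_sub_sq_real, hu, ht, hu1]; norm_num
  have h2 : t = u := by
    have := pow_eq_zero_iff (two_ne_zero) |>.mp this
    exact sub_eq_zero.mp (norm_eq_zero.mp this)
  rw [← h2]; exact hv

theorem edge_nrm {u v : E 4} (hu : 1 < ‖u‖) (hv : 1 < ‖v‖) (h : TangentEdge u v) :
    B (nrm u) (nrm v) = -1 ∧ Future (nrm u + nrm v) := by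
  obtain ⟨t, ⟨α, β, hα, hβ, hαβ, rfl⟩, ht, htu, htv⟩ := h
  have hU := sqrt_pos_of hu
  have hW := sqrt_pos_of hv
  have hsU : Real.sqrt (‖u‖ ^ 2 - 1) ^ 2 = ‖u‖ ^ 2 - 1 := Real.sq_sqrt (by nlinarith only [hu])
  have hsW : Real.sqrt (‖v‖ ^ 2 - 1) ^ 2 = ‖v‖ ^ 2 - 1 := Real.sq_sqrt (by nlinarith only [hv])
  have hβ0 : β ≠ 0 := by
    intro h0
    have hα1 : α = 1 := by linarith
    rw [h0, hα1, zero_smul, add_zero, one_smul] at ht
    linarith
  have hα0 : α ≠ 0 := by
    intro h0
    have hβ1 : β = 1 := by linarith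
    rw [h0, hβ1, zero_smul, zero_add, one_smul] at ht
    linarith
  have hαp : 0 < α := lt_of_le_of_ne hα (Ne.symm hα0)
  have hβp : 0 < β := lt_of_le_of_ne hβ (Ne.symm hβ0)
  rw [inner_add_left, real_inner_smul_left, real_inner_smul_left, real_inner_self_eq_norm_sq,
    real_inner_comm u v] at htu
  rw [inner_add_left, real_inner_smul_left, real_inner_smul_left, real_inner_self_eq_norm_sq]
    at htv
  have hc : ⟪v, u⟫ = ⟪u, v⟫ := real_inner_comm u v
  set a := Real.sqrt (‖u‖ ^ 2 - 1) with ha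
  set b := Real.sqrt (‖v‖ ^ 2 - 1) with hb
  have e1 : α * a ^ 2 + β * (⟪u, v⟫ - 1) = 0 := by
    rw [hsU]; nlinarith only [hαβ, htu]
  have e2 : α * (⟪u, v⟫ - 1) + β * b ^ 2 = 0 := by
    rw [hsW]; nlinarith only [hαβ, htv]
  have e3 : (α * a) ^ 2 = (β * b) ^ 2 := by
    linear_combination α * e1 - β * e2
  have e4 : α * a = β * b := by
    have h1 : 0 < α * a := mul_pos hαp hU
    have h2 : 0 < β * b := mul_pos hβp hW
    exact (pow_left_inj₀ h1.le h2.le two_ne_zero).mp e3
  constructor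
  · unfold nrm
    rw [← ha, ← hb, B_smul_left, B_smul_right, B_raw]
    have : ⟪u, v⟫ - 1 = - (a * b) := by
      have h3 : β * (⟪u, v⟫ - 1 + a * b) = 0 := by
        have : β * (⟪u, v⟫ - 1 + a * b) = (α * a ^ 2 + β * (⟪u, v⟫ - 1)) + a * (β * b - α * a) := by
          ring
        rw [this, e1, e4]; ring
      rcases mul_eq_zero.mp h3 with h | h
      · exact absurd h hβ0
      · linarith
    rw [this]
    field_simp
  · refine ⟨(α * a)⁻¹, inv_pos.mpr (mul_pos hαp hU), α • u + β • v, ht, ?_⟩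
    unfold nrm
    rw [← ha, ← hb]
    have hb' : b⁻¹ = β * (α * a)⁻¹ := by
      rw [e4]; field_simp
    have ha' : a⁻¹ = α * (α * a)⁻¹ := by field_simp
    rw [ha', hb']
    refine Prod.ext ?_ ?_
    · simp only [Prod.fst_add, Prod.smul_fst, smul_add, smul_smul]
      rw [mul_comm α, mul_comm β]
    · simp only [Prod.snd_add, Prod.smul_snd, smul_eq_mul, mul_one]
      rw [← add_mul, hαβ, one_mul]

/-- If the neighbours of a vertex span everything then the vertex is outside the unit ball. -/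
theorem one_lt_norm {u a b c d : E 4}
    (hli : LinearIndependent ℝ ![((u, 1) : L), (a, 1), (b, 1), (c, 1), (d, 1)])
    (ha : TangentEdge u a) (hb : TangentEdge u b) (hc : TangentEdge u c)
    (hd : TangentEdge u d) : 1 < ‖u‖ := by
  rcases lt_or_eq_of_le (tangent_norm ha) with h | h
  · exact h
  · exfalso
    have hz : ((u, 1) : L) = 0 := by
      apply B_nondeg
      intro y
      obtain ⟨s, t, p, v, w, rfl⟩ := span5 hli y
      simp only [B_add_right, B_smul_right, B_raw, real_inner_self_eq_norm_sq, ← h,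
        tangent_inner ha h.symm, tangent_inner hb h.symm, tangent_inner hc h.symm,
        tangent_inner hd h.symm]
      ring
    have := congrArg Prod.snd hz
    simp at this

/-- The linear functional on Lorentz space of a supporting functional. -/
noncomputable def functional (h : E 4) (c : ℝ) : L →ₗ[ℝ] ℝ :=
  c • LinearMap.snd ℝ (E 4) ℝ - (innerₛₗ ℝ h) ∘ₗ LinearMap.fst ℝ (E 4) ℝ

theorem functional_apply (h : E 4) (c : ℝ) (v : E 4) (s : ℝ) :
    functional h c (s • ((v, 1) : L)) = s * (c - ⟪h, v⟫) := by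
  unfold functional
  simp [real_inner_smul_right]
  ring

theorem functional_nrm (h : E 4) (c : ℝ) (v : E 4) :
    functional h c (nrm v) = (Real.sqrt (‖v‖ ^ 2 - 1))⁻¹ * (c - ⟪h, v⟫) :=
  functional_apply h c v _

theorem functional_raw (h : E 4) (c : ℝ) (v : E 4) :
    functional h c ((v, 1) : L) = c - ⟪h, v⟫ := by
  have := functional_apply h c v 1
  rwa [one_smul, one_mul] at this

theorem transport {V W : Set (E 4)} (e : V ≃ W)
    (he : ∀ F : Set V, IsFace V (Subtype.val '' F) ↔ IsFace W (Subtype.val '' (e '' F)))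
    {G : Set (E 4)} (hG : IsFace W G) :
    IsFace V (Subtype.val '' (e ⁻¹' (Subtype.val ⁻¹' G))) := by
  rw [he]
  have : Subtype.val '' (e '' (e ⁻¹' (Subtype.val ⁻¹' G))) = G := by
    rw [Set.image_preimage_eq _ e.surjective, Subtype.image_preimage_val]
    exact Set.inter_eq_right.mpr hG.1
  rwa [this]

theorem mem_transport {V W : Set (E 4)} (e : V ≃ W) (G : Set (E 4)) (v : V) :
    (v : E 4) ∈ (Subtype.val '' (e ⁻¹' (Subtype.val ⁻¹' G)) : Set (E 4)) ↔ (e v : E 4) ∈ G := by
  simp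

/-- Supporting functionals of the transported faces. -/
theorem transport_cov {V W : Set (E 4)} (e : V ≃ W)
    (he : ∀ F : Set V, IsFace V (Subtype.val '' F) ↔ IsFace W (Subtype.val '' (e '' F)))
    {G : Set (E 4)} (hG : IsFace W G) :
    ∃ (h : E 4) (c : ℝ), ∀ w : W, ⟪h, (e.symm w : E 4)⟫ ≤ c ∧
      (⟪h, (e.symm w : E 4)⟫ = c ↔ (w : E 4) ∈ G) := by
  obtain ⟨_, h, c, hc⟩ := transport e he hG
  refine ⟨h, c, fun w => ?_⟩
  have := hc (e.symm w) (e.symm w).2
  rw [mem_transport] at this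
  rwa [Equiv.apply_symm_apply] at this

theorem transport_edge {V W : Set (E 4)} (e : V ≃ W)
    (he : ∀ F : Set V, IsFace V (Subtype.val '' F) ↔ IsFace W (Subtype.val '' (e '' F)))
    (hs : EdgeScribed V) (a b : W) (hab : a ≠ b) (hG : IsFace W {(a : E 4), (b : E 4)}) :
    TangentEdge (e.symm a) (e.symm b) := by
  apply hs
  · intro h
    apply hab
    exact e.symm.injective (Subtype.ext h)
  · have := transport e he hG
    convert this using 1
    ext v
    constructor
    · rintro (rfl | rfl)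
      · rw [mem_transport]; simp
      · rw [mem_transport]; simp
    · rintro ⟨w, hw, rfl⟩
      simp only [Set.mem_preimage, Set.mem_insert_iff, Set.mem_singleton_iff] at hw
      rcases hw with hw | hw
      · left
        have : e w = a := Subtype.ext hw
        rw [← this, Equiv.symm_apply_apply]
      · right
        have : e w = b := Subtype.ext hw
        rw [Set.mem_singleton_iff, ← this, Equiv.symm_apply_apply]

/-- Linear independence of the raw vectors. -/
theorem li_raw {P I x0 x1 x2 : E 4} (hPI : P ≠ I)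
    (c01 : ∃ l : L →ₗ[ℝ] ℝ, l (P, 1) = 0 ∧ l (I, 1) = 0 ∧ l (x0, 1) = 0 ∧ l (x1, 1) = 0 ∧
      l (x2, 1) ≠ 0)
    (c12 : ∃ l : L →ₗ[ℝ] ℝ, l (P, 1) = 0 ∧ l (I, 1) = 0 ∧ l (x1, 1) = 0 ∧ l (x2, 1) = 0 ∧
      l (x0, 1) ≠ 0)
    (c23 : ∃ l : L →ₗ[ℝ] ℝ, l (P, 1) = 0 ∧ l (I, 1) = 0 ∧ l (x2, 1) = 0 ∧ l (x1, 1) ≠ 0) :
    LinearIndependent ℝ ![((P, 1) : L), (I, 1), (x0, 1), (x1, 1), (x2, 1)] := by
  apply li5
  intro s t u v w hz
  obtain ⟨l, lP, lI, l0, l1, l2⟩ := c01
  obtain ⟨m, mP, mI, m1, m2, m0⟩ := c12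
  obtain ⟨n, nP, nI, n2, n1⟩ := c23
  have hw : w = 0 := by
    have := congrArg l hz
    simp only [map_add, map_smul, lP, lI, l0, l1, smul_eq_mul, mul_zero, zero_add, add_zero,
      map_zero, mul_eq_zero] at this
    rcases this with h | h
    · exact h
    · exact absurd h l2
  have hu : u = 0 := by
    have := congrArg m hz
    simp only [map_add, map_smul, mP, mI, m1, m2, smul_eq_mul, mul_zero, zero_add, add_zero,
      map_zero, mul_eq_zero] at this
    rcases this with h | h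
    · exact h
    · exact absurd h m0
  have hv : v = 0 := by
    have := congrArg n hz
    simp only [map_add, map_smul, nP, nI, n2, hu, smul_eq_mul, mul_zero, zero_add, add_zero,
      map_zero, mul_eq_zero, zero_mul] at this
    rcases this with h | h
    · exact h
    · exact absurd h n1
  subst hw hu hv
  have h1 := congrArg Prod.snd hz
  have h2 := congrArg Prod.fst hz
  simp at h1 h2
  have hst : t = -s := by linarith
  rw [hst, neg_smul, ← sub_eq_add_neg, ← smul_sub] at h2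
  rcases smul_eq_zero.mp h2 with h | h
  · exact ⟨h, by rw [hst, h, neg_zero], rfl, rfl, rfl⟩
  · exact absurd (sub_eq_zero.mp h) hPI

end Pool.Agent.H48.Mob
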