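import Pool.Agent.H48.Mob.ModelR

/-! # Tetrahedra of the 600-cell (vertices of the 120-cell) -/

open scoped RealInnerProductSpace

namespace Pool.Agent.H48.Mob

/-- Facets of the 600-cell: four pairwise adjacent vertices. -/
def IsTet (F : Finset (Fin 120)) : Prop :=
  F.card = 4 ∧ ∀ a ∈ F, ∀ b ∈ F, a ≠ b → Adj a b

theorem link_check : ∀ (p : Fin 120) (i m : Fin 12), m = invI i ∨
    (∃ k, m = cyc (invI i) k) ∨
    neg (ip (row p) (row (nb (nb p i) m))).1 ((ip (row p) (row (nb (nb p i) m))).2 - 2) = true := by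
  decide +kernel

theorem cyc_ne' : ∀ i k, cyc i k ≠ i := by decide
theorem cyc_inj' : ∀ i k j, cyc i k = cyc i j → k = j := by decide

theorem link_adj {p : Fin 120} {i j : Fin 12} (h : Adj (nb p i) (nb p j)) :
    ∃ k, j = cyc i k := by
  obtain ⟨m, hm⟩ := h
  rcases link_check p i m with h | ⟨k, h⟩ | h
  · exfalso
    rw [h, nb_inv] at hm
    exact nb_ne p j hm.symm
  · refine ⟨-k, ?_⟩
    have := nb_link p i (-k)
    rw [neg_neg, ← h, hm] at this
    exact nb_inj _ _ _ this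
  · exfalso
    have h1 := neg_real h
    rw [hm] at h1
    have h2 := vec_nb p j
    unfold vec at h2
    rw [toE_inner] at h2
    push_cast at h1
    linarith

theorem ico_adj2 : ∀ (i : Fin 12) (k m n : Fin 5), cyc i m = cyc (cyc i k) n →
    m = k + 1 ∨ m = k - 1 := by decide

theorem tet_card (p : Fin 120) (i : Fin 12) (k : Fin 5) : (tet p i k).card = 4 := by
  unfold tet
  have h1 : nb p (cyc i k) ≠ nb p (cyc i (k + 1)) := by
    intro h
    have := cyc_inj' _ _ _ (nb_inj _ _ _ h)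
    revert this; clear * -; decide +revert
  have h2 : nb p i ≠ nb p (cyc i k) := fun h => cyc_ne' _ _ (nb_inj _ _ _ h).symm
  have h3 : nb p i ≠ nb p (cyc i (k + 1)) := fun h => cyc_ne' _ _ (nb_inj _ _ _ h).symm
  rw [Finset.card_insert_of_notMem, Finset.card_insert_of_notMem, Finset.card_insert_of_notMem,
    Finset.card_singleton]
  · simpa using h1
  · simp only [Finset.mem_insert, Finset.mem_singleton, not_or]
    exact ⟨h2, h3⟩
  · simp only [Finset.mem_insert, Finset.mem_singleton, not_or]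
    exact ⟨(nb_ne _ _).symm, (nb_ne _ _).symm, (nb_ne _ _).symm⟩

theorem tet_isTet (p : Fin 120) (i : Fin 12) (k : Fin 5) : IsTet (tet p i k) :=
  ⟨tet_card p i k, tet_clique p i k⟩

theorem tet_of_triangle {F : Finset (Fin 120)} (hF : IsTet F) {p : Fin 120} {i : Fin 12}
    {k : Fin 5} (h0 : p ∈ F) (h1 : nb p i ∈ F) (h2 : nb p (cyc i k) ∈ F) :
    F = tet p i k ∨ F = tet p i (k - 1) := by
  have hne : ∃ d ∈ F, d ∉ ({p, nb p i, nb p (cyc i k)} : Finset (Fin 120)) := by
    by_contra hcon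
    push Not at hcon
    have h3 := Finset.card_le_card (show F ⊆ _ from hcon)
    have h4 : ({p, nb p i, nb p (cyc i k)} : Finset (Fin 120)).card ≤ 3 := Finset.card_le_three
    rw [hF.1] at h3
    omega
  obtain ⟨d, hd, hd'⟩ := hne
  simp only [Finset.mem_insert, Finset.mem_singleton, not_or] at hd'
  obtain ⟨d0, d1, d2⟩ := hd'
  obtain ⟨j, rfl⟩ := hF.2 p h0 d hd (Ne.symm d0)
  obtain ⟨m, rfl⟩ := link_adj (hF.2 _ h1 _ hd (Ne.symm d1))
  obtain ⟨n, hn⟩ := link_adj (hF.2 _ h2 _ hd (Ne.symm d2))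
  have key : ∀ G : Finset (Fin 120), G.card = 4 → G ⊆ F → F = G := by
    intro G hG hGF
    exact (Finset.eq_of_subset_of_card_le hGF (by rw [hF.1, hG])).symm
  rcases ico_adj2 i k m n hn with h | h
  · left
    apply key _ (tet_card _ _ _)
    intro w hw
    rw [mem_tet] at hw
    rcases hw with rfl | rfl | rfl | rfl
    · exact h0
    · exact h1
    · exact h2
    · rw [← h]; exact hd
  · right
    apply key _ (tet_card _ _ _)
    intro w hw
    rw [mem_tet] at hw
    rcases hw with rfl | rfl | rfl | rfl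
    · exact h0
    · exact h1
    · rw [← h]; exact hd
    · rw [sub_add_cancel]; exact h2

theorem tet_rep2 {F : Finset (Fin 120)} (hF : IsTet F) {p : Fin 120} {i : Fin 12}
    (h0 : p ∈ F) (h1 : nb p i ∈ F) : ∃ k, F = tet p i k := by
  have hne : ∃ d ∈ F, d ∉ ({p, nb p i} : Finset (Fin 120)) := by
    by_contra hcon
    push Not at hcon
    have h3 := Finset.card_le_card (show F ⊆ _ from hcon)
    have h4 : ({p, nb p i} : Finset (Fin 120)).card ≤ 2 := Finset.card_le_two
    rw [hF.1] at h3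
    omega
  obtain ⟨d, hd, hd'⟩ := hne
  simp only [Finset.mem_insert, Finset.mem_singleton, not_or] at hd'
  obtain ⟨d0, d1⟩ := hd'
  obtain ⟨j, rfl⟩ := hF.2 p h0 d hd (Ne.symm d0)
  obtain ⟨m, rfl⟩ := link_adj (hF.2 _ h1 _ hd (Ne.symm d1))
  rcases tet_of_triangle hF h0 h1 hd with h | h
  · exact ⟨_, h⟩
  · exact ⟨_, h⟩

theorem tet_rep1 {F : Finset (Fin 120)} (hF : IsTet F) {p : Fin 120} (h0 : p ∈ F) :
    ∃ i k, F = tet p i k := by
  have hne : ∃ d ∈ F, d ∉ ({p} : Finset (Fin 120)) := by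
    by_contra hcon
    push Not at hcon
    have h3 := Finset.card_le_card (show F ⊆ _ from hcon)
    rw [hF.1, Finset.card_singleton] at h3
    omega
  obtain ⟨d, hd, hd'⟩ := hne
  simp only [Finset.mem_singleton] at hd'
  obtain ⟨j, rfl⟩ := hF.2 p h0 d hd (Ne.symm hd')
  obtain ⟨k, h⟩ := tet_rep2 hF h0 hd
  exact ⟨j, k, h⟩

theorem tet_rep0 {F : Finset (Fin 120)} (hF : IsTet F) : ∃ p i k, F = tet p i k := by
  have : F.Nonempty := by
    rw [← Finset.card_pos, hF.1]; norm_num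
  obtain ⟨p, hp⟩ := this
  obtain ⟨i, k, h⟩ := tet_rep1 hF hp
  exact ⟨p, i, k, h⟩

/-- Rotating the representation of a tetrahedron around `p`. -/
theorem tet_rot (p : Fin 120) (i : Fin 12) (k : Fin 5) :
    tet p (cyc i k) (bk i k - 1) = tet p i k := by
  ext w
  rw [mem_tet, mem_tet, sub_add_cancel, cyc_bk, cyc_next]
  tauto

theorem tet_rot' (p : Fin 120) (i : Fin 12) (k : Fin 5) :
    tet p (cyc i k) (bk i k) = tet p i (k - 1) := by
  ext w
  rw [mem_tet, mem_tet, sub_add_cancel, cyc_bk, cyc_prev]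
  tauto

/-- Rooting at the other end of the edge. -/
theorem tet_inv (p : Fin 120) (i : Fin 12) (k : Fin 5) :
    tet (nb p i) (invI i) (-k - 1) = tet p i k := by
  ext w
  have h1 : nb (nb p i) (cyc (invI i) (-k - 1)) = nb p (cyc i (k + 1)) := by
    have e : -k - 1 = -(k + 1) := by clear * -; decide +revert
    rw [e, nb_link]
  rw [mem_tet, mem_tet, sub_add_cancel, nb_inv, nb_link, h1]
  tauto

/-- The neighbour of `tet p i k` in the cell `p` that misses `nb p i`. -/
def dropI (p : Fin 120) (i : Fin 12) (k : Fin 5) : Finset (Fin 120) :=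
  tet p (cyc i k) (bk i k - 2)

theorem dropI_isTet (p : Fin 120) (i : Fin 12) (k : Fin 5) : IsTet (dropI p i k) :=
  tet_isTet _ _ _

theorem bk_sub2 : ∀ i k, cyc (cyc i k) (bk i k - 2) ≠ i ∧ bk i k - 2 + 1 = bk i k - 1 := by decide

theorem mem_dropI {p : Fin 120} {i : Fin 12} {k : Fin 5} {w : Fin 120} : w ∈ dropI p i k ↔
    w = p ∨ w = nb p (cyc i k) ∨ w = nb p (cyc (cyc i k) (bk i k - 2)) ∨
    w = nb p (cyc i (k + 1)) := by
  unfold dropI
  rw [mem_tet, (bk_sub2 i k).2, cyc_next]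

theorem not_mem_dropI (p : Fin 120) (i : Fin 12) (k : Fin 5) : nb p i ∉ dropI p i k := by
  rw [mem_dropI]
  rintro (h | h | h | h)
  · exact nb_ne _ _ h
  · exact cyc_ne' _ _ (nb_inj _ _ _ h).symm
  · exact (bk_sub2 i k).1 (nb_inj _ _ _ h).symm
  · exact cyc_ne' _ _ (nb_inj _ _ _ h).symm

theorem not_mem_tet_succ (p : Fin 120) (i : Fin 12) (k m : Fin 5) (h1 : m ≠ k) (h2 : m ≠ k + 1) :
    nb p (cyc i m) ∉ tet p i k := by
  rw [mem_tet]
  rintro (h | h | h | h)
  · exact nb_ne _ _ h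
  · exact cyc_ne' _ _ (nb_inj _ _ _ h)
  · exact h1 (cyc_inj' _ _ _ (nb_inj _ _ _ h))
  · exact h2 (cyc_inj' _ _ _ (nb_inj _ _ _ h))

end Pool.Agent.H48.Mob
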