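import Mathlib

/-!
# Edge-scribed polytopes, ball arrangements and Möbius uniqueness

Definitions used in the statements about the 600-cell and the 120-cell.
-/

open scoped RealInnerProductSpace

namespace Pool.Agent.H48.Mob

/-- Euclidean `n`-space. -/
abbrev E (n : ℕ) := EuclideanSpace ℝ (Fin n)

/-- A convex `4`-polytope in `E 4`, given by its (finite) set of vertices: a finite set of
points in convex position that affinely spans `E 4`.  The polytope is `convexHull ℝ verts`. -/
structure Polytope4 where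
  verts : Set (E 4)
  finite : verts.Finite
  convexPos : ∀ v ∈ verts, v ∉ convexHull ℝ (verts \ {v})
  full : affineSpan ℝ verts = ⊤

/-- `F` is the vertex set of a face of the polytope with vertex set `V`: the set of all
vertices at which some linear functional attains a value `c` that bounds it on `V`.
(The empty face and the whole polytope are included.) -/
def IsFace (V F : Set (E 4)) : Prop :=
  F ⊆ V ∧ ∃ (h : E 4) (c : ℝ), ∀ v ∈ V, ⟪h, v⟫ ≤ c ∧ (⟪h, v⟫ = c ↔ v ∈ F)

/-- Two vertex sets are combinatorially equivalent: some bijection between them carries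
faces to faces in both directions. -/
def CombEquiv (V W : Set (E 4)) : Prop :=
  ∃ e : V ≃ W, ∀ F : Set V,
    IsFace V (Subtype.val '' F) ↔ IsFace W (Subtype.val '' (e '' F))

/-- The segment `uv` is tangent to the unit sphere: it contains a point `t` of the sphere and
lies in the tangent hyperplane of the sphere at `t`. -/
def TangentEdge (u v : E 4) : Prop :=
  ∃ t ∈ segment ℝ u v, ‖t‖ = 1 ∧ ⟪t, u⟫ = 1 ∧ ⟪t, v⟫ = 1

/-- Every edge (face with exactly two vertices) is tangent to the unit sphere. -/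
def EdgeScribed (V : Set (E 4)) : Prop :=
  ∀ u v : E 4, u ≠ v → IsFace V {u, v} → TangentEdge u v

/-- Stereographic projection of the unit sphere of `E 4` from the north pole `(0,0,0,1)` onto
`E 3 ∪ {∞}`. (Used only at points of the unit sphere.) -/
noncomputable def stereo (x : E 4) : OnePoint (E 3) :=
  open Classical in
  if x 3 = 1 then OnePoint.infty
  else ((!₂[x 0 / (1 - x 3), x 1 / (1 - x 3), x 2 / (1 - x 3)] : E 3) : OnePoint (E 3))

/-- The ball `b_v`: the stereographic image of the cap of the unit sphere visible from `v`. -/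
noncomputable def ball (v : E 4) : Set (OnePoint (E 3)) :=
  stereo '' {x : E 4 | ‖x‖ = 1 ∧ 1 ≤ ⟪x, v⟫}

/-- The ball-arrangement projection of a polytope. -/
noncomputable def ballArrangement (V : Set (E 4)) : Set (Set (OnePoint (E 3))) :=
  ball '' V

/-- `σ` is the inversion in the sphere with centre `c` and radius `R`. -/
def IsInversion (σ : Equiv.Perm (OnePoint (E 3))) : Prop :=
  ∃ (c : E 3) (R : ℝ), 0 < R ∧ σ OnePoint.infty = (c : OnePoint (E 3)) ∧
    σ (c : OnePoint (E 3)) = OnePoint.infty ∧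
    ∀ x : E 3, x ≠ c →
      σ (x : OnePoint (E 3)) = ((c + (R / ‖x - c‖) ^ 2 • (x - c) : E 3) : OnePoint (E 3))

/-- `σ` is the reflection in the plane `{x | ⟪u, x⟫ = a}`, where `u` is a unit vector. -/
def IsPlaneReflection (σ : Equiv.Perm (OnePoint (E 3))) : Prop :=
  ∃ (u : E 3) (a : ℝ), ‖u‖ = 1 ∧ σ OnePoint.infty = OnePoint.infty ∧
    ∀ x : E 3, σ (x : OnePoint (E 3)) = ((x - (2 * (⟪u, x⟫ - a)) • u : E 3) : OnePoint (E 3))

/-- The Möbius group of `E 3 ∪ {∞}`: generated by the inversions in spheres and the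
reflections in planes. -/
def moebiusGroup : Subgroup (Equiv.Perm (OnePoint (E 3))) :=
  Subgroup.closure {σ | IsInversion σ ∨ IsPlaneReflection σ}

/-- The combinatorial type of the polytope with vertex set `Q` is Möbius unique. -/
def MoebiusUnique (Q : Set (E 4)) : Prop :=
  ∀ P₁ P₂ : Polytope4, CombEquiv P₁.verts Q → CombEquiv P₂.verts Q →
    EdgeScribed P₁.verts → EdgeScribed P₂.verts →
    ∃ μ ∈ moebiusGroup,
      (fun b => μ '' b) '' ballArrangement P₁.verts = ballArrangement P₂.verts

/-- The vertices of the regular 600-cell, with coordinates doubled and written as integer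
pairs `(a, b)` for `a + b φ` (`φ` the golden ratio): all permutations of `(±2, 0, 0, 0)`, all
`(±1, ±1, ±1, ±1)`, and all even permutations of `(±φ, ±1, ±1/φ, 0)`, `1/φ = φ - 1`. -/
def IsIcosian (q : Fin 4 → ℤ × ℤ) : Prop :=
  (∃ i : Fin 4, (q i = (2, 0) ∨ q i = (-2, 0)) ∧ ∀ j, j ≠ i → q j = (0, 0)) ∨
  (∀ i : Fin 4, q i = (1, 0) ∨ q i = (-1, 0)) ∨
  (∃ σ : Equiv.Perm (Fin 4), Equiv.Perm.sign σ = 1 ∧
    (q (σ 0) = (0, 1) ∨ q (σ 0) = (0, -1)) ∧
    (q (σ 1) = (1, 0) ∨ q (σ 1) = (-1, 0)) ∧
    (q (σ 2) = (-1, 1) ∨ q (σ 2) = (1, -1)) ∧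
    q (σ 3) = (0, 0))

/-- The point of `E 4` with doubled coordinates `q`. -/
noncomputable def toE (q : Fin 4 → ℤ × ℤ) : E 4 :=
  WithLp.toLp 2 (fun i => (((q i).1 : ℝ) + ((q i).2 : ℝ) * Real.goldenRatio) / 2)

/-- The 120 vertices of the regular 600-cell `{3,3,5}` inscribed in the unit sphere. -/
noncomputable def cell600 : Set (E 4) := {v | ∃ q, IsIcosian q ∧ v = toE q}

/-- The 600 vertices of a regular 120-cell `{5,3,3}`, the dual of the 600-cell: the sums of
the vertices of the facets of the 600-cell, a facet being four vertices that are pairwise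
adjacent (at inner product `φ / 2`). -/
noncomputable def cell120 : Set (E 4) :=
  {v | ∃ a b c d : E 4, a ∈ cell600 ∧ b ∈ cell600 ∧ c ∈ cell600 ∧ d ∈ cell600 ∧
    ⟪a, b⟫ = Real.goldenRatio / 2 ∧ ⟪a, c⟫ = Real.goldenRatio / 2 ∧
    ⟪a, d⟫ = Real.goldenRatio / 2 ∧ ⟪b, c⟫ = Real.goldenRatio / 2 ∧
    ⟪b, d⟫ = Real.goldenRatio / 2 ∧ ⟪c, d⟫ = Real.goldenRatio / 2 ∧
    v = a + b + c + d}

end Pool.Agent.H48.Mob
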