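import Pool.Agent.H48.Mob.Moeb

open scoped RealInnerProductSpace

namespace Pool.Agent.H48.Mob

/-- Extension of a linear isometry of `E 4` to Lorentz space. -/
noncomputable def ext4 (A : E 4 ≃ₗᵢ[ℝ] E 4) : L →ₗ[ℝ] L :=
  (A.toLinearEquiv.toLinearMap).prodMap LinearMap.id

theorem ext4_apply (A : E 4 ≃ₗᵢ[ℝ] E 4) (z : L) : ext4 A z = (A z.1, z.2) := rfl

theorem good_reflection (v : E 4) :
    ∃ μ ∈ moebiusGroup, Good (ext4 ((ℝ ∙ v)ᗮ.reflection)) μ := by
  by_cases hv : v = 0
  · refine ⟨1, one_mem _, ?_⟩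
    have : ext4 ((ℝ ∙ v)ᗮ.reflection) = LinearMap.id := by
      apply LinearMap.ext
      intro z
      rw [ext4_apply, Submodule.reflection_orthogonal_apply, Submodule.reflection_singleton_apply, hv]
      simp
    rw [this]
    exact Good.id
  · have hn : ‖v‖ ≠ 0 := norm_ne_zero_iff.mpr hv
    have he : B (((‖v‖⁻¹ • v : E 4), (0 : ℝ)) : L) (‖v‖⁻¹ • v, 0) = 1 := by
      unfold B
      rw [real_inner_self_eq_norm_sq, norm_smul, norm_inv, norm_norm, inv_mul_cancel₀ hn]
      simp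
    obtain ⟨μ, hμ, hg⟩ := good_refl he
    refine ⟨μ, hμ, ?_⟩
    have : ext4 ((ℝ ∙ v)ᗮ.reflection) = refl (‖v‖⁻¹ • v, 0) := by
      apply LinearMap.ext
      intro z
      rw [ext4_apply, Submodule.reflection_orthogonal_apply, Submodule.reflection_singleton_apply,
        refl_apply]
      unfold B
      rw [real_inner_smul_right, real_inner_comm]
      refine Prod.ext ?_ ?_
      · simp [smul_smul]
        rw [two_smul, ← add_smul]
        congr 1
        field_simp
        ring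
      · simp
    rw [this]
    exact hg

theorem ext4_mul (A A' : E 4 ≃ₗᵢ[ℝ] E 4) : ext4 (A * A') = ext4 A ∘ₗ ext4 A' := by
  apply LinearMap.ext
  intro z
  rfl

theorem good_ext4 (A : E 4 ≃ₗᵢ[ℝ] E 4) : ∃ μ ∈ moebiusGroup, Good (ext4 A) μ := by
  have hA : A ∈ (⊤ : Subgroup (E 4 ≃ₗᵢ[ℝ] E 4)) := Subgroup.mem_top A
  rw [← LinearIsometryEquiv.reflections_generate] at hA
  induction hA using Subgroup.closure_induction with
  | mem x hx =>
    obtain ⟨v, rfl⟩ := hx
    exact good_reflection v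
  | one =>
    refine ⟨1, one_mem _, ?_⟩
    have : ext4 1 = LinearMap.id := by
      apply LinearMap.ext
      intro z
      rfl
    rw [this]
    exact Good.id
  | mul x y _ _ hx hy =>
    obtain ⟨μ, hμ, hg⟩ := hx
    obtain ⟨μ', hμ', hg'⟩ := hy
    refine ⟨μ * μ', mul_mem hμ hμ', ?_⟩
    rw [ext4_mul]
    exact hg.comp hg'
  | inv x _ hx =>
    obtain ⟨μ, hμ, hg⟩ := hx
    refine ⟨μ⁻¹, inv_mem hμ, ?_⟩
    intro s
    obtain ⟨r, hr, h⟩ := hg (μ⁻¹ s)
    have hs : μ (μ⁻¹ s) = s := by simp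
    rw [hs] at h
    refine ⟨r⁻¹, inv_pos.mpr hr, ?_⟩
    have h2 : ext4 x⁻¹ (ext4 x (lift (μ⁻¹ s))) = lift (μ⁻¹ s) := by
      rw [← LinearMap.comp_apply, ← ext4_mul, inv_mul_cancel]
      rfl
    rw [h, map_smul] at h2
    rw [← h2, smul_smul, inv_mul_cancel₀ hr.ne', one_smul]

/-- A linear isometry of Lorentz space fixing `(0, 1)` comes from a linear isometry of `E 4`. -/
theorem good_fix (T : L →ₗ[ℝ] L) (hT : ∀ a b, B (T a) (T b) = B a b)
    (hf : T ((0, 1) : L) = (0, 1)) : ∃ μ ∈ moebiusGroup, Good T μ := by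
  have h2 : ∀ x : E 4, (T ((x, 0) : L)).2 = 0 := by
    intro x
    have := hT (x, 0) (0, 1)
    rw [hf] at this
    unfold B at this
    simp at this
    exact this
  let A0 : E 4 →ₗ[ℝ] E 4 := (LinearMap.fst ℝ (E 4) ℝ) ∘ₗ T ∘ₗ (LinearMap.inl ℝ (E 4) ℝ)
  have hA0 : ∀ x, A0 x = (T ((x, 0) : L)).1 := fun x => rfl
  have hin : ∀ x y, ⟪A0 x, A0 y⟫ = ⟪x, y⟫ := by
    intro x y
    have := hT (x, 0) (y, 0)
    unfold B at this
    rw [h2, h2] at this
    simp only [mul_zero, sub_zero] at this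
    exact this
  let A1 : E 4 →ₗᵢ[ℝ] E 4 := A0.isometryOfInner hin
  let A : E 4 ≃ₗᵢ[ℝ] E 4 := A1.toLinearIsometryEquiv rfl
  have hA : ∀ x, A x = (T ((x, 0) : L)).1 := by
    intro x
    rfl
  obtain ⟨μ, hμ, hg⟩ := good_ext4 A
  refine ⟨μ, hμ, ?_⟩
  have : T = ext4 A := by
    apply LinearMap.ext
    rintro ⟨x, t⟩
    rw [ext4_apply]
    have : ((x, t) : L) = (x, 0) + t • ((0, 1) : L) := by
      simp
    rw [this, map_add, map_smul, hf]
    refine Prod.ext ?_ ?_
    · simp [hA]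
    · simp [h2]
  rw [this]
  exact hg

theorem good_of_isometry (T : L →ₗ[ℝ] L) (hT : ∀ a b, B (T a) (T b) = B a b)
    (hpos : 0 < (T ((0, 1) : L)).2) : ∃ μ ∈ moebiusGroup, Good T μ := by
  by_cases hf : T ((0, 1) : L) = (0, 1)
  · exact good_fix T hT hf
  · set u := T ((0, 1) : L) with hu
    have huu : B u u = -1 := by
      rw [hu, hT]; unfold B; simp
    have hue : B u (0, 1) = -u.2 := by
      unfold B; simp
    have hee : B ((0, 1) : L) (0, 1) = -1 := by
      unfold B; simp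
    have hu1 : ‖u.1‖ ^ 2 = u.2 ^ 2 - 1 := by
      have := huu
      unfold B at this
      rw [real_inner_self_eq_norm_sq] at this
      linarith
    have hgt : 1 < u.2 := by
      rcases lt_trichotomy u.2 1 with h | h | h
      · exfalso
        nlinarith [sq_nonneg ‖u.1‖]
      · exfalso
        apply hf
        rw [h] at hu1
        have : ‖u.1‖ = 0 := by
          have h' : ‖u.1‖ ^ 2 = 0 := by rw [hu1]; ring
          exact pow_eq_zero_iff (two_ne_zero) |>.mp h'
        exact Prod.ext (norm_eq_zero.mp this) h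
      · exact h
    set N : ℝ := 2 * u.2 - 2 with hN
    have hNpos : 0 < N := by linarith
    have hBN : B (u - (0, 1)) (u - (0, 1)) = N := by
      rw [B_sub_left, B_sub_right, B_sub_right, B_comm (0, 1) u, huu, hue, hee]
      ring
    set e : L := (Real.sqrt N)⁻¹ • (u - (0, 1)) with he
    have hsq : Real.sqrt N * Real.sqrt N = N := Real.mul_self_sqrt hNpos.le
    have hsq0 : Real.sqrt N ≠ 0 := (Real.sqrt_pos.mpr hNpos).ne'
    have hee1 : B e e = 1 := by
      rw [he, B_smul_left, B_smul_right, hBN]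
      nth_rewrite 3 [← hsq]
      field_simp
    have hre : refl e u = (0, 1) := by
      rw [refl_apply]
      have h1 : B u e = (Real.sqrt N)⁻¹ * (u.2 - 1) := by
        rw [he, B_smul_right, B_sub_right, huu, hue]; ring
      rw [h1, he, smul_smul]
      have h3 : 2 * ((Real.sqrt N)⁻¹ * (u.2 - 1)) * (Real.sqrt N)⁻¹ = 1 := by
        have : 2 * (u.2 - 1) = Real.sqrt N * Real.sqrt N := by rw [hsq, hN]; ring
        calc 2 * ((Real.sqrt N)⁻¹ * (u.2 - 1)) * (Real.sqrt N)⁻¹
            = (2 * (u.2 - 1)) * (Real.sqrt N)⁻¹ * (Real.sqrt N)⁻¹ := by ring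
          _ = 1 := by rw [this]; field_simp
      rw [h3, one_smul, sub_sub_cancel]
    obtain ⟨μ, hμ, hg⟩ := good_fix (refl e ∘ₗ T)
      (by intro a b; rw [LinearMap.comp_apply, LinearMap.comp_apply, refl_B hee1, hT])
      (by rw [LinearMap.comp_apply, ← hu, hre])
    obtain ⟨μ', hμ', hg'⟩ := good_refl hee1
    refine ⟨μ' * μ, mul_mem hμ' hμ, ?_⟩
    have h3 := hg'.comp hg
    have : refl e ∘ₗ (refl e ∘ₗ T) = T := by
      apply LinearMap.ext
      intro z
      rw [LinearMap.comp_apply, LinearMap.comp_apply, refl_refl hee1]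
    rwa [this] at h3

/-- An isometry sending one future light-like vector to a future light-like vector is
orthochronous. -/
theorem pos_of_future (T : L →ₗ[ℝ] L) (hT : ∀ a b, B (T a) (T b) = B a b)
    {n : L} (hn : Future n) (hTn : Future (T n)) : 0 < (T ((0, 1) : L)).2 := by
  set u := T ((0, 1) : L) with hu
  have huu : B u u = -1 := by
    rw [hu, hT]; unfold B; simp
  have hu1 : ‖u.1‖ ^ 2 = u.2 ^ 2 - 1 := by
    have := huu
    unfold B at this
    rw [real_inner_self_eq_norm_sq] at this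
    linarith
  have h1 : B u (T n) = - n.2 := by
    rw [hu, hT]; unfold B; simp
  have hn2 := future_snd_pos hn
  obtain ⟨r, hr, t, ht, hTn'⟩ := hTn
  rw [hTn', B_smul_right] at h1
  have h2 : B u ((t, 1) : L) = ⟪u.1, t⟫ - u.2 := by unfold B; simp
  rw [h2] at h1
  have h3 : ⟪u.1, t⟫ - u.2 < 0 := by
    by_contra h
    push Not at h
    have := mul_nonneg hr.le h
    linarith
  by_contra hle
  push Not at hle
  have h4 : -⟪u.1, t⟫ ≤ ‖u.1‖ := by
    have := abs_real_inner_le_norm u.1 t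
    rw [ht, mul_one] at this
    exact (neg_le_abs _).trans this
  have h5 : ‖u.1‖ < -u.2 := by
    apply lt_of_pow_lt_pow_left₀ 2 (by linarith)
    rw [hu1]; nlinarith
  linarith

end Pool.Agent.H48.Mob
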