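import Pool.Agent.H48.Mob.Bridge
import Pool.Agent.H48.Mob.Model

/-! # The real 600-cell and its faces -/

open scoped RealInnerProductSpace

namespace Pool.Agent.H48.Mob

/-- The vertex `p` of the 600-cell. -/
noncomputable def vec (p : Fin 120) : E 4 := toE (row p)

theorem toE_apply (q : Fin 4 → ℤ × ℤ) (i : Fin 4) :
    toE q i = (((q i).1 : ℝ) + ((q i).2 : ℝ) * Real.goldenRatio) / 2 := rfl

theorem toE_inner (q r : Fin 4 → ℤ × ℤ) :
    ⟪toE q, toE r⟫ = (((ip q r).1 : ℝ) + ((ip q r).2 : ℝ) * Real.goldenRatio) / 4 := by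
  have hφ : Real.goldenRatio ^ 2 = Real.goldenRatio + 1 := Real.goldenRatio_sq
  rw [PiLp.inner_apply, Fin.sum_univ_four]
  simp only [toE_apply, ip, zadd, zmul, RCLike.inner_apply, conj_trivial]
  generalize Real.goldenRatio = φ at hφ ⊢
  generalize q 0 = a0, q 1 = a1, q 2 = a2, q 3 = a3, r 0 = b0, r 1 = b1, r 2 = b2, r 3 = b3
  obtain ⟨a, a'⟩ := a0
  obtain ⟨b, b'⟩ := a1
  obtain ⟨c, c'⟩ := a2
  obtain ⟨d, d'⟩ := a3
  obtain ⟨x, x'⟩ := b0
  obtain ⟨y, y'⟩ := b1
  obtain ⟨z, z'⟩ := b2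
  obtain ⟨w, w'⟩ := b3
  push_cast
  linear_combination ((a' * x' + b' * y' + c' * z' + d' * w' : ℝ) / 4) * hφ

theorem gold_lo : (987 / 610 : ℝ) < Real.goldenRatio := by
  have hφ : Real.goldenRatio ^ 2 = Real.goldenRatio + 1 := Real.goldenRatio_sq
  have h1 := Real.one_lt_goldenRatio
  nlinarith

theorem gold_hi : Real.goldenRatio < (1597 / 987 : ℝ) := by
  have hφ : Real.goldenRatio ^ 2 = Real.goldenRatio + 1 := Real.goldenRatio_sq
  have h1 := Real.one_lt_goldenRatio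
  nlinarith

theorem neg_real {a b : ℤ} (h : neg a b = true) : (a : ℝ) + b * Real.goldenRatio < 0 := by
  unfold neg at h
  rw [Bool.and_eq_true, decide_eq_true_eq, decide_eq_true_eq] at h
  obtain ⟨h1, h2⟩ := h
  have h1' : (a : ℝ) * 987 + b * 1597 < 0 := by exact_mod_cast h1
  have h2' : (a : ℝ) * 610 + b * 987 < 0 := by exact_mod_cast h2
  have lo := gold_lo
  have hi := gold_hi
  rcases le_or_gt (0 : ℝ) b with hb | hb
  · nlinarith
  · nlinarith

theorem vec_self (p : Fin 120) : ⟪vec p, vec p⟫ = 1 := by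
  unfold vec
  rw [toE_inner, ip_self]
  norm_num

theorem vec_nb (p : Fin 120) (i : Fin 12) : ⟪vec p, vec (nb p i)⟫ = Real.goldenRatio / 2 := by
  unfold vec
  rw [toE_inner, ip_nb]
  push_cast
  ring

theorem vec_lt {p q : Fin 120} (h1 : p ≠ q) (h2 : ∀ i, nb p i ≠ q) :
    ⟪vec p, vec q⟫ < Real.goldenRatio / 2 := by
  unfold vec
  rw [toE_inner]
  rcases ip_lt p q with h | h | ⟨i, h⟩
  · exact absurd h h1
  · have := neg_real h
    push_cast at this
    linarith
  · exact absurd h (h2 i)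

theorem vec_le {p q : Fin 120} (h1 : p ≠ q) : ⟪vec p, vec q⟫ ≤ Real.goldenRatio / 2 := by
  by_cases h : ∃ i, nb p i = q
  · obtain ⟨i, rfl⟩ := h
    exact (vec_nb p i).le
  · push Not at h
    exact (vec_lt h1 h).le

theorem gold_lt_two : Real.goldenRatio < 2 := Real.goldenRatio_lt_two

theorem vec_inj {p q : Fin 120} (h : vec p = vec q) : p = q := by
  by_contra hne
  have h1 := vec_le hne
  rw [← h, vec_self] at h1
  linarith [gold_lt_two]

theorem row_mem : ∀ p, IsIcosian (row p) := by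
  have h : ∀ p : Fin 120,
      (∃ i : Fin 4, (row p i = (2, 0) ∨ row p i = (-2, 0)) ∧ ∀ j, j ≠ i → row p j = (0, 0)) ∨
      (∀ i : Fin 4, row p i = (1, 0) ∨ row p i = (-1, 0)) ∨
      (∃ σ : Equiv.Perm (Fin 4), Equiv.Perm.sign σ = 1 ∧
        (row p (σ 0) = (0, 1) ∨ row p (σ 0) = (0, -1)) ∧
        (row p (σ 1) = (1, 0) ∨ row p (σ 1) = (-1, 0)) ∧
        (row p (σ 2) = (-1, 1) ∨ row p (σ 2) = (1, -1)) ∧
        row p (σ 3) = (0, 0)) := by decide +kernel
  exact h

theorem exists_row1 : ∀ (i : Fin 4) (b : Bool), ∃ p : Fin 120, ∀ j,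
    row p j = if j = i then (if b then (2, 0) else (-2, 0)) else (0, 0) := by decide +kernel

theorem exists_row2 : ∀ (a b c d : Bool), ∃ p : Fin 120,
    row p 0 = (if a then (1, 0) else (-1, 0)) ∧ row p 1 = (if b then (1, 0) else (-1, 0)) ∧
    row p 2 = (if c then (1, 0) else (-1, 0)) ∧ row p 3 = (if d then (1, 0) else (-1, 0)) := by
  decide +kernel

theorem exists_row3 : ∀ (σ : Equiv.Perm (Fin 4)), Equiv.Perm.sign σ = 1 → ∀ (a b c : Bool),
    ∃ p : Fin 120,
    row p (σ 0) = (if a then (0, 1) else (0, -1)) ∧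
    row p (σ 1) = (if b then (1, 0) else (-1, 0)) ∧
    row p (σ 2) = (if c then (-1, 1) else (1, -1)) ∧ row p (σ 3) = (0, 0) := by
  decide +kernel

theorem exists_row {q : Fin 4 → ℤ × ℤ} (h : IsIcosian q) : ∃ p, row p = q := by
  rcases h with ⟨i, h1, h2⟩ | h | ⟨σ, hσ, h0, h1, h2, h3⟩
  · rcases h1 with h1 | h1
    · obtain ⟨p, hp⟩ := exists_row1 i true
      refine ⟨p, funext fun j => ?_⟩
      rw [hp]
      by_cases hj : j = i
      · rw [if_pos hj, hj, h1]; rfl
      · rw [if_neg hj, h2 j hj]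
    · obtain ⟨p, hp⟩ := exists_row1 i false
      refine ⟨p, funext fun j => ?_⟩
      rw [hp]
      by_cases hj : j = i
      · rw [if_pos hj, hj, h1]; rfl
      · rw [if_neg hj, h2 j hj]
  · have hb : ∀ i, ∃ b : Bool, q i = (if b then ((1 : ℤ), (0 : ℤ)) else (-1, 0)) := by
      intro i
      rcases h i with h | h
      · exact ⟨true, by rw [h]; rfl⟩
      · exact ⟨false, by rw [h]; rfl⟩
    choose b hb using hb
    obtain ⟨p, h0, h1, h2, h3⟩ := exists_row2 (b 0) (b 1) (b 2) (b 3)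
    refine ⟨p, funext fun j => ?_⟩
    fin_cases j
    · exact h0.trans (hb 0).symm
    · exact h1.trans (hb 1).symm
    · exact h2.trans (hb 2).symm
    · exact h3.trans (hb 3).symm
  · have hb0 : ∃ b : Bool, q (σ 0) = (if b then ((0 : ℤ), (1 : ℤ)) else (0, -1)) := by
      rcases h0 with h | h
      · exact ⟨true, by rw [h]; rfl⟩
      · exact ⟨false, by rw [h]; rfl⟩
    have hb1 : ∃ b : Bool, q (σ 1) = (if b then ((1 : ℤ), (0 : ℤ)) else (-1, 0)) := by
      rcases h1 with h | h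
      · exact ⟨true, by rw [h]; rfl⟩
      · exact ⟨false, by rw [h]; rfl⟩
    have hb2 : ∃ b : Bool, q (σ 2) = (if b then ((-1 : ℤ), (1 : ℤ)) else (1, -1)) := by
      rcases h2 with h | h
      · exact ⟨true, by rw [h]; rfl⟩
      · exact ⟨false, by rw [h]; rfl⟩
    obtain ⟨b0, hb0⟩ := hb0
    obtain ⟨b1, hb1⟩ := hb1
    obtain ⟨b2, hb2⟩ := hb2
    obtain ⟨p, e0, e1, e2, e3⟩ := exists_row3 σ hσ b0 b1 b2
    refine ⟨p, funext fun j => ?_⟩
    obtain ⟨i, rfl⟩ := σ.surjective j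
    fin_cases i
    · exact e0.trans hb0.symm
    · exact e1.trans hb1.symm
    · exact e2.trans hb2.symm
    · exact e3.trans h3.symm

theorem cell600_eq : cell600 = Set.range vec := by
  ext v
  constructor
  · rintro ⟨q, hq, rfl⟩
    obtain ⟨p, rfl⟩ := exists_row hq
    exact ⟨p, rfl⟩
  · rintro ⟨p, rfl⟩
    exact ⟨row p, row_mem p, rfl⟩

/-- Two different vertices are adjacent. -/
def Adj (p q : Fin 120) : Prop := ∃ i, nb p i = q

theorem Adj.inner {p q : Fin 120} (h : Adj p q) : ⟪vec p, vec q⟫ = Real.goldenRatio / 2 := by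
  obtain ⟨i, rfl⟩ := h
  exact vec_nb p i

theorem Adj.symm {p q : Fin 120} (h : Adj p q) : Adj q p := by
  obtain ⟨i, rfl⟩ := h
  exact ⟨invI i, nb_inv p i⟩

theorem Adj.ne {p q : Fin 120} (h : Adj p q) : p ≠ q := by
  obtain ⟨i, rfl⟩ := h
  exact (nb_ne p i).symm

theorem adj_iff {p q : Fin 120} : Adj p q ↔ ⟪vec p, vec q⟫ = Real.goldenRatio / 2 := by
  constructor
  · exact fun h => h.inner
  · intro h
    by_contra hn
    unfold Adj at hn
    push Not at hn
    by_cases hpq : p = q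
    · rw [← hpq, vec_self] at h
      linarith [gold_lt_two]
    · have := vec_lt hpq hn
      linarith

/-- Values of the functional of a clique. -/
theorem clique_val (S : Finset (Fin 120)) (hS : ∀ p ∈ S, ∀ q ∈ S, p ≠ q → Adj p q)
    (w : Fin 120) :
    (w ∈ S → ⟪∑ p ∈ S, vec p, vec w⟫ = 1 + (S.card - 1) * (Real.goldenRatio / 2)) ∧
    (w ∉ S → ⟪∑ p ∈ S, vec p, vec w⟫ < 1 + (S.card - 1) * (Real.goldenRatio / 2)) := by
  rw [sum_inner]
  constructor
  · intro hw
    rw [← Finset.add_sum_erase S _ hw, vec_self]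
    congr 1
    have : ∀ p ∈ S.erase w, ⟪vec p, vec w⟫ = Real.goldenRatio / 2 := by
      intro p hp
      rw [Finset.mem_erase] at hp
      exact (hS p hp.2 w hw hp.1).inner
    rw [Finset.sum_congr rfl this, Finset.sum_const, Finset.card_erase_of_mem hw, nsmul_eq_mul]
    have hc : 1 ≤ S.card := Finset.card_pos.mpr ⟨w, hw⟩
    rw [Nat.cast_sub hc]
    push_cast
    ring
  · intro hw
    have : ∑ p ∈ S, ⟪vec p, vec w⟫ ≤ ∑ _p ∈ S, Real.goldenRatio / 2 := by
      apply Finset.sum_le_sum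
      intro p hp
      apply vec_le
      rintro rfl
      exact hw hp
    rw [Finset.sum_const, nsmul_eq_mul] at this
    have h2 := gold_lt_two
    nlinarith

theorem clique_face (S : Finset (Fin 120)) (hS : ∀ p ∈ S, ∀ q ∈ S, p ≠ q → Adj p q) :
    IsFace cell600 {v | ∃ p ∈ S, vec p = v} := by
  refine ⟨?_, ∑ p ∈ S, vec p, 1 + (S.card - 1) * (Real.goldenRatio / 2), ?_⟩
  · rintro v ⟨p, _, rfl⟩
    rw [cell600_eq]; exact ⟨p, rfl⟩
  · intro v hv
    rw [cell600_eq] at hv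
    obtain ⟨w, rfl⟩ := hv
    obtain ⟨h1, h2⟩ := clique_val S hS w
    by_cases hw : w ∈ S
    · exact ⟨(h1 hw).le, fun _ => ⟨w, hw, rfl⟩, fun _ => h1 hw⟩
    · refine ⟨(h2 hw).le, fun h => absurd h (h2 hw).ne, ?_⟩
      rintro ⟨p, hp, hpw⟩
      exact absurd (vec_inj hpw ▸ hp) hw

theorem adj_nb (p : Fin 120) (i : Fin 12) : Adj p (nb p i) := ⟨i, rfl⟩

theorem adj_link (p : Fin 120) (i : Fin 12) (k : Fin 5) : Adj (nb p i) (nb p (cyc i k)) :=
  ⟨_, nb_link p i k⟩

theorem adj_link2 (p : Fin 120) (i : Fin 12) (k : Fin 5) :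
    Adj (nb p (cyc i k)) (nb p (cyc i (k + 1))) := by
  rw [← cyc_next]; exact adj_link _ _ _

/-- The facet with vertices `p, nb p i, nb p (cyc i k), nb p (cyc i (k+1))`. -/
def tet (p : Fin 120) (i : Fin 12) (k : Fin 5) : Finset (Fin 120) :=
  {p, nb p i, nb p (cyc i k), nb p (cyc i (k + 1))}

theorem mem_tet {p : Fin 120} {i : Fin 12} {k : Fin 5} {w : Fin 120} : w ∈ tet p i k ↔
    w = p ∨ w = nb p i ∨ w = nb p (cyc i k) ∨ w = nb p (cyc i (k + 1)) := by
  unfold tet; simp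

attribute [local irreducible] nb

theorem tet_clique (p : Fin 120) (i : Fin 12) (k : Fin 5) :
    ∀ a ∈ tet p i k, ∀ b ∈ tet p i k, a ≠ b → Adj a b := by
  intro a ha b hb hab
  rw [mem_tet] at ha hb
  rcases ha with rfl | rfl | rfl | rfl <;> rcases hb with rfl | rfl | rfl | rfl <;>
    first
    | exact absurd rfl hab
    | exact adj_nb _ _
    | exact (adj_nb _ _).symm
    | exact adj_link _ _ _
    | exact (adj_link _ _ _).symm
    | exact adj_link2 _ _ _
    | exact (adj_link2 _ _ _).symm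

end Pool.Agent.H48.Mob
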