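import Pool.Agent.H48.Mob.Star
import Pool.Agent.H48.Mob.ModelR
import Pool.Agent.H48.Mob.Iso

/-! # Möbius uniqueness of the 600-cell -/

open scoped RealInnerProductSpace

namespace Pool.Agent.H48.Mob

section

variable {V : Set (E 4)} (e : V ≃ cell600)

/-- The vertex of the realization corresponding to `p`. -/
noncomputable def vtx (p : Fin 120) : E 4 :=
  (e.symm ⟨vec p, by rw [cell600_eq]; exact ⟨p, rfl⟩⟩ : V)

variable (he : ∀ F : Set V, IsFace V (Subtype.val '' F) ↔ IsFace cell600 (Subtype.val '' (e '' F)))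
  (hs : EdgeScribed V)

include he in
theorem vtx_cov (S : Finset (Fin 120)) (hS : ∀ p ∈ S, ∀ q ∈ S, p ≠ q → Adj p q) :
    ∃ (h : E 4) (c : ℝ), ∀ w, ⟪h, vtx e w⟫ ≤ c ∧ (⟪h, vtx e w⟫ = c ↔ w ∈ S) := by
  obtain ⟨h, c, hc⟩ := transport_cov e he (clique_face S hS)
  refine ⟨h, c, fun w => ?_⟩
  have := hc ⟨vec w, by rw [cell600_eq]; exact ⟨w, rfl⟩⟩
  refine ⟨this.1, this.2.trans ⟨?_, fun h => ⟨w, h, rfl⟩⟩⟩
  rintro ⟨p, hp, hpw⟩
  rwa [← vec_inj hpw]

theorem vtx_inj {p q : Fin 120} (h : vtx e p = vtx e q) : p = q := by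
  unfold vtx at h
  have h1 := e.symm.injective (Subtype.ext h)
  exact vec_inj (Subtype.ext_iff.mp h1)

include he hs in
theorem vtx_tangent {p q : Fin 120} (h : Adj p q) : TangentEdge (vtx e p) (vtx e q) := by
  apply transport_edge e he hs
  · intro h1
    exact h.ne (vec_inj (Subtype.ext_iff.mp h1))
  · have := clique_face {p, q} (by
      intro a ha b hb hab
      simp only [Finset.mem_insert, Finset.mem_singleton] at ha hb
      rcases ha with rfl | rfl <;> rcases hb with rfl | rfl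
      · exact absurd rfl hab
      · exact h
      · exact h.symm
      · exact absurd rfl hab)
    convert this using 1
    ext v
    simp [eq_comm]

theorem vtx_surj {v : E 4} (hv : v ∈ V) : ∃ p, vtx e p = v := by
  have h1 : (e ⟨v, hv⟩ : E 4) ∈ Set.range vec := by
    rw [← cell600_eq]; exact (e ⟨v, hv⟩).2
  obtain ⟨p, hp⟩ := h1
  refine ⟨p, ?_⟩
  unfold vtx
  have : (⟨vec p, by rw [cell600_eq]; exact ⟨p, rfl⟩⟩ : cell600) = e ⟨v, hv⟩ := Subtype.ext hp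
  rw [this, Equiv.symm_apply_apply]

theorem vtx_mem (p : Fin 120) : vtx e p ∈ V := by
  unfold vtx
  exact (e.symm _).2

include he in
theorem tet_cov (p : Fin 120) (i : Fin 12) (k : Fin 5) :
    ∃ l : L →ₗ[ℝ] ℝ, (∀ w, 0 ≤ l (vtx e w, 1) ∧ (l (vtx e w, 1) = 0 ↔ w ∈ tet p i k)) ∧
      ∀ w, l (nrm (vtx e w)) = (Real.sqrt (‖vtx e w‖ ^ 2 - 1))⁻¹ * l (vtx e w, 1) := by
  obtain ⟨h, c, hc⟩ := vtx_cov e he (tet p i k) (tet_clique p i k)
  refine ⟨functional h c, fun w => ?_, fun w => ?_⟩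
  · rw [functional_raw]
    obtain ⟨h1, h2⟩ := hc w
    refine ⟨by linarith, ?_⟩
    rw [← h2]
    constructor <;> intro h3 <;> linarith
  · rw [functional_nrm, functional_raw]

theorem cyc_not_mem {p : Fin 120} {i : Fin 12} {k m : Fin 5} (h1 : m ≠ k) (h2 : m ≠ k + 1) :
    nb p (cyc i m) ∉ tet p i k := by
  rw [mem_tet]
  rintro (h | h | h | h)
  · exact nb_ne _ _ h
  · exact cyc_ne _ _ (nb_inj _ _ _ h)
  · exact h1 (cyc_inj _ _ _ (nb_inj _ _ _ h))
  · exact h2 (cyc_inj _ _ _ (nb_inj _ _ _ h))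

include he hs in
theorem vtx_norm (p : Fin 120) : 1 < ‖vtx e p‖ := by
  refine one_lt_norm (a := vtx e (nb p 0)) (b := vtx e (nb p (cyc 0 0)))
    (c := vtx e (nb p (cyc 0 1))) (d := vtx e (nb p (cyc 0 2))) ?_
    (vtx_tangent e he hs (adj_nb _ _)) (vtx_tangent e he hs (adj_nb _ _))
    (vtx_tangent e he hs (adj_nb _ _)) (vtx_tangent e he hs (adj_nb _ _))
  apply li_raw
  · intro h
    exact nb_ne p 0 (vtx_inj e h).symm
  · obtain ⟨l, hl, _⟩ := tet_cov e he p 0 0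
    refine ⟨l, (hl _).2.mpr (mem_tet.mpr (by simp)), (hl _).2.mpr (mem_tet.mpr (by simp)),
      (hl _).2.mpr (mem_tet.mpr (by simp)), (hl _).2.mpr (mem_tet.mpr (by simp)), ?_⟩
    rw [Ne, (hl _).2]
    exact cyc_not_mem (by decide) (by decide)
  · obtain ⟨l, hl, _⟩ := tet_cov e he p 0 1
    refine ⟨l, (hl _).2.mpr (mem_tet.mpr (by simp)), (hl _).2.mpr (mem_tet.mpr (by simp)),
      (hl _).2.mpr (mem_tet.mpr (by simp)), (hl _).2.mpr (mem_tet.mpr (by simp)), ?_⟩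
    rw [Ne, (hl _).2]
    exact cyc_not_mem (by decide) (by decide)
  · obtain ⟨l, hl, _⟩ := tet_cov e he p 0 2
    refine ⟨l, (hl _).2.mpr (mem_tet.mpr (by simp)), (hl _).2.mpr (mem_tet.mpr (by simp)),
      (hl _).2.mpr (mem_tet.mpr (by simp)), ?_⟩
    rw [Ne, (hl _).2]
    exact cyc_not_mem (by decide) (by decide)

include he hs in
theorem real600 : Real600 (fun p => nrm (vtx e p)) where
  unit p := B_nrm_self (vtx_norm e he hs p)
  edge p i := (edge_nrm (vtx_norm e he hs _) (vtx_norm e he hs _)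
    (vtx_tangent e he hs (adj_nb p i))).1
  fut p i := (edge_nrm (vtx_norm e he hs _) (vtx_norm e he hs _)
    (vtx_tangent e he hs (adj_nb p i))).2
  cov p i k := by
    obtain ⟨l, hl, hn⟩ := tet_cov e he p i k
    refine ⟨l, fun w => ?_⟩
    have hpos : 0 < (Real.sqrt (‖vtx e w‖ ^ 2 - 1))⁻¹ :=
      inv_pos.mpr (sqrt_pos_of (vtx_norm e he hs w))
    simp only [hn]
    refine ⟨mul_nonneg hpos.le (hl w).1, ?_⟩
    rw [← mem_tet, ← (hl w).2, mul_eq_zero]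
    constructor
    · rintro (h | h)
      · exact absurd h hpos.ne'
      · exact h
    · exact fun h => Or.inr h

end

theorem nrm_smul {v : E 4} (h : 1 < ‖v‖) :
    ((v, 1) : L) = Real.sqrt (‖v‖ ^ 2 - 1) • nrm v := by
  unfold nrm
  rw [smul_smul, mul_inv_cancel₀ (sqrt_pos_of h).ne', one_smul]

/-- From an isometry between the vertex systems to a Möbius transformation. -/
theorem moebius_of_isometry {ι : Type*} [Inhabited ι] {v v' : ι → E 4} (T : L →ₗ[ℝ] L)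
    (hT : ∀ a b, B (T a) (T b) = B a b) (h1 : ∀ i, 1 < ‖v i‖) (h1' : ∀ i, 1 < ‖v' i‖)
    (hTv : ∀ i, T (nrm (v i)) = nrm (v' i))
    (i j : ι) (hf : Future (nrm (v i) + nrm (v j))) (hf' : Future (nrm (v' i) + nrm (v' j))) :
    ∃ μ ∈ moebiusGroup, ∀ i, μ '' ball (v i) = ball (v' i) := by
  have hpos : 0 < (T ((0, 1) : L)).2 := by
    apply pos_of_future T hT hf
    rw [map_add, hTv, hTv]
    exact hf'
  obtain ⟨μ, hμ, hg⟩ := good_of_isometry T hT hpos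
  refine ⟨μ, hμ, fun i => ?_⟩
  have hc := sqrt_pos_of (h1 i)
  have hc' := sqrt_pos_of (h1' i)
  apply hg.ball_image hT (mul_pos hc (inv_pos.mpr hc'))
  rw [nrm_smul (h1 i), map_smul, hTv]
  unfold nrm
  rw [smul_smul]

/-- The 600-cell is Möbius unique. -/
theorem moebiusUnique_cell600 : MoebiusUnique cell600 := by
  rintro P₁ P₂ ⟨e₁, he₁⟩ ⟨e₂, he₂⟩ hs₁ hs₂
  have r1 := real600 e₁ he₁ hs₁
  have r2 := real600 e₂ he₂ hs₂
  obtain ⟨T, hT, hTx⟩ := exists_isometry r1 r2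
  obtain ⟨μ, hμ, hb⟩ := moebius_of_isometry (v := vtx e₁) (v' := vtx e₂) T hT
    (vtx_norm e₁ he₁ hs₁) (vtx_norm e₂ he₂ hs₂) hTx 0 (nb 0 0) (r1.fut 0 0) (r2.fut 0 0)
  refine ⟨μ, hμ, ?_⟩
  unfold ballArrangement
  ext b
  constructor
  · rintro ⟨_, ⟨v, hv, rfl⟩, rfl⟩
    obtain ⟨p, rfl⟩ := vtx_surj e₁ hv
    exact ⟨vtx e₂ p, vtx_mem e₂ p, (hb p).symm⟩
  · rintro ⟨v, hv, rfl⟩
    obtain ⟨p, rfl⟩ := vtx_surj e₂ hv
    exact ⟨ball (vtx e₁ p), ⟨vtx e₁ p, vtx_mem e₁ p, rfl⟩, hb p⟩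

end Pool.Agent.H48.Mob
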