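import Pool.Agent.H48.Mob.Prop120
import Pool.Agent.H48.Mob.Final600

/-! # Möbius uniqueness of the 120-cell -/

open scoped RealInnerProductSpace

namespace Pool.Agent.H48.Mob

/-- The vertex of the 120-cell given by a facet of the 600-cell. -/
noncomputable def tv (F : Finset (Fin 120)) : E 4 := ∑ a ∈ F, vec a

theorem cell120_eq : cell120 = {v | ∃ F, IsTet F ∧ tv F = v} := by
  ext v
  constructor
  · rintro ⟨a, b, c, d, ha, hb, hc, hd, hab, hac, had, hbc, hbd, hcd, rfl⟩
    rw [cell600_eq] at ha hb hc hd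
    obtain ⟨a, rfl⟩ := ha
    obtain ⟨b, rfl⟩ := hb
    obtain ⟨c, rfl⟩ := hc
    obtain ⟨d, rfl⟩ := hd
    rw [← adj_iff] at hab hac had hbc hbd hcd
    have n1 := hab.ne
    have n2 := hac.ne
    have n3 := had.ne
    have n4 := hbc.ne
    have n5 := hbd.ne
    have n6 := hcd.ne
    refine ⟨{a, b, c, d}, ⟨?_, ?_⟩, ?_⟩
    · rw [Finset.card_insert_of_notMem, Finset.card_insert_of_notMem,
        Finset.card_insert_of_notMem, Finset.card_singleton]
      · simpa using n6
      · simp only [Finset.mem_insert, Finset.mem_singleton, not_or]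
        exact ⟨n4, n5⟩
      · simp only [Finset.mem_insert, Finset.mem_singleton, not_or]
        exact ⟨n1, n2, n3⟩
    · intro u hu w hw huw
      simp only [Finset.mem_insert, Finset.mem_singleton] at hu hw
      rcases hu with rfl | rfl | rfl | rfl <;> rcases hw with rfl | rfl | rfl | rfl <;>
        first
        | exact absurd rfl huw
        | assumption
        | (apply Adj.symm; assumption)
    · unfold tv
      rw [Finset.sum_insert, Finset.sum_insert, Finset.sum_insert, Finset.sum_singleton]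
      · abel
      · simpa using n6
      · simp only [Finset.mem_insert, Finset.mem_singleton, not_or]
        exact ⟨n4, n5⟩
      · simp only [Finset.mem_insert, Finset.mem_singleton, not_or]
        exact ⟨n1, n2, n3⟩
  · rintro ⟨F, hF, rfl⟩
    obtain ⟨p, i, k, rfl⟩ := tet_rep0 hF
    refine ⟨vec p, vec (nb p i), vec (nb p (cyc i k)), vec (nb p (cyc i (k + 1))), ?_, ?_, ?_, ?_,
      (adj_nb _ _).inner, (adj_nb _ _).inner, (adj_nb _ _).inner, (adj_link _ _ _).inner,
      (adj_link _ _ _).inner, (adj_link2 _ _ _).inner, ?_⟩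
    · rw [cell600_eq]; exact ⟨_, rfl⟩
    · rw [cell600_eq]; exact ⟨_, rfl⟩
    · rw [cell600_eq]; exact ⟨_, rfl⟩
    · rw [cell600_eq]; exact ⟨_, rfl⟩
    · unfold tv tet
      have n1 := (adj_nb p i).ne
      have n2 := (adj_nb p (cyc i k)).ne
      have n3 := (adj_nb p (cyc i (k + 1))).ne
      have n4 := (adj_link p i k).ne
      have n5 := (adj_link p i (k + 1)).ne
      have n6 := (adj_link2 p i k).ne
      rw [Finset.sum_insert, Finset.sum_insert, Finset.sum_insert, Finset.sum_singleton]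
      · abel
      · simpa using n6
      · simp only [Finset.mem_insert, Finset.mem_singleton, not_or]
        exact ⟨n4, n5⟩
      · simp only [Finset.mem_insert, Finset.mem_singleton, not_or]
        exact ⟨n1, n2, n3⟩

theorem tv_val {F : Finset (Fin 120)} (hF : IsTet F) (a : Fin 120) :
    (a ∈ F → ⟪vec a, tv F⟫ = 1 + 3 * (Real.goldenRatio / 2)) ∧
    (a ∉ F → ⟪vec a, tv F⟫ < 1 + 3 * (Real.goldenRatio / 2)) := by
  have h := clique_val F hF.2 a
  rw [hF.1] at h
  have e : ((4 : ℕ) : ℝ) - 1 = 3 := by norm_num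
  rw [e] at h
  rw [real_inner_comm]
  exact h

theorem tv_le {F : Finset (Fin 120)} (hF : IsTet F) (a : Fin 120) :
    ⟪vec a, tv F⟫ ≤ 1 + 3 * (Real.goldenRatio / 2) := by
  by_cases h : a ∈ F
  · exact ((tv_val hF a).1 h).le
  · exact ((tv_val hF a).2 h).le

theorem tv_inj {F G : Finset (Fin 120)} (hF : IsTet F) (hG : IsTet G) (h : tv F = tv G) :
    F = G := by
  have hsub : F ⊆ G := by
    intro a ha
    by_contra hn
    have h1 := (tv_val hF a).1 ha
    have h2 := (tv_val hG a).2 hn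
    rw [h] at h1
    linarith
  exact Finset.eq_of_subset_of_card_le hsub (by rw [hF.1, hG.1])

/-- The face of the 120-cell given by a set of cells. -/
theorem face120 (S : Finset (Fin 120)) :
    IsFace cell120 {v | ∃ F, IsTet F ∧ S ⊆ F ∧ tv F = v} := by
  refine ⟨?_, ∑ a ∈ S, vec a, ∑ _a ∈ S, (1 + 3 * (Real.goldenRatio / 2)), ?_⟩
  · rintro v ⟨F, hF, _, rfl⟩
    rw [cell120_eq]; exact ⟨F, hF, rfl⟩
  · intro v hv
    rw [cell120_eq] at hv
    obtain ⟨F, hF, rfl⟩ := hv
    rw [sum_inner]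
    refine ⟨Finset.sum_le_sum (fun a _ => tv_le hF a), ?_⟩
    rw [Finset.sum_eq_sum_iff_of_le (fun a _ => tv_le hF a)]
    constructor
    · intro h
      refine ⟨F, hF, fun a ha => ?_, rfl⟩
      by_contra hn
      have := (tv_val hF a).2 hn
      rw [h a ha] at this
      exact lt_irrefl _ this
    · rintro ⟨G, hG, hSG, hGF⟩ a ha
      rw [← tv_inj hG hF hGF]
      exact (tv_val hG a).1 (hSG ha)

section

variable {V : Set (E 4)} (e : V ≃ cell120)

open Classical in
/-- The vertex of the realization corresponding to `F`. -/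
noncomputable def vt (F : Finset (Fin 120)) : E 4 :=
  if h : IsTet F then (e.symm ⟨tv F, by rw [cell120_eq]; exact ⟨F, h, rfl⟩⟩ : V) else 0

theorem vt_eq {F : Finset (Fin 120)} (h : IsTet F) :
    vt e F = (e.symm ⟨tv F, by rw [cell120_eq]; exact ⟨F, h, rfl⟩⟩ : V) := by
  unfold vt
  rw [dif_pos h]

variable (he : ∀ F : Set V, IsFace V (Subtype.val '' F) ↔ IsFace cell120 (Subtype.val '' (e '' F)))
  (hs : EdgeScribed V)

include he in
theorem vt_cov (S : Finset (Fin 120)) :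
    ∃ (h : E 4) (c : ℝ), ∀ F, IsTet F → ⟪h, vt e F⟫ ≤ c ∧ (⟪h, vt e F⟫ = c ↔ S ⊆ F) := by
  obtain ⟨h, c, hc⟩ := transport_cov e he (face120 S)
  refine ⟨h, c, fun F hF => ?_⟩
  have := hc ⟨tv F, by rw [cell120_eq]; exact ⟨F, hF, rfl⟩⟩
  rw [vt_eq e hF]
  refine ⟨this.1, this.2.trans ⟨?_, fun h => ⟨F, hF, h, rfl⟩⟩⟩
  rintro ⟨G, hG, hSG, hGF⟩
  rwa [← tv_inj hG hF hGF]

theorem vt_inj {F G : Finset (Fin 120)} (hF : IsTet F) (hG : IsTet G) (h : vt e F = vt e G) :
    F = G := by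
  rw [vt_eq e hF, vt_eq e hG] at h
  have h1 := e.symm.injective (Subtype.ext h)
  exact tv_inj hF hG (Subtype.ext_iff.mp h1)

theorem tet_ne_succ (p : Fin 120) (i : Fin 12) (k : Fin 5) : tet p i k ≠ tet p i (k + 1) := by
  intro h
  have h1 := (misses_succ p i k).notMem
  rw [← h] at h1
  exact h1 (mem_tet2 _ _ _)

include he hs in
theorem vt_tangent (p : Fin 120) (i : Fin 12) (k : Fin 5) :
    TangentEdge (vt e (tet p i k)) (vt e (tet p i (k + 1))) := by
  rw [vt_eq e (tet_isTet _ _ _), vt_eq e (tet_isTet _ _ _)]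
  apply transport_edge e he hs
  · intro h1
    exact tet_ne_succ p i k (tv_inj (tet_isTet _ _ _) (tet_isTet _ _ _) (Subtype.ext_iff.mp h1))
  · have := face120 {p, nb p i, nb p (cyc i (k + 1))}
    convert this using 1
    ext v
    simp only [Set.mem_insert_iff, Set.mem_singleton_iff, Set.mem_ofPred_eq]
    constructor
    · rintro (rfl | rfl)
      · refine ⟨_, tet_isTet p i k, ?_, rfl⟩
        intro w hw
        simp only [Finset.mem_insert, Finset.mem_singleton] at hw
        rcases hw with rfl | rfl | rfl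
        · exact mem_tet0 _ _ _
        · exact mem_tet1 _ _ _
        · exact mem_tet3 _ _ _
      · refine ⟨_, tet_isTet p i (k + 1), ?_, rfl⟩
        intro w hw
        simp only [Finset.mem_insert, Finset.mem_singleton] at hw
        rcases hw with rfl | rfl | rfl
        · exact mem_tet0 _ _ _
        · exact mem_tet1 _ _ _
        · exact mem_tet2 _ _ _
    · rintro ⟨F, hF, hSF, rfl⟩
      rcases tet_of_triangle (p := p) (i := i) (k := k + 1) hF (hSF (by simp))
        (hSF (by simp)) (hSF (by simp)) with h | h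
      · right; rw [h]
      · left; rw [h, add_sub_cancel_right]

theorem vt_surj {v : E 4} (hv : v ∈ V) : ∃ F, IsTet F ∧ vt e F = v := by
  have h1 : (e ⟨v, hv⟩ : E 4) ∈ {v | ∃ F, IsTet F ∧ tv F = v} := by
    rw [← cell120_eq]; exact (e ⟨v, hv⟩).2
  obtain ⟨F, hF, hp⟩ := h1
  refine ⟨F, hF, ?_⟩
  rw [vt_eq e hF]
  have : (⟨tv F, by rw [cell120_eq]; exact ⟨F, hF, rfl⟩⟩ : cell120) = e ⟨v, hv⟩ :=
    Subtype.ext hp
  rw [this, Equiv.symm_apply_apply]

theorem vt_mem {F : Finset (Fin 120)} (hF : IsTet F) : vt e F ∈ V := by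
  rw [vt_eq e hF]
  exact (e.symm _).2

include he hs in
theorem vt_tangent' {F G : Finset (Fin 120)} (hF : IsTet F) {a : Fin 120} (hG : Misses F a G) :
    TangentEdge (vt e F) (vt e G) := by
  have h1 : ∃ b ∈ F, b ∉ ({a} : Finset (Fin 120)) := by
    by_contra hcon
    push Not at hcon
    have h3 := Finset.card_le_card (show F ⊆ _ from hcon)
    rw [hF.1, Finset.card_singleton] at h3
    omega
  obtain ⟨b, hb, hb'⟩ := h1
  simp only [Finset.mem_singleton] at hb'
  obtain ⟨c, i, k, rfl, rfl, rfl⟩ := two_rep hF hG.mem hb (Ne.symm hb')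
  rw [hG.eq_succ]
  exact vt_tangent e he hs _ _ _

include he in
/-- The supporting functional of a cell. -/
theorem vt_cell (a : Fin 120) : ∃ l : L →ₗ[ℝ] ℝ,
    (∀ F, IsTet F → 0 ≤ l (vt e F, 1) ∧ (l (vt e F, 1) = 0 ↔ a ∈ F)) ∧
    ∀ F, l (nrm (vt e F)) = (Real.sqrt (‖vt e F‖ ^ 2 - 1))⁻¹ * l (vt e F, 1) := by
  obtain ⟨h, c, hc⟩ := vt_cov e he {a}
  refine ⟨functional h c, fun F hF => ?_, fun F => ?_⟩
  · rw [functional_raw]
    obtain ⟨h1, h2⟩ := hc F hF
    refine ⟨by linarith, ?_⟩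
    rw [Finset.singleton_subset_iff] at h2
    rw [← h2]
    constructor <;> intro h3 <;> linarith
  · rw [functional_nrm, functional_raw]

include he hs in
theorem vt_norm {F : Finset (Fin 120)} (hF : IsTet F) : 1 < ‖vt e F‖ := by
  obtain ⟨p, i, k, rfl⟩ := tet_rep0 hF
  obtain ⟨i0, i1, i2, i3⟩ := dropI_facts p i k
  obtain ⟨p0, p1, p2, p3⟩ := dropP_facts p i k
  refine one_lt_norm (a := vt e (tet p i (k - 1))) (b := vt e (tet p i (k + 1)))
    (c := vt e (dropI p i k)) (d := vt e (dropP p i k)) ?_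
    (vt_tangent' e he hs hF (misses_pred _ _ _)) (vt_tangent' e he hs hF (misses_succ _ _ _))
    (vt_tangent' e he hs hF (misses_dropI _ _ _)) (vt_tangent' e he hs hF (misses_dropP _ _ _))
  apply li5
  intro s t u v w hz
  have key : ∀ a, ∃ l : L →ₗ[ℝ] ℝ, (∀ F, IsTet F → a ∈ F → l (vt e F, 1) = 0) ∧
      (∀ F, IsTet F → a ∉ F → l (vt e F, 1) ≠ 0) := by
    intro a
    obtain ⟨l, hl, _⟩ := vt_cell e he a
    exact ⟨l, fun F hF ha => (hl F hF).2.mpr ha, fun F hF ha h0 => ha ((hl F hF).2.mp h0)⟩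
  have hw : w = 0 := by
    obtain ⟨l, l0, l1⟩ := key p
    have := congrArg l hz
    simp only [map_add, map_smul, map_zero, smul_eq_mul,
      l0 _ (tet_isTet p i k) (mem_tet0 _ _ _), l0 _ (tet_isTet p i (k - 1)) (mem_tet0 _ _ _),
      l0 _ (tet_isTet p i (k + 1)) (mem_tet0 _ _ _), l0 _ (dropI_isTet p i k) i0,
      mul_zero, zero_add, mul_eq_zero] at this
    rcases this with h' | h'
    · exact h'
    · exact absurd h' (l1 _ (dropP_isTet p i k) p0)
  have hv : v = 0 := by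
    obtain ⟨l, l0, l1⟩ := key (nb p i)
    have := congrArg l hz
    simp only [map_add, map_smul, map_zero, smul_eq_mul,
      l0 _ (tet_isTet p i k) (mem_tet1 _ _ _), l0 _ (tet_isTet p i (k - 1)) (mem_tet1 _ _ _),
      l0 _ (tet_isTet p i (k + 1)) (mem_tet1 _ _ _), l0 _ (dropP_isTet p i k) p1,
      mul_zero, zero_add, add_zero, mul_eq_zero] at this
    rcases this with h' | h'
    · exact h'
    · exact absurd h' (l1 _ (dropI_isTet p i k) i1)
  have hu : u = 0 := by
    obtain ⟨l, l0, l1⟩ := key (nb p (cyc i k))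
    have := congrArg l hz
    simp only [map_add, map_smul, map_zero, smul_eq_mul,
      l0 _ (tet_isTet p i k) (mem_tet2 _ _ _), l0 _ (tet_isTet p i (k - 1)) (mem_tet4 _ _ _),
      l0 _ (dropI_isTet p i k) i2, l0 _ (dropP_isTet p i k) p2,
      mul_zero, zero_add, add_zero, mul_eq_zero] at this
    rcases this with h' | h'
    · exact h'
    · exact absurd h' (l1 _ (tet_isTet p i (k + 1)) (misses_succ p i k).notMem)
  have ht : t = 0 := by
    obtain ⟨l, l0, l1⟩ := key (nb p (cyc i (k + 1)))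
    have := congrArg l hz
    simp only [map_add, map_smul, map_zero, smul_eq_mul,
      l0 _ (tet_isTet p i k) (mem_tet3 _ _ _), l0 _ (tet_isTet p i (k + 1)) (mem_tet2 _ _ _),
      l0 _ (dropI_isTet p i k) i3, l0 _ (dropP_isTet p i k) p3,
      mul_zero, zero_add, add_zero, mul_eq_zero] at this
    rcases this with h' | h'
    · exact h'
    · exact absurd h' (l1 _ (tet_isTet p i (k - 1)) (misses_pred p i k).notMem)
  subst hw hv hu ht
  refine ⟨?_, rfl, rfl, rfl, rfl⟩
  have h1 := congrArg Prod.snd hz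
  simpa using h1

include he hs in
theorem real120 : Real120 (fun F => nrm (vt e F)) where
  unit F hF := B_nrm_self (vt_norm e he hs hF)
  edge p i k := (edge_nrm (vt_norm e he hs (tet_isTet _ _ _)) (vt_norm e he hs (tet_isTet _ _ _))
    (vt_tangent e he hs p i k)).1
  fut p i k := (edge_nrm (vt_norm e he hs (tet_isTet _ _ _)) (vt_norm e he hs (tet_isTet _ _ _))
    (vt_tangent e he hs p i k)).2
  cov a := by
    obtain ⟨l, hl, hn⟩ := vt_cell e he a
    refine ⟨l, fun F hF => ?_⟩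
    have hpos : 0 < (Real.sqrt (‖vt e F‖ ^ 2 - 1))⁻¹ :=
      inv_pos.mpr (sqrt_pos_of (vt_norm e he hs hF))
    simp only [hn]
    refine ⟨mul_nonneg hpos.le (hl F hF).1, ?_⟩
    rw [← (hl F hF).2, mul_eq_zero]
    constructor
    · rintro (h | h)
      · exact absurd h hpos.ne'
      · exact h
    · exact fun h => Or.inr h

end

/-- The 120-cell is Möbius unique. -/
theorem moebiusUnique_cell120 : MoebiusUnique cell120 := by
  rintro P₁ P₂ ⟨e₁, he₁⟩ ⟨e₂, he₂⟩ hs₁ hs₂
  have r1 := real120 e₁ he₁ hs₁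
  have r2 := real120 e₂ he₂ hs₂
  obtain ⟨T, hT, hTx⟩ := exists_isometry120 r1 r2
  let ι := {F : Finset (Fin 120) // IsTet F}
  have : Inhabited ι := ⟨⟨tet 0 0 0, tet_isTet _ _ _⟩⟩
  obtain ⟨μ, hμ, hb⟩ := moebius_of_isometry (ι := ι) (v := fun F => vt e₁ F.1)
    (v' := fun F => vt e₂ F.1) T hT
    (fun F => vt_norm e₁ he₁ hs₁ F.2) (fun F => vt_norm e₂ he₂ hs₂ F.2)
    (fun F => hTx F.1 F.2) ⟨tet 0 0 0, tet_isTet _ _ _⟩ ⟨tet 0 0 (0 + 1), tet_isTet _ _ _⟩
    (r1.fut 0 0 0) (r2.fut 0 0 0)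
  refine ⟨μ, hμ, ?_⟩
  unfold ballArrangement
  ext b
  constructor
  · rintro ⟨_, ⟨v, hv, rfl⟩, rfl⟩
    obtain ⟨F, hF, rfl⟩ := vt_surj e₁ hv
    exact ⟨vt e₂ F, vt_mem e₂ hF, (hb ⟨F, hF⟩).symm⟩
  · rintro ⟨v, hv, rfl⟩
    obtain ⟨F, hF, rfl⟩ := vt_surj e₂ hv
    exact ⟨ball (vt e₁ F), ⟨vt e₁ F, vt_mem e₁ hF, rfl⟩, hb ⟨F, hF⟩⟩

end Pool.Agent.H48.Mob
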