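import Mathlib

/-! # A sign lemma on the icosahedron -/

namespace Pool.Agent.H48.Mob

/-- Cyclic (counterclockwise) order of the neighbours of a vertex of the icosahedron. -/
def cyc : Fin 12 → Fin 5 → Fin 12 :=
  ![![4, 8, 1, 10, 5], ![7, 10, 0, 8, 6], ![3, 9, 4, 5, 11], ![2, 11, 7, 6, 9],
    ![0, 5, 2, 9, 8], ![10, 11, 2, 4, 0], ![1, 8, 9, 3, 7], ![1, 6, 3, 11, 10],
    ![9, 6, 1, 0, 4], ![4, 2, 3, 6, 8], ![0, 1, 7, 11, 5], ![2, 5, 10, 7, 3]]

/-- Position of `i` in the order around its `k`-th neighbour. -/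
def bk : Fin 12 → Fin 5 → Fin 5 :=
  ![![0, 3, 2, 0, 4], ![0, 1, 2, 2, 0], ![0, 1, 2, 2, 0], ![0, 4, 2, 3, 2],
    ![0, 3, 2, 0, 4], ![4, 1, 3, 1, 4], ![4, 1, 3, 3, 1], ![0, 4, 2, 3, 2],
    ![4, 1, 3, 1, 4], ![3, 1, 4, 2, 0], ![3, 1, 4, 2, 0], ![4, 1, 3, 3, 1]]

theorem cyc_bk : ∀ i k, cyc (cyc i k) (bk i k) = i := by decide
theorem bk_bk : ∀ i k, bk (cyc i k) (bk i k) = k := by decide
theorem cyc_next : ∀ i k, cyc (cyc i k) (bk i k - 1) = cyc i (k + 1) := by decide
theorem cyc_prev : ∀ i k, cyc (cyc i k) (bk i k + 1) = cyc i (k - 1) := by decide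

/-- The local sign condition at a vertex. -/
def LocOK (t : Fin 5 → SignType) : Prop :=
  (∀ k, t (k + 2) ≤ 0 → t (k + 3) ≤ 0 →
    t k ≤ 0 ∧ (t k = 0 → t (k + 2) = 0 ∧ t (k + 3) = 0)) ∧
  (∀ k, 0 ≤ t (k + 2) → 0 ≤ t (k + 3) →
    0 ≤ t k ∧ (t k = 0 → t (k + 2) = 0 ∧ t (k + 3) = 0)) ∧
  (∃ k, 0 ≤ t k) ∧ (∃ k, t k ≤ 0)

instance (t : Fin 5 → SignType) : Decidable (LocOK t) := by unfold LocOK; infer_instance

/-- `1` if there is a sign change, zero counting as positive. -/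
def chg (a b : SignType) : ℕ := if (0 ≤ a) = (0 ≤ b) then 0 else 1

theorem vec5 (t : Fin 5 → SignType) : t = ![t 0, t 1, t 2, t 3, t 4] := by
  ext i; fin_cases i <;> rfl

theorem loc_all {p : (Fin 5 → SignType) → Prop} (h : ∀ a b c d e, p ![a, b, c, d, e])
    (t : Fin 5 → SignType) : p t := by
  rw [vec5 t]; exact h _ _ _ _ _

theorem loc_zero (t : Fin 5 → SignType) (h : LocOK t) :
    ∀ k, t k = 0 → t (k + 1) = - t (k - 1) :=
  loc_all (p := fun t => LocOK t → ∀ k, t k = 0 → t (k + 1) = - t (k - 1))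
    (by decide +kernel) t h

theorem loc_zero2 (t : Fin 5 → SignType) (h : LocOK t) :
    ∀ k, t k = 0 → t (k + 1) = 0 → ∀ j, t j = 0 :=
  loc_all (p := fun t => LocOK t → ∀ k, t k = 0 → t (k + 1) = 0 → ∀ j, t j = 0)
    (by decide +kernel) t h

theorem loc_chg (t : Fin 5 → SignType) (h : LocOK t) :
    (∀ k, t k = 0) ∨ 4 ≤ chg (t 0) (t 1) + chg (t 1) (t 2) + chg (t 2) (t 3) +
      chg (t 3) (t 4) + chg (t 4) (t 0) :=
  loc_all (p := fun t => LocOK t → (∀ k, t k = 0) ∨ 4 ≤ chg (t 0) (t 1) + chg (t 1) (t 2) +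
      chg (t 2) (t 3) + chg (t 3) (t 4) + chg (t 4) (t 0))
    (by decide +kernel) t h

theorem chg_tri : ∀ a b c : SignType, chg a b + chg b c + chg c a ≤ 2 := by decide

/-- Rotation of the corners around their triangles. -/
def rho (c : Fin 12 × Fin 5) : Fin 12 × Fin 5 := (cyc c.1 c.2, bk c.1 c.2 - 1)

theorem rho_bij : Function.Bijective rho := by
  rw [Fintype.bijective_iff_injective_and_card]
  refine ⟨?_, rfl⟩
  rintro ⟨a, b⟩ ⟨c, d⟩
  revert a b c d
  decide +kernel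

theorem rho3 : ∀ i k, cyc (cyc i k) (bk i k - 1) = cyc i (k + 1) ∧
    bk (cyc i k) (bk i k - 1) - 1 = bk i (k + 1) := by decide +kernel

theorem conn3 : ∀ c j : Fin 12, ∃ k1 k2 k3 : Fin 5, cyc (cyc (cyc c k1) k2) k3 = j := by
  decide +kernel

/-- The sign lemma: a symmetric labelling of the edges of the icosahedron with the local
condition everywhere is zero. -/
theorem ico_sign (s : Fin 12 → Fin 5 → SignType) (hsym : ∀ i k, s (cyc i k) (bk i k) = s i k)
    (hloc : ∀ i, LocOK (s i)) : ∀ i k, s i k = 0 := by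
  -- an all-zero vertex has all-zero neighbours
  have prop : ∀ i, (∀ k, s i k = 0) → ∀ k, ∀ m, s (cyc i k) m = 0 := by
    intro i hi
    have hb : ∀ k, s (cyc i k) (bk i k) = 0 := fun k => by rw [hsym]; exact hi k
    -- c k : the link edge between the k-th and (k+1)-st neighbours
    have hc : ∀ k, s (cyc i (k + 1)) (bk i (k + 1) + 1) = s (cyc i k) (bk i k - 1) := by
      intro k
      rw [← hsym (cyc i k) (bk i k - 1), (rho3 i k).1]
      congr 1
      rw [← (rho3 i k).2, sub_add_cancel]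
    have halt : ∀ k, s (cyc i k) (bk i k + 1) = - s (cyc i k) (bk i k - 1) := fun k =>
      loc_zero _ (hloc _) _ (hb k)
    have hall : ∀ k, s (cyc i (k + 1)) (bk i (k + 1) - 1) = - s (cyc i k) (bk i k - 1) := by
      intro k
      have h1 := halt (k + 1)
      rw [hc k] at h1
      rw [h1, neg_neg]
    have h0 := hall 0
    have h1 := hall 1
    have h2 := hall 2
    have h3 := hall 3
    have h4 := hall 4
    have e0 : (0 : Fin 5) + 1 = 1 := rfl
    have e1 : (1 : Fin 5) + 1 = 2 := rfl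
    have e2 : (2 : Fin 5) + 1 = 3 := rfl
    have e3 : (3 : Fin 5) + 1 = 4 := rfl
    have e4 : (4 : Fin 5) + 1 = 0 := rfl
    rw [e0] at h0; rw [e1] at h1; rw [e2] at h2; rw [e3] at h3; rw [e4] at h4
    have hz : s (cyc i 0) (bk i 0 - 1) = 0 := by
      rw [h3, h2, h1, h0] at h4
      generalize s (cyc i 0) (bk i 0 - 1) = a at h4
      revert h4; revert a; decide
    have hzk : ∀ k, s (cyc i k) (bk i k - 1) = 0 := by
      intro k
      fin_cases k
      · exact hz
      · show s (cyc i 1) (bk i 1 - 1) = 0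
        rw [h0, hz]; rfl
      · show s (cyc i 2) (bk i 2 - 1) = 0
        rw [h1, h0, hz]; rfl
      · show s (cyc i 3) (bk i 3 - 1) = 0
        rw [h2, h1, h0, hz]; rfl
      · show s (cyc i 4) (bk i 4 - 1) = 0
        rw [h3, h2, h1, h0, hz]; rfl
    intro k m
    refine loc_zero2 _ (hloc _) (bk i k - 1) (hzk k) ?_ m
    rw [sub_add_cancel]; exact hb k
  by_cases hex : ∃ i, ∀ k, s i k = 0
  · obtain ⟨i, hi⟩ := hex
    intro j
    obtain ⟨k1, k2, k3, rfl⟩ := conn3 i j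
    exact prop _ (prop _ (prop _ hi k1) k2) k3
  · exfalso
    push Not at hex
    -- sum over the corners
    let χ : Fin 12 × Fin 5 → ℕ := fun c => chg (s c.1 c.2) (s c.1 (c.2 + 1))
    have hv : ∀ i, 4 ≤ ∑ k, χ (i, k) := by
      intro i
      rcases loc_chg _ (hloc i) with h | h
      · obtain ⟨k, hk⟩ := hex i
        exact absurd (h k) hk
      · rw [Fin.sum_univ_five]
        exact h
    have hsum : 48 ≤ ∑ c, χ c := by
      rw [Fintype.sum_prod_type]
      calc 48 = ∑ _i : Fin 12, 4 := by simp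
        _ ≤ _ := Finset.sum_le_sum (fun i _ => hv i)
    have hr1 : ∑ c, χ (rho c) = ∑ c, χ c := rho_bij.sum_comp χ
    have hr2 : ∑ c, χ (rho (rho c)) = ∑ c, χ c := by
      rw [← hr1]; exact rho_bij.sum_comp (fun c => χ (rho c))
    have htri : ∀ c, χ c + χ (rho c) + χ (rho (rho c)) ≤ 2 := by
      rintro ⟨i, k⟩
      have h1 : χ (i, k) = chg (s i k) (s i (k + 1)) := rfl
      have h2 : χ (rho (i, k)) = chg (s (cyc i k) (bk i k - 1)) (s i k) := by
        show chg (s (cyc i k) (bk i k - 1)) (s (cyc i k) (bk i k - 1 + 1)) = _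
        rw [sub_add_cancel, hsym]
      have h3 : χ (rho (rho (i, k))) = chg (s i (k + 1)) (s (cyc i k) (bk i k - 1)) := by
        show chg (s (cyc (cyc i k) (bk i k - 1)) (bk (cyc i k) (bk i k - 1) - 1))
          (s (cyc (cyc i k) (bk i k - 1)) (bk (cyc i k) (bk i k - 1) - 1 + 1)) = _
        rw [sub_add_cancel, (rho3 i k).2, hsym, (rho3 i k).1, hsym]
      rw [h1, h2, h3]
      have := chg_tri (s i k) (s i (k + 1)) (s (cyc i k) (bk i k - 1))
      omega
    have : ∑ c, (χ c + χ (rho c) + χ (rho (rho c))) ≤ ∑ _c : Fin 12 × Fin 5, 2 :=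
      Finset.sum_le_sum (fun c _ => htri c)
    rw [Finset.sum_add_distrib, Finset.sum_add_distrib, hr1, hr2] at this
    simp at this
    omega

end Pool.Agent.H48.Mob
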