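import Pool.Agent.H48.Mob.Ico

/-! # Real versions of the local conditions -/

namespace Pool.Agent.H48.Mob

/-- The local condition for real edge labels with threshold `f`. -/
def LocR (f : ℝ) (t : Fin 5 → ℝ) : Prop :=
  (∀ k, t (k + 2) ≤ f → t (k + 3) ≤ f →
    t k ≤ f ∧ (t k = f → t (k + 2) = f ∧ t (k + 3) = f)) ∧
  (∀ k, f ≤ t (k + 2) → f ≤ t (k + 3) →
    f ≤ t k ∧ (t k = f → t (k + 2) = f ∧ t (k + 3) = f)) ∧
  (∃ k, f ≤ t k) ∧ (∃ k, t k ≤ f)

theorem ico_real (f : ℝ) (D : Fin 12 → Fin 5 → ℝ)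
    (hsym : ∀ i k, D (cyc i k) (bk i k) = D i k)
    (hloc : ∀ i, LocR f (D i)) : ∀ i k, D i k = f := by
  have h := ico_sign (fun i k => SignType.sign (D i k - f))
    (by intro i k; simp only [hsym]) ?_
  · intro i k
    have := h i k
    rw [sign_eq_zero_iff] at this
    linarith
  · intro i
    obtain ⟨h1, h2, ⟨k3, h3⟩, ⟨k4, h4⟩⟩ := hloc i
    have hle : ∀ x : ℝ, SignType.sign (x - f) ≤ 0 ↔ x ≤ f := by
      intro x
      rw [← not_lt, ← not_lt, not_iff_not]
      have : (0 : SignType) < SignType.sign (x - f) ↔ SignType.sign (x - f) = 1 := by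
        generalize SignType.sign (x - f) = a
        revert a; decide
      rw [this, sign_eq_one_iff]
      constructor <;> intro h <;> linarith
    have hge : ∀ x : ℝ, 0 ≤ SignType.sign (x - f) ↔ f ≤ x := by
      intro x
      rw [← not_lt, ← not_lt, not_iff_not]
      have : SignType.sign (x - f) < (0 : SignType) ↔ SignType.sign (x - f) = -1 := by
        generalize SignType.sign (x - f) = a
        revert a; decide
      rw [this, sign_eq_neg_one_iff]
      constructor <;> intro h <;> linarith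
    have heq : ∀ x : ℝ, SignType.sign (x - f) = 0 ↔ x = f := by
      intro x
      rw [sign_eq_zero_iff]
      constructor <;> intro h <;> linarith
    refine ⟨?_, ?_, ⟨k3, (hge _).mpr h3⟩, ⟨k4, (hle _).mpr h4⟩⟩
    · intro k ha hb
      rw [hle] at ha hb
      obtain ⟨h5, h6⟩ := h1 k ha hb
      refine ⟨(hle _).mpr h5, fun h => ?_⟩
      rw [heq] at h
      exact ⟨(heq _).mpr (h6 h).1, (heq _).mpr (h6 h).2⟩
    · intro k ha hb
      rw [hge] at ha hb
      obtain ⟨h5, h6⟩ := h2 k ha hb
      refine ⟨(hge _).mpr h5, fun h => ?_⟩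
      rw [heq] at h
      exact ⟨(heq _).mpr (h6 h).1, (heq _).mpr (h6 h).2⟩

/-- Upper bound for the third diagonal. -/
theorem quad_le {A B S m : ℝ} (hA : 0 < A) (hB : 0 < B) (hS : 0 < S)
    (hS2 : S ^ 2 = A * (4 - A) * (B * (4 - B))) (hm : 2 ≤ m) (hm4 : m < 4)
    (hAm : A ≤ m) (hBm : B ≤ m) : 1 + (A * B - S) / 2 ≤ 1 + A * B * (m - 2) / m := by
  have hm0 : 0 < m := by linarith
  have h1 : A * B ≤ m ^ 2 := by nlinarith
  have h2 : (4 - m) ^ 2 ≤ (4 - A) * (4 - B) := by nlinarith
  have h3 : (A * B * (4 - m)) ^ 2 ≤ (m * S) ^ 2 := by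
    have e1 : (m * S) ^ 2 = m ^ 2 * (A * B) * ((4 - A) * (4 - B)) := by
      rw [mul_pow, hS2]; ring
    have e2 : (A * B * (4 - m)) ^ 2 = (A * B) * (A * B) * (4 - m) ^ 2 := by ring
    rw [e1, e2]
    have hAB : 0 < A * B := mul_pos hA hB
    calc A * B * (A * B) * (4 - m) ^ 2 ≤ m ^ 2 * (A * B) * (4 - m) ^ 2 := by
          apply mul_le_mul_of_nonneg_right _ (sq_nonneg _)
          apply mul_le_mul_of_nonneg_right h1 hAB.le
      _ ≤ _ := by
          apply mul_le_mul_of_nonneg_left h2
          positivity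
  have h4 : A * B * (4 - m) ≤ m * S := by
    exact (le_abs_self _).trans (abs_le_of_sq_le_sq h3 (by positivity))
  have h5 : A * B * (m - 2) / m = (A * B - A * B * (4 - m) / m) / 2 := by
    field_simp; ring
  rw [h5]
  have h6 : A * B * (4 - m) / m ≤ S := by
    rw [div_le_iff₀ hm0]; linarith
  linarith

theorem quad_ge {A B S m : ℝ} (hA4 : A < 4) (hB4 : B < 4)
    (hS2 : S ^ 2 = A * (4 - A) * (B * (4 - B))) (hm : 2 ≤ m)
    (hAm : m ≤ A) (hBm : m ≤ B) : 1 + A * B * (m - 2) / m ≤ 1 + (A * B - S) / 2 := by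
  have hm0 : 0 < m := by linarith
  have hm4 : m < 4 := by linarith
  have hA : 0 < A := by linarith
  have hB : 0 < B := by linarith
  have h1 : m ^ 2 ≤ A * B := by nlinarith
  have h2 : (4 - A) * (4 - B) ≤ (4 - m) ^ 2 := by nlinarith
  have h3 : (m * S) ^ 2 ≤ (A * B * (4 - m)) ^ 2 := by
    have e1 : (m * S) ^ 2 = m ^ 2 * (A * B) * ((4 - A) * (4 - B)) := by
      rw [mul_pow, hS2]; ring
    have e2 : (A * B * (4 - m)) ^ 2 = (A * B) * (A * B) * (4 - m) ^ 2 := by ring
    rw [e1, e2]
    have hAB : 0 < A * B := mul_pos hA hB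
    calc m ^ 2 * (A * B) * ((4 - A) * (4 - B)) ≤ m ^ 2 * (A * B) * (4 - m) ^ 2 := by
          apply mul_le_mul_of_nonneg_left h2
          positivity
      _ ≤ _ := by
          apply mul_le_mul_of_nonneg_right _ (sq_nonneg _)
          apply mul_le_mul_of_nonneg_right h1 hAB.le
  have h4 : m * S ≤ A * B * (4 - m) := by
    have : 0 ≤ A * B * (4 - m) := by
      have : 0 < 4 - m := by linarith
      positivity
    exact (le_abs_self _).trans (abs_le_of_sq_le_sq h3 this)
  have h5 : A * B * (m - 2) / m = (A * B - A * B * (4 - m) / m) / 2 := by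
    field_simp; ring
  rw [h5]
  have h6 : S ≤ A * B * (4 - m) / m := by
    rw [le_div_iff₀ hm0]; linarith
  linarith

/-- Equilateral strictly convex pentagons satisfy the local condition. -/
theorem locR_pent {f : ℝ} (hf2 : 2 < f) (hf : f ^ 2 = 3 * f - 1) (D lam : Fin 5 → ℝ)
    (h0 : ∀ k, 0 < D k) (h1 : ∀ k, D k < 4) (h2 : ∀ k, 0 < lam k)
    (h3 : ∀ k, lam k ^ 2 * (D (k + 2) * (4 - D (k + 2))) = D (k + 3) * (4 - D (k + 3)))
    (h4 : ∀ k, D k = 1 + (D (k + 2) * D (k + 3) - lam k * (D (k + 2) * (4 - D (k + 2)))) / 2)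
    (h5 : ∀ k, 2 < D (k + 2) * lam k + D (k + 3))
    (h6 : ∀ k, 2 * lam k < D (k + 2) * lam k + D (k + 3)) : LocR f D := by
  have hf4 : f < 4 := by nlinarith
  have hS : ∀ k, 0 < lam k * (D (k + 2) * (4 - D (k + 2))) := fun k =>
    mul_pos (h2 k) (mul_pos (h0 _) (by linarith [h1 (k + 2)]))
  have hS2 : ∀ k, (lam k * (D (k + 2) * (4 - D (k + 2)))) ^ 2 =
      D (k + 2) * (4 - D (k + 2)) * (D (k + 3) * (4 - D (k + 3))) := by
    intro k
    rw [← h3 k]; ring
  have up : ∀ m, 2 ≤ m → m < 4 → ∀ k, D (k + 2) ≤ m → D (k + 3) ≤ m →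
      D k ≤ 1 + D (k + 2) * D (k + 3) * (m - 2) / m := by
    intro m hm hm4 k ha hb
    have := quad_le (h0 (k + 2)) (h0 (k + 3)) (hS k) (hS2 k) hm hm4 ha hb
    rw [← h4 k] at this
    exact this
  have dn : ∀ m, 2 ≤ m → ∀ k, m ≤ D (k + 2) → m ≤ D (k + 3) →
      1 + D (k + 2) * D (k + 3) * (m - 2) / m ≤ D k := by
    intro m hm k ha hb
    have := quad_ge (h1 (k + 2)) (h1 (k + 3)) (hS2 k) hm ha hb
    rw [← h4 k] at this
    exact this
  refine ⟨?_, ?_, ?_, ?_⟩
  · intro k ha hb
    have h := up f hf2.le hf4 k ha hb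
    have hA := h0 (k + 2)
    have hB := h0 (k + 3)
    have hle : D (k + 2) * D (k + 3) ≤ f ^ 2 := by nlinarith
    have e : (1 : ℝ) + f ^ 2 * (f - 2) / f = f := by
      field_simp; linarith
    have h' : D (k + 2) * D (k + 3) * (f - 2) / f ≤ f ^ 2 * (f - 2) / f := by
      apply div_le_div_of_nonneg_right _ (by linarith)
      apply mul_le_mul_of_nonneg_right hle (by linarith)
    refine ⟨by linarith, ?_⟩
    intro heq
    have h7 : D (k + 2) * D (k + 3) * (f - 2) / f = f ^ 2 * (f - 2) / f := by linarith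
    have h8 : D (k + 2) * D (k + 3) = f ^ 2 := by
      have hfp : f ≠ 0 := by linarith
      have hf2' : f - 2 ≠ 0 := by linarith
      field_simp at h7
      exact h7
    constructor
    · nlinarith
    · nlinarith
  · intro k ha hb
    have h := dn f hf2.le k ha hb
    have hle : f ^ 2 ≤ D (k + 2) * D (k + 3) := by nlinarith
    have e : (1 : ℝ) + f ^ 2 * (f - 2) / f = f := by
      field_simp; linarith
    have h' : f ^ 2 * (f - 2) / f ≤ D (k + 2) * D (k + 3) * (f - 2) / f := by
      apply div_le_div_of_nonneg_right _ (by linarith)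
      apply mul_le_mul_of_nonneg_right hle (by linarith)
    refine ⟨by linarith, ?_⟩
    intro heq
    have h7 : D (k + 2) * D (k + 3) * (f - 2) / f = f ^ 2 * (f - 2) / f := by linarith
    have h8 : D (k + 2) * D (k + 3) = f ^ 2 := by
      have hfp : f ≠ 0 := by linarith
      have hf2' : f - 2 ≠ 0 := by linarith
      field_simp at h7
      exact h7
    constructor
    · nlinarith
    · nlinarith
  · by_contra hcon
    push Not at hcon
    obtain ⟨k, hk⟩ := Finite.exists_max D
    rcases le_or_gt 2 (D k) with hM | hM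
    · have h := up (D k) hM (by linarith [hcon k]) k (hk _) (hk _)
      have hA := h0 (k + 2)
      have hB := h0 (k + 3)
      have hle : D (k + 2) * D (k + 3) ≤ D k ^ 2 := by nlinarith [hk (k + 2), hk (k + 3)]
      have h' : D (k + 2) * D (k + 3) * (D k - 2) / D k ≤ D k ^ 2 * (D k - 2) / D k := by
        apply div_le_div_of_nonneg_right _ (by linarith)
        apply mul_le_mul_of_nonneg_right hle (by linarith)
      have e : D k ^ 2 * (D k - 2) / D k = D k * (D k - 2) := by
        have : D k ≠ 0 := by linarith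
        field_simp
      nlinarith [hcon k]
    · have hle1 : ∀ j, D j ≤ 1 := by
        intro j
        have h := up 2 le_rfl (by norm_num) j (by linarith [hk (j + 2)]) (by linarith [hk (j + 3)])
        simpa using h
      have hA := hle1 (k + 2)
      have hB := hle1 (k + 3)
      have h5' := h5 k
      have h6' := h6 k
      have hl := h2 k
      rcases le_or_gt (lam k) 1 with hl1 | hl1
      · nlinarith [h0 (k + 2), h0 (k + 3)]
      · nlinarith [h0 (k + 2), h0 (k + 3)]
  · by_contra hcon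
    push Not at hcon
    obtain ⟨k, hk⟩ := Finite.exists_min D
    have hM := hcon k
    have h := dn (D k) (by linarith) k (hk _) (hk _)
    have hle : D k ^ 2 ≤ D (k + 2) * D (k + 3) := by
      nlinarith [hk (k + 2), hk (k + 3), h0 k]
    have h' : D k ^ 2 * (D k - 2) / D k ≤ D (k + 2) * D (k + 3) * (D k - 2) / D k := by
      apply div_le_div_of_nonneg_right _ (by linarith)
      apply mul_le_mul_of_nonneg_right hle (by linarith)
    have e : D k ^ 2 * (D k - 2) / D k = D k * (D k - 2) := by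
      have : D k ≠ 0 := by linarith
      field_simp
    nlinarith [h1 k]

/-- Pentagons satisfying the Ptolemy relations satisfy the local condition. -/
theorem locR_ptol {f : ℝ} (hf1 : 1 < f) (hf : f ^ 2 = f + 1) (D : Fin 5 → ℝ)
    (h0 : ∀ k, 0 < D k) (h1 : ∀ k, D (k + 2) * D (k + 3) = 1 + D k) : LocR f D := by
  refine ⟨?_, ?_, ?_, ?_⟩
  · intro k ha hb
    have := h1 k
    have hA := h0 (k + 2)
    have hB := h0 (k + 3)
    refine ⟨by nlinarith, fun h => ?_⟩
    rw [h] at this
    constructor <;> nlinarith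
  · intro k ha hb
    have := h1 k
    refine ⟨by nlinarith, fun h => ?_⟩
    rw [h] at this
    constructor <;> nlinarith
  · by_contra hcon
    push Not at hcon
    obtain ⟨k, hk⟩ := Finite.exists_max D
    have := h1 k
    nlinarith [hk (k + 2), hk (k + 3), h0 (k + 2), h0 (k + 3), h0 k, hcon k]
  · by_contra hcon
    push Not at hcon
    obtain ⟨k, hk⟩ := Finite.exists_min D
    have := h1 k
    nlinarith [hk (k + 2), hk (k + 3), h0 (k + 2), h0 (k + 3), h0 k, hcon k]

end Pool.Agent.H48.Mob
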