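import Pool.Agent.H48.Mob.Defs

open scoped RealInnerProductSpace

namespace Pool.Agent.H48.Mob

/-- Lorentz space. -/
abbrev L := E 4 × ℝ

/-- The Lorentz form. -/
noncomputable def B (a b : L) : ℝ := ⟪a.1, b.1⟫ - a.2 * b.2

theorem B_comm (a b : L) : B a b = B b a := by
  unfold B; rw [real_inner_comm, mul_comm a.2]

theorem B_add_left (a b c : L) : B (a + b) c = B a c + B b c := by
  unfold B; rw [Prod.fst_add, Prod.snd_add, inner_add_left]; ring

theorem B_add_right (a b c : L) : B a (b + c) = B a b + B a c := by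
  unfold B; rw [Prod.fst_add, Prod.snd_add, inner_add_right]; ring

theorem B_sub_left (a b c : L) : B (a - b) c = B a c - B b c := by
  unfold B; rw [Prod.fst_sub, Prod.snd_sub, inner_sub_left]; ring

theorem B_sub_right (a b c : L) : B a (b - c) = B a b - B a c := by
  unfold B; rw [Prod.fst_sub, Prod.snd_sub, inner_sub_right]; ring

theorem B_smul_left (r : ℝ) (a b : L) : B (r • a) b = r * B a b := by
  unfold B; rw [Prod.smul_fst, Prod.smul_snd, real_inner_smul_left, smul_eq_mul]; ring

theorem B_smul_right (r : ℝ) (a b : L) : B a (r • b) = r * B a b := by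
  unfold B; rw [Prod.smul_fst, Prod.smul_snd, real_inner_smul_right, smul_eq_mul]; ring

theorem B_neg_left (a b : L) : B (-a) b = - B a b := by
  unfold B; rw [Prod.fst_neg, Prod.snd_neg, inner_neg_left]; ring

theorem B_neg_right (a b : L) : B a (-b) = - B a b := by
  unfold B; rw [Prod.fst_neg, Prod.snd_neg, inner_neg_right]; ring

theorem B_zero_left (b : L) : B 0 b = 0 := by
  unfold B; simp

theorem B_zero_right (b : L) : B b 0 = 0 := by
  unfold B; simp

/-- The form is nondegenerate. -/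
theorem B_nondeg {z : L} (h : ∀ y, B z y = 0) : z = 0 := by
  have h1 := h (z.1, -z.2)
  unfold B at h1
  simp only [real_inner_self_eq_norm_sq] at h1
  have h2 : ‖z.1‖ ^ 2 + z.2 ^ 2 = 0 := by nlinarith
  have h3 : ‖z.1‖ = 0 := by
    have := sq_nonneg z.2
    have := sq_nonneg ‖z.1‖
    have h4 : ‖z.1‖ ^ 2 = 0 := by linarith
    exact pow_eq_zero_iff (two_ne_zero) |>.mp h4
  have h5 : z.2 = 0 := by
    rw [h3] at h2
    have : z.2 ^ 2 = 0 := by linarith
    exact pow_eq_zero_iff (two_ne_zero) |>.mp this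
  exact Prod.ext (norm_eq_zero.mp h3) h5

theorem finrank_L : Module.finrank ℝ L = 5 := by
  rw [Module.finrank_prod, finrank_euclideanSpace_fin, Module.finrank_self]

/-- A positive multiple of `(t, 1)` with `t` on the unit sphere. -/
def Future (n : L) : Prop := ∃ r : ℝ, 0 < r ∧ ∃ t : E 4, ‖t‖ = 1 ∧ n = r • ((t, 1) : L)

theorem B_unit {t : E 4} (ht : ‖t‖ = 1) (y : L) (h : B ((t, 1) : L) y = 0) :
    B y y = ‖y.1 - y.2 • t‖ ^ 2 := by
  unfold B at h ⊢
  rw [@norm_sub_sq_real, real_inner_smul_right, norm_smul, ht, real_inner_self_eq_norm_sq]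
  simp only [one_mul] at h
  rw [real_inner_comm] at h
  rw [show ⟪y.1, t⟫ = y.2 by linarith]
  rw [mul_one, Real.norm_eq_abs, sq_abs]
  ring

theorem B_perp_nonneg {n y : L} (hn : Future n) (h : B n y = 0) : 0 ≤ B y y := by
  obtain ⟨r, hr, t, ht, rfl⟩ := hn
  rw [B_smul_left] at h
  have h' : B ((t, 1) : L) y = 0 := by
    rcases mul_eq_zero.mp h with h | h
    · exact absurd h hr.ne'
    · exact h
  rw [B_unit ht y h']
  positivity

theorem B_perp_zero {n y : L} (hn : Future n) (h : B n y = 0) (h0 : B y y = 0) :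
    ∃ s : ℝ, y = s • n := by
  obtain ⟨r, hr, t, ht, rfl⟩ := hn
  rw [B_smul_left] at h
  have h' : B ((t, 1) : L) y = 0 := by
    rcases mul_eq_zero.mp h with h | h
    · exact absurd h hr.ne'
    · exact h
  rw [B_unit ht y h'] at h0
  have h1 : y.1 - y.2 • t = 0 := by
    have := pow_eq_zero_iff (two_ne_zero) |>.mp h0
    exact norm_eq_zero.mp this
  refine ⟨y.2 / r, ?_⟩
  rw [smul_smul, div_mul_cancel₀ _ hr.ne']
  refine Prod.ext ?_ ?_
  · simp only [Prod.smul_fst]
    exact sub_eq_zero.mp h1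
  · simp

theorem future_self {n : L} (hn : Future n) : B n n = 0 := by
  obtain ⟨r, hr, t, ht, rfl⟩ := hn
  rw [B_smul_left, B_smul_right]
  unfold B
  simp [real_inner_self_eq_norm_sq, ht]

theorem future_le {n m : L} (hn : Future n) (hm : Future m) : B n m ≤ 0 := by
  obtain ⟨r, hr, t, ht, rfl⟩ := hn
  obtain ⟨r', hr', t', ht', rfl⟩ := hm
  rw [B_smul_left, B_smul_right]
  have h1 : B ((t, 1) : L) ((t', 1) : L) ≤ 0 := by
    unfold B
    have := real_inner_le_norm t t'
    rw [ht, ht'] at this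
    simp only [mul_one]
    linarith
  have : 0 < r * r' := mul_pos hr hr'
  nlinarith

theorem future_zero {n m : L} (hn : Future n) (hm : Future m) (h : B n m = 0) :
    ∃ s : ℝ, m = s • n :=
  B_perp_zero hn h (future_self hm)

theorem future_snd_pos {n : L} (hn : Future n) : 0 < n.2 := by
  obtain ⟨r, hr, t, ht, rfl⟩ := hn
  simpa using hr

theorem future_smul {n : L} (hn : Future n) {c : ℝ} (hc : 0 < c) : Future (c • n) := by
  obtain ⟨r, hr, t, ht, rfl⟩ := hn
  exact ⟨c * r, mul_pos hc hr, t, ht, by rw [smul_smul]⟩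

end Pool.Agent.H48.Mob
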