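import Pool.Agent.H48.Mob.Lor

open scoped RealInnerProductSpace

namespace Pool.Agent.H48.Mob

/-- Light-like lift of a point of `E 3 ∪ {∞}`. -/
noncomputable def lift (s : OnePoint (E 3)) : L :=
  match s with
  | none => (!₂[0, 0, 0, 1], 1)
  | some s => (!₂[2 * s 0, 2 * s 1, 2 * s 2, ‖s‖ ^ 2 - 1], ‖s‖ ^ 2 + 1)

theorem lift_infty : lift (OnePoint.infty) = ((!₂[0, 0, 0, 1] : E 4), (1 : ℝ)) := rfl

theorem lift_coe (s : E 3) : lift (s : OnePoint (E 3)) =
    ((!₂[2 * s 0, 2 * s 1, 2 * s 2, ‖s‖ ^ 2 - 1] : E 4), ‖s‖ ^ 2 + 1) := rfl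

theorem norm_sq3 (s : E 3) : ‖s‖ ^ 2 = s 0 ^ 2 + s 1 ^ 2 + s 2 ^ 2 := by
  rw [EuclideanSpace.real_norm_sq_eq, Fin.sum_univ_three]

theorem norm_sq4 (s : E 4) : ‖s‖ ^ 2 = s 0 ^ 2 + s 1 ^ 2 + s 2 ^ 2 + s 3 ^ 2 := by
  rw [EuclideanSpace.real_norm_sq_eq, Fin.sum_univ_four]

theorem inner3 (s t : E 3) : ⟪s, t⟫ = s 0 * t 0 + s 1 * t 1 + s 2 * t 2 := by
  rw [PiLp.inner_apply, Fin.sum_univ_three]
  simp [mul_comm]

theorem inner4 (s t : E 4) : ⟪s, t⟫ = s 0 * t 0 + s 1 * t 1 + s 2 * t 2 + s 3 * t 3 := by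
  rw [PiLp.inner_apply, Fin.sum_univ_four]
  simp [mul_comm]

theorem E4_ext {s t : E 4} (h0 : s 0 = t 0) (h1 : s 1 = t 1) (h2 : s 2 = t 2)
    (h3 : s 3 = t 3) : s = t := by
  ext i; fin_cases i <;> assumption

theorem E3_ext {s t : E 3} (h0 : s 0 = t 0) (h1 : s 1 = t 1) (h2 : s 2 = t 2) : s = t := by
  ext i; fin_cases i <;> assumption

theorem L_ext {a b : L} (h0 : a.1 0 = b.1 0) (h1 : a.1 1 = b.1 1) (h2 : a.1 2 = b.1 2)
    (h3 : a.1 3 = b.1 3) (h4 : a.2 = b.2) : a = b :=
  Prod.ext (E4_ext h0 h1 h2 h3) h4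

theorem lift_inj {s s' : OnePoint (E 3)} {r : ℝ} (_hr : 0 < r) (h : lift s = r • lift s') :
    s = s' := by
  induction s using OnePoint.rec with
  | infty =>
    induction s' using OnePoint.rec with
    | infty => rfl
    | coe s' =>
      exfalso
      rw [lift_infty, lift_coe] at h
      have h3 := congrArg (fun z : L => z.1 3) h
      have h4 := congrArg (fun z : L => z.2) h
      simp at h3 h4
      nlinarith
  | coe s =>
    induction s' using OnePoint.rec with
    | infty =>
      exfalso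
      rw [lift_infty, lift_coe] at h
      have h3 := congrArg (fun z : L => z.1 3) h
      have h4 := congrArg (fun z : L => z.2) h
      simp at h3 h4
      nlinarith
    | coe s' =>
      rw [lift_coe, lift_coe] at h
      have h0 := congrArg (fun z : L => z.1 0) h
      have h1 := congrArg (fun z : L => z.1 1) h
      have h2 := congrArg (fun z : L => z.1 2) h
      have h3 := congrArg (fun z : L => z.1 3) h
      have h4 := congrArg (fun z : L => z.2) h
      simp at h0 h1 h2 h3 h4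
      have hr1 : r = 1 := by nlinarith
      rw [hr1] at h0 h1 h2
      congr 1
      apply E3_ext <;> linarith

theorem lift_stereo {x : E 4} (hx : ‖x‖ = 1) :
    ∃ r : ℝ, 0 < r ∧ lift (stereo x) = r • ((x, 1) : L) := by
  have hn := norm_sq4 x
  rw [hx] at hn
  unfold stereo
  split_ifs with h
  · refine ⟨1, one_pos, ?_⟩
    rw [lift_infty, one_smul]
    have h0 : x 0 = 0 := by
      have : x 0 ^ 2 = 0 := by rw [h] at hn; nlinarith [sq_nonneg (x 0), sq_nonneg (x 1), sq_nonneg (x 2)]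
      exact pow_eq_zero_iff (two_ne_zero) |>.mp this
    have h1 : x 1 = 0 := by
      have : x 1 ^ 2 = 0 := by rw [h] at hn; nlinarith [sq_nonneg (x 0), sq_nonneg (x 1), sq_nonneg (x 2)]
      exact pow_eq_zero_iff (two_ne_zero) |>.mp this
    have h2 : x 2 = 0 := by
      have : x 2 ^ 2 = 0 := by rw [h] at hn; nlinarith [sq_nonneg (x 0), sq_nonneg (x 1), sq_nonneg (x 2)]
      exact pow_eq_zero_iff (two_ne_zero) |>.mp this
    apply L_ext <;> simp [h0, h1, h2, h]
  · have h3 : x 3 < 1 := by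
      rcases lt_or_ge (x 3) 1 with h' | h'
      · exact h'
      · exfalso
        apply h
        nlinarith [sq_nonneg (x 0), sq_nonneg (x 1), sq_nonneg (x 2)]
    have h4 : 0 < 1 - x 3 := by linarith
    refine ⟨2 / (1 - x 3), by positivity, ?_⟩
    rw [lift_coe, norm_sq3]
    have key : (x 0 / (1 - x 3)) ^ 2 + (x 1 / (1 - x 3)) ^ 2 + (x 2 / (1 - x 3)) ^ 2
        = (1 + x 3) / (1 - x 3) := by
      field_simp
      linarith
    apply L_ext
    · simp; ring
    · simp; ring
    · simp; ring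
    · simp [key]
      field_simp
      ring
    · simp [key]
      field_simp
      ring

theorem exists_sphere (s : OnePoint (E 3)) : ∃ x : E 4, ‖x‖ = 1 ∧ stereo x = s := by
  induction s using OnePoint.rec with
  | infty =>
    refine ⟨!₂[0, 0, 0, 1], ?_, ?_⟩
    · have := norm_sq4 !₂[0, 0, 0, (1 : ℝ)]
      simp at this
      rcases this with h | h
      · exact h
      · have := norm_nonneg (!₂[0, 0, 0, (1 : ℝ)] : E 4)
        linarith
    · unfold stereo
      simp
  | coe s =>
    have hn := norm_sq3 s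
    have hpos : 0 < ‖s‖ ^ 2 + 1 := by positivity
    refine ⟨!₂[2 * s 0 / (‖s‖ ^ 2 + 1), 2 * s 1 / (‖s‖ ^ 2 + 1), 2 * s 2 / (‖s‖ ^ 2 + 1),
      (‖s‖ ^ 2 - 1) / (‖s‖ ^ 2 + 1)], ?_, ?_⟩
    · have h := norm_sq4 !₂[2 * s 0 / (‖s‖ ^ 2 + 1), 2 * s 1 / (‖s‖ ^ 2 + 1),
        2 * s 2 / (‖s‖ ^ 2 + 1), (‖s‖ ^ 2 - 1) / (‖s‖ ^ 2 + 1)]
      have h2 : (2 * s 0 / (‖s‖ ^ 2 + 1)) ^ 2 + (2 * s 1 / (‖s‖ ^ 2 + 1)) ^ 2 +
        (2 * s 2 / (‖s‖ ^ 2 + 1)) ^ 2 + ((‖s‖ ^ 2 - 1) / (‖s‖ ^ 2 + 1)) ^ 2 = 1 := by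
        field_simp
        rw [hn]
        ring
      have h3 : ‖(!₂[2 * s 0 / (‖s‖ ^ 2 + 1), 2 * s 1 / (‖s‖ ^ 2 + 1),
        2 * s 2 / (‖s‖ ^ 2 + 1), (‖s‖ ^ 2 - 1) / (‖s‖ ^ 2 + 1)] : E 4)‖ ^ 2 = 1 := by
        rw [h]
        simpa using h2
      have := norm_nonneg (!₂[2 * s 0 / (‖s‖ ^ 2 + 1), 2 * s 1 / (‖s‖ ^ 2 + 1),
        2 * s 2 / (‖s‖ ^ 2 + 1), (‖s‖ ^ 2 - 1) / (‖s‖ ^ 2 + 1)] : E 4)
      exact (pow_eq_one_iff_of_nonneg this (two_ne_zero)).mp h3
    · unfold stereo
      have h1 : (1 : ℝ) - (‖s‖ ^ 2 - 1) / (‖s‖ ^ 2 + 1) = 2 / (‖s‖ ^ 2 + 1) := by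
        field_simp
        ring
      have h2 : (‖s‖ ^ 2 - 1) / (‖s‖ ^ 2 + 1) ≠ 1 := by
        intro h
        rw [h] at h1
        have : 0 < 2 / (‖s‖ ^ 2 + 1) := by positivity
        linarith
      simp only [PiLp.toLp_apply]
      rw [if_neg (by simpa using h2)]
      congr 1
      apply E3_ext
      · simp [h1]
        field_simp
      · simp [h1]
        field_simp
      · simp [h1]
        field_simp

theorem ball_eq (v : E 4) : ball v = {s | 0 ≤ B (lift s) ((v, 1) : L)} := by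
  ext s
  unfold ball
  simp only [Set.mem_image, Set.mem_ofPred_eq]
  have hB : ∀ x : E 4, B ((x, 1) : L) ((v, 1) : L) = ⟪x, v⟫ - 1 := by
    intro x; unfold B; simp
  constructor
  · rintro ⟨x, ⟨hx, hxv⟩, rfl⟩
    obtain ⟨r, hr, h⟩ := lift_stereo hx
    rw [h, B_smul_left, hB]
    exact mul_nonneg hr.le (by linarith)
  · intro h
    obtain ⟨x, hx, rfl⟩ := exists_sphere s
    refine ⟨x, ⟨hx, ?_⟩, rfl⟩
    obtain ⟨r, hr, h'⟩ := lift_stereo hx
    rw [h', B_smul_left, hB] at h
    by_contra hlt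
    push Not at hlt
    have : r * (⟪x, v⟫ - 1) < 0 := mul_neg_of_pos_of_neg hr (by linarith)
    linarith

/-- `μ` is the action of `T` on the light cone. -/
def Good (T : L →ₗ[ℝ] L) (μ : Equiv.Perm (OnePoint (E 3))) : Prop :=
  ∀ s, ∃ r : ℝ, 0 < r ∧ T (lift s) = r • lift (μ s)

theorem Good.comp {T T' : L →ₗ[ℝ] L} {μ μ' : Equiv.Perm (OnePoint (E 3))}
    (h : Good T μ) (h' : Good T' μ') : Good (T ∘ₗ T') (μ * μ') := by
  intro s
  obtain ⟨r', hr', e'⟩ := h' s
  obtain ⟨r, hr, e⟩ := h (μ' s)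
  refine ⟨r' * r, mul_pos hr' hr, ?_⟩
  rw [LinearMap.comp_apply, e', map_smul, e, smul_smul]
  rfl

theorem Good.id : Good LinearMap.id 1 := by
  intro s
  exact ⟨1, one_pos, by simp⟩

theorem Good.ball_image {T : L →ₗ[ℝ] L} {μ : Equiv.Perm (OnePoint (E 3))} (h : Good T μ)
    (hT : ∀ a b, B (T a) (T b) = B a b) {v v' : E 4} {c : ℝ} (hc : 0 < c)
    (hv : T ((v, 1) : L) = c • ((v', 1) : L)) : μ '' ball v = ball v' := by
  have key : ∀ s, 0 ≤ B (lift s) ((v, 1) : L) ↔ 0 ≤ B (lift (μ s)) ((v', 1) : L) := by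
    intro s
    obtain ⟨r, hr, e⟩ := h s
    rw [← hT, e, hv, B_smul_left, B_smul_right]
    constructor
    · intro h1
      by_contra hlt
      push Not at hlt
      have := mul_pos hr hc
      nlinarith
    · intro h1
      have := mul_pos hr hc
      positivity
  rw [ball_eq, ball_eq]
  ext s
  simp only [Set.mem_image, Set.mem_ofPred_eq]
  constructor
  · rintro ⟨s', hs', rfl⟩
    exact (key s').mp hs'
  · intro hs
    refine ⟨μ.symm s, ?_, by simp⟩
    rw [key]
    simpa using hs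

/-- Lorentz reflection. -/
noncomputable def refl (e : L) : L →ₗ[ℝ] L where
  toFun z := z - (2 * B z e) • e
  map_add' a b := by
    rw [B_add_left, mul_add, add_smul]; abel
  map_smul' r a := by
    rw [B_smul_left, RingHom.id_apply, smul_sub, smul_smul]; congr 2; ring

theorem refl_apply (e z : L) : refl e z = z - (2 * B z e) • e := rfl

theorem refl_B {e : L} (he : B e e = 1) (a b : L) : B (refl e a) (refl e b) = B a b := by
  rw [refl_apply, refl_apply]
  simp only [B_sub_left, B_sub_right, B_smul_left, B_smul_right, he, B_comm e b]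
  ring

theorem refl_refl {e : L} (he : B e e = 1) (z : L) : refl e (refl e z) = z := by
  rw [refl_apply, refl_apply]
  rw [B_sub_left, B_smul_left, he, sub_sub, ← add_smul]
  have : 2 * B z e + 2 * (B z e - 2 * B z e * 1) = 0 := by ring
  rw [this, zero_smul, sub_zero]

/-- The inversion as a function on `E 3 ∪ {∞}`. -/
noncomputable def invFun (c : E 3) (R : ℝ) (s : OnePoint (E 3)) : OnePoint (E 3) :=
  open Classical in
  match s with
  | none => (c : OnePoint (E 3))
  | some x => if x = c then OnePoint.infty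
      else ((c + (R / ‖x - c‖) ^ 2 • (x - c) : E 3) : OnePoint (E 3))

theorem invFun_infty (c : E 3) (R : ℝ) : invFun c R OnePoint.infty = (c : OnePoint (E 3)) := rfl

theorem invFun_self (c : E 3) (R : ℝ) :
    invFun c R (c : OnePoint (E 3)) = OnePoint.infty := by
  show (open Classical in if c = c then _ else _) = _
  simp

theorem invFun_ne {c : E 3} {R : ℝ} {x : E 3} (h : x ≠ c) :
    invFun c R (x : OnePoint (E 3)) =
      ((c + (R / ‖x - c‖) ^ 2 • (x - c) : E 3) : OnePoint (E 3)) := by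
  show (open Classical in if x = c then _ else _) = _
  rw [if_neg h]

/-- The plane reflection as a function on `E 3 ∪ {∞}`. -/
noncomputable def plFun (u : E 3) (a : ℝ) (s : OnePoint (E 3)) : OnePoint (E 3) :=
  match s with
  | none => OnePoint.infty
  | some x => ((x - (2 * (⟪u, x⟫ - a)) • u : E 3) : OnePoint (E 3))

/-- An involution of the light cone induced by a reflection gives a good permutation. -/
theorem good_of_fun {e : L} (he : B e e = 1) (f : OnePoint (E 3) → OnePoint (E 3))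
    (hf : ∀ s, ∃ r : ℝ, 0 < r ∧ refl e (lift s) = r • lift (f s)) :
    ∃ μ : Equiv.Perm (OnePoint (E 3)), (∀ s, μ s = f s) ∧ Good (refl e) μ := by
  have hinv : Function.Involutive f := by
    intro s
    obtain ⟨r, hr, h⟩ := hf s
    obtain ⟨r', hr', h'⟩ := hf (f s)
    have h2 := refl_refl he (lift s)
    rw [h, map_smul, h', smul_smul] at h2
    exact (lift_inj (mul_pos hr hr') h2.symm).symm
  exact ⟨hinv.toPerm f, fun s => rfl, fun s => hf s⟩

theorem good_refl {e : L} (he : B e e = 1) :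
    ∃ μ ∈ moebiusGroup, Good (refl e) μ := by
  obtain ⟨e1, e0⟩ := e
  have he' : e1 0 ^ 2 + e1 1 ^ 2 + e1 2 ^ 2 + e1 3 ^ 2 - e0 ^ 2 = 1 := by
    have h := he
    unfold B at h
    simp only [inner4] at h
    nlinarith
  by_cases hα : e1 3 = e0
  · -- plane reflection
    set u : E 3 := !₂[e1 0, e1 1, e1 2] with hu
    have hu0 : u 0 = e1 0 := rfl
    have hu1 : u 1 = e1 1 := rfl
    have hu2 : u 2 = e1 2 := rfl
    have hun : u 0 ^ 2 + u 1 ^ 2 + u 2 ^ 2 = 1 := by
      rw [hu0, hu1, hu2]; rw [hα] at he'; linarith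
    have hunorm : ‖u‖ = 1 := by
      have h := norm_sq3 u
      rw [hun] at h
      exact (pow_eq_one_iff_of_nonneg (norm_nonneg u) (two_ne_zero)).mp h
    have key : ∀ s, ∃ r : ℝ, 0 < r ∧ refl (e1, e0) (lift s) = r • lift (plFun u e0 s) := by
      intro s
      refine ⟨1, one_pos, ?_⟩
      rw [one_smul]
      induction s using OnePoint.rec with
      | infty =>
        have : plFun u e0 OnePoint.infty = OnePoint.infty := rfl
        rw [this, refl_apply]
        have h0 : B (lift OnePoint.infty) (e1, e0) = 0 := by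
          rw [lift_infty]
          unfold B
          rw [inner4]
          simp [hα]
        rw [h0]
        simp
      | coe s =>
        have : plFun u e0 (s : OnePoint (E 3)) =
          ((s - (2 * (⟪u, s⟫ - e0)) • u : E 3) : OnePoint (E 3)) := rfl
        rw [this, refl_apply, lift_coe, lift_coe]
        have hb : B ((!₂[2 * s 0, 2 * s 1, 2 * s 2, ‖s‖ ^ 2 - 1] : E 4), ‖s‖ ^ 2 + 1)
            (e1, e0) = 2 * (u 0 * s 0 + u 1 * s 1 + u 2 * s 2) - 2 * e0 := by
          unfold B
          rw [inner4, hu0, hu1, hu2, hα]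
          simp
          ring
        rw [hb]
        have hn : ‖s - (2 * (⟪u, s⟫ - e0)) • u‖ ^ 2 =
            ‖s‖ ^ 2 - 4 * (u 0 * s 0 + u 1 * s 1 + u 2 * s 2 - e0) * e0 := by
          rw [norm_sq3, norm_sq3, inner3]
          simp only [PiLp.sub_apply, PiLp.smul_apply, smul_eq_mul]
          linear_combination (4 * (u 0 * s 0 + u 1 * s 1 + u 2 * s 2 - e0) ^ 2) * hun
        rw [hn]
        apply L_ext
        · simp [inner3, hu0, hu1, hu2]; ring
        · simp [inner3, hu0, hu1, hu2]; ring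
        · simp [inner3, hu0, hu1, hu2]; ring
        · simp [hα]; ring
        · simp; ring
    obtain ⟨μ, hμ, hg⟩ := good_of_fun he _ key
    refine ⟨μ, ?_, hg⟩
    apply Subgroup.subset_closure
    right
    refine ⟨u, e0, hunorm, ?_, ?_⟩
    · rw [hμ]; rfl
    · intro x; rw [hμ]; rfl
  · -- inversion
    have hα' : e1 3 - e0 ≠ 0 := sub_ne_zero.mpr hα
    set α : ℝ := e1 3 - e0 with hαdef
    set c : E 3 := !₂[-(e1 0) / α, -(e1 1) / α, -(e1 2) / α] with hc
    have hc0 : e1 0 = -α * c 0 := by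
      have : c 0 = -(e1 0) / α := rfl
      rw [this]; field_simp
    have hc1 : e1 1 = -α * c 1 := by
      have : c 1 = -(e1 1) / α := rfl
      rw [this]; field_simp
    have hc2 : e1 2 = -α * c 2 := by
      have : c 2 = -(e1 2) / α := rfl
      rw [this]; field_simp
    have he3 : e1 3 = e0 + α := by rw [hαdef]; ring
    rw [hc0, hc1, hc2, he3] at he'
    have hrel : α ^ 2 * (c 0 ^ 2 + c 1 ^ 2 + c 2 ^ 2) + 2 * α * e0 + α ^ 2 = 1 := by
      linear_combination he'
    have hR : 0 < 1 / |α| := by positivity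
    have hR2 : (1 / |α|) ^ 2 = 1 / α ^ 2 := by
      rw [div_pow, sq_abs, one_pow]
    have key : ∀ s, ∃ r : ℝ, 0 < r ∧
        refl (e1, e0) (lift s) = r • lift (invFun c (1 / |α|) s) := by
      intro s
      induction s using OnePoint.rec with
      | infty =>
        refine ⟨α ^ 2, by positivity, ?_⟩
        rw [invFun_infty, refl_apply, lift_infty, lift_coe, norm_sq3]
        have hb : B ((!₂[0, 0, 0, 1] : E 4), (1 : ℝ)) (e1, e0) = α := by
          unfold B
          rw [inner4]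
          simp [he3]
        rw [hb]
        apply L_ext
        · simp [hc0]; ring
        · simp [hc1]; ring
        · simp [hc2]; ring
        · simp [he3]; linear_combination -hrel
        · simp; linear_combination -hrel
      | coe s =>
        by_cases hs : s = c
        · rw [hs]
          refine ⟨1 / α ^ 2, by positivity, ?_⟩
          rw [invFun_self, refl_apply, lift_infty, lift_coe, norm_sq3]
          have hb : B ((!₂[2 * c 0, 2 * c 1, 2 * c 2, c 0 ^ 2 + c 1 ^ 2 + c 2 ^ 2 - 1] : E 4),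
              c 0 ^ 2 + c 1 ^ 2 + c 2 ^ 2 + 1) (e1, e0) = -1 / α := by
            unfold B
            rw [inner4]
            simp only [hc0, hc1, hc2, he3]
            simp
            rw [eq_div_iff hα']
            linear_combination -hrel
          rw [hb]
          apply L_ext
          · simp [hc0]; field_simp; ring
          · simp [hc1]; field_simp; ring
          · simp [hc2]; field_simp; ring
          · simp [he3]; field_simp; linear_combination hrel
          · simp; field_simp; linear_combination hrel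
        · have hd : 0 < ‖s - c‖ ^ 2 := by
            have : ‖s - c‖ ≠ 0 := by
              rw [norm_ne_zero_iff]
              exact sub_ne_zero.mpr hs
            positivity
          refine ⟨α ^ 2 * ‖s - c‖ ^ 2, by positivity, ?_⟩
          rw [invFun_ne hs, refl_apply, lift_coe, lift_coe, div_pow, hR2]
          have hd2 : (s 0 - c 0) ^ 2 + (s 1 - c 1) ^ 2 + (s 2 - c 2) ^ 2 = ‖s - c‖ ^ 2 := by
            rw [norm_sq3]; simp
          generalize ‖s - c‖ ^ 2 = D at hd hd2 ⊢
          have hDne : D ≠ 0 := hd.ne'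
          obtain ⟨β, hβ'⟩ : ∃ β, β = 1 / α := ⟨_, rfl⟩
          have hβ : α * β = 1 := by rw [hβ']; field_simp
          obtain ⟨k, hk'⟩ : ∃ k, k = 1 / α ^ 2 / D := ⟨_, rfl⟩
          have hk : α ^ 2 * D * k = 1 := by rw [hk']; field_simp
          have hkD : k * D = β ^ 2 := by rw [hk', hβ']; field_simp
          rw [← hk']
          have hn : ‖c + k • (s - c)‖ ^ 2 = (c 0 ^ 2 + c 1 ^ 2 + c 2 ^ 2) +
              2 * k * (c 0 * (s 0 - c 0) + c 1 * (s 1 - c 1) + c 2 * (s 2 - c 2)) +
              k ^ 2 * D := by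
            rw [norm_sq3, ← hd2]
            simp only [PiLp.add_apply, PiLp.sub_apply, PiLp.smul_apply, smul_eq_mul]
            ring
          rw [hn, norm_sq3]
          have hb : B ((!₂[2 * s 0, 2 * s 1, 2 * s 2, s 0 ^ 2 + s 1 ^ 2 + s 2 ^ 2 - 1] : E 4),
              s 0 ^ 2 + s 1 ^ 2 + s 2 ^ 2 + 1) (e1, e0) = α * D - β := by
            rw [← hd2]
            unfold B
            rw [inner4]
            simp only [hc0, hc1, hc2, he3]
            simp
            linear_combination (-β) * hrel +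
              (2 * e0 + α + α * (c 0 ^ 2 + c 1 ^ 2 + c 2 ^ 2)) * hβ
          rw [hb]
          apply L_ext
          · simp [hc0]; linear_combination (-2 * c 0) * hβ - 2 * (s 0 - c 0) * hk
          · simp [hc1]; linear_combination (-2 * c 1) * hβ - 2 * (s 1 - c 1) * hk
          · simp [hc2]; linear_combination (-2 * c 2) * hβ - 2 * (s 2 - c 2) * hk
          · simp [he3]
            linear_combination (-2 * (c 0 * (s 0 - c 0) + c 1 * (s 1 - c 1) +
              c 2 * (s 2 - c 2)) - k * D) * hk - hkD +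
              (2 - 2 * β * e0 - (c 0 ^ 2 + c 1 ^ 2 + c 2 ^ 2 + 1) * (α * β + 1)) * hβ +
              (β ^ 2 - D) * hrel + hd2
          · simp
            linear_combination (-2 * (c 0 * (s 0 - c 0) + c 1 * (s 1 - c 1) +
              c 2 * (s 2 - c 2)) - k * D) * hk - hkD +
              (- 2 * β * e0 - (c 0 ^ 2 + c 1 ^ 2 + c 2 ^ 2 + 1) * (α * β + 1)) * hβ +
              (β ^ 2 - D) * hrel + hd2
    obtain ⟨μ, hμ, hg⟩ := good_of_fun he _ key
    refine ⟨μ, ?_, hg⟩
    apply Subgroup.subset_closure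
    left
    refine ⟨c, 1 / |α|, hR, ?_, ?_, ?_⟩
    · rw [hμ]; exact invFun_infty _ _
    · rw [hμ]; exact invFun_self _ _
    · intro x hx; rw [hμ]; exact invFun_ne hx

end Pool.Agent.H48.Mob
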