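import Pool.Agent.H48.Mob.Lor
import Pool.Agent.H48.Mob.Loc

/-! # Four consecutive vertices of a pentagonal face -/

open scoped RealInnerProductSpace

namespace Pool.Agent.H48.Mob

/-- Hypotheses on four consecutive vertices of a pentagonal face. -/
structure PentHyp (y0 y1 y2 y3 : L) : Prop where
  y00 : B y0 y0 = 1
  y11 : B y1 y1 = 1
  y22 : B y2 y2 = 1
  y33 : B y3 y3 = 1
  y01 : B y0 y1 = -1
  y12 : B y1 y2 = -1
  y23 : B y2 y3 = -1
  f01 : Future (y0 + y1)
  f12 : Future (y1 + y2)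
  f23 : Future (y2 + y3)
  dep : ∃ α β γ : ℝ, y3 = α • y0 + β • y1 + γ • y2
  c01 : ∃ l : L →ₗ[ℝ] ℝ, l y0 = 0 ∧ l y1 = 0 ∧ 0 < l y2 ∧ 0 < l y3
  c12 : ∃ l : L →ₗ[ℝ] ℝ, l y1 = 0 ∧ l y2 = 0 ∧ 0 < l y0 ∧ 0 < l y3
  c23 : ∃ l : L →ₗ[ℝ] ℝ, l y2 = 0 ∧ l y3 = 0 ∧ 0 < l y0 ∧ 0 < l y1

theorem PentHyp.rev {y0 y1 y2 y3 : L} (h : PentHyp y0 y1 y2 y3) : PentHyp y3 y2 y1 y0 := by
  obtain ⟨α, β, γ, hd⟩ := h.dep
  obtain ⟨m, m1, m2, m0, m3⟩ := h.c12
  have hα : 0 < α := by
    have := congrArg m hd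
    simp [m1, m2] at this
    by_contra hle
    push Not at hle
    nlinarith
  obtain ⟨l, l0, l1, l2, l3⟩ := h.c01
  obtain ⟨n, n2, n3, n0, n1⟩ := h.c23
  refine
    { y00 := h.y33, y11 := h.y22, y22 := h.y11, y33 := h.y00, y01 := ?_, y12 := ?_, y23 := ?_,
      f01 := ?_, f12 := ?_, f23 := ?_, dep := ?_, c01 := ⟨n, n3, n2, n1, n0⟩,
      c12 := ⟨m, m2, m1, m3, m0⟩, c23 := ⟨l, l1, l0, l3, l2⟩ }
  · rw [B_comm]; exact h.y23
  · rw [B_comm]; exact h.y12
  · rw [B_comm]; exact h.y01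
  · rw [add_comm]; exact h.f23
  · rw [add_comm]; exact h.f12
  · rw [add_comm]; exact h.f01
  · refine ⟨α⁻¹, - (α⁻¹ * γ), - (α⁻¹ * β), ?_⟩
    rw [hd]
    have : α⁻¹ * α = 1 := inv_mul_cancel₀ hα.ne'
    simp only [smul_add, smul_smul, this]
    module

theorem PentHyp.rel {y0 y1 y2 y3 : L} (h : PentHyp y0 y1 y2 y3) {h1 h2 H : ℝ}
    (e1 : h1 = (1 - B y0 y2) / 2) (e2 : h2 = (1 - B y1 y3) / 2) (eH : H = (1 - B y0 y3) / 2) :
    1 < h1 ∧ 1 < h2 ∧ H = (h1 - 1) * (h2 - 1) ∧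
    y3 = (h2 / h1) • y0 + (h2 * (1 - h1) / h1) • y1 + (h2 - 1) • y2 := by
  have g1 : B y0 y2 = 1 - 2 * h1 := by rw [e1]; ring
  have g2 : B y1 y3 = 1 - 2 * h2 := by rw [e2]; ring
  have gH : B y0 y3 = 1 - 2 * H := by rw [eH]; ring
  obtain ⟨α, β, γ, hd⟩ := h.dep
  obtain ⟨l, l0, l1, l2, l3⟩ := h.c01
  obtain ⟨m, m1, m2, m0, m3⟩ := h.c12
  obtain ⟨n, n2, n3, n0, n1⟩ := h.c23
  -- signs
  have hα : 0 < α := by
    have := congrArg m hd
    simp [m1, m2] at this
    by_contra hle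
    push Not at hle
    nlinarith
  have hγ : 0 < γ := by
    have := congrArg l hd
    simp [l0, l1] at this
    by_contra hle
    push Not at hle
    nlinarith
  have hβ : β < 0 := by
    have := congrArg n hd
    simp [n2, n3] at this
    by_contra hle
    push Not at hle
    have := mul_pos hα n0
    nlinarith
  -- h1 > 0
  have h1pos : 0 < h1 := by
    have hB : B (y0 + y1) (y1 + y2) = - 2 * h1 := by
      simp only [B_add_left, B_add_right, h.y01, h.y11, h.y12, g1]; ring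
    have hle := future_le h.f01 h.f12
    rw [hB] at hle
    rcases lt_or_eq_of_le (show 0 ≤ h1 by linarith) with h' | h'
    · exact h'
    · exfalso
      obtain ⟨s, hs⟩ := future_zero h.f01 h.f12 (by rw [hB, ← h']; ring)
      have := congrArg l hs
      simp [l0, l1] at this
      linarith
  -- equations
  have q0 : B y0 y3 = 1 - 2 * H := gH
  rw [hd] at q0
  simp only [B_add_right, B_smul_right, h.y00, h.y01, g1] at q0
  have q1 : B y1 y3 = 1 - 2 * h2 := g2
  rw [hd] at q1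
  simp only [B_add_right, B_smul_right, B_comm y1 y0, h.y01, h.y11, h.y12] at q1
  have q2 : B y2 y3 = -1 := h.y23
  rw [hd] at q2
  simp only [B_add_right, B_smul_right, B_comm y2 y0, B_comm y2 y1, h.y12, h.y22, g1] at q2
  have q3 : B y3 y3 = 1 := h.y33
  nth_rewrite 2 [hd] at q3
  simp only [B_add_right, B_smul_right, B_comm y3 y0, B_comm y3 y1, B_comm y3 y2, h.y23, g2,
    gH] at q3
  -- solve
  have hα' : α * h1 = h2 := by linarith
  have hα'' : α = h2 / h1 := by field_simp; exact hα'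
  have hγ' : γ = β - 1 - α + 2 * h2 := by
    have : γ = β - 1 - α * (1 - 2 * h1) := by linarith
    rw [this]; linear_combination 2 * hα'
  have hβ' : β * h1 = 1 - H - h1 := by
    have h2pos : h2 ≠ 0 := by
      intro h0
      rw [h0] at hα'
      rcases mul_eq_zero.mp hα' with h | h
      · exact hα.ne' h
      · exact h1pos.ne' h
    have e : h2 * (β * h1 - (1 - H - h1)) = 0 := by
      rw [hγ'] at q3
      linear_combination (-h1 / 2) * q3 + (1 - H) * hα'
    rcases mul_eq_zero.mp e with h | h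
    · exact absurd h h2pos
    · linarith
  have hH : H = (h1 - 1) * (h2 - 1) := by
    rw [hγ'] at q0
    linear_combination (1 / 4 : ℝ) * q0 + (1 / 2 : ℝ) * hβ' - (1 / 2 : ℝ) * hα'
  have hβ'' : β = h2 * (1 - h1) / h1 := by
    field_simp
    rw [hβ', hH]; ring
  have hγ'' : γ = h2 - 1 := by
    rw [hγ', hα'', hβ'']
    field_simp
    ring
  refine ⟨?_, ?_, hH, ?_⟩
  · by_contra hle
    push Not at hle
    have : β = α * (1 - h1) := by rw [hβ'', hα'']; ring
    rw [this] at hβ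
    nlinarith
  · linarith
  · rw [hd, hα'', hβ'', hγ'']

/-- Two pentagonal faces sharing an edge `w a`. -/
theorem shared_edge {b w a b' c c' : L} {hw ha kw ka : ℝ}
    (hw0 : hw ≠ 0) (ha0 : ha ≠ 0) (kw0 : kw ≠ 0) (ka0 : ka ≠ 0)
    (ww : B w w = 1) (aa : B a a = 1) (wa : B w a = -1)
    (bw : B b w = -1) (cw : B c w = -1)
    (ba : B b a = 1 - 2 * hw) (ca : B c a = 1 - 2 * kw)
    (r1 : b' = (ha / hw) • b + (ha * (1 - hw) / hw) • w + (ha - 1) • a)
    (r2 : c' = (ka / kw) • c + (ka * (1 - kw) / kw) • w + (ka - 1) • a) :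
    (1 - B b' c') / 2 / (ha * ka) = (1 - B b c) / 2 / (hw * kw) := by
  have e : B b' c' = (ha * ka) / (hw * kw) * (B b c - 1) + 1 := by
    rw [r1, r2]
    simp only [B_add_left, B_add_right, B_smul_left, B_smul_right, ww, aa, wa, bw, ba,
      B_comm w c, B_comm a c, B_comm a w, cw, ca]
    field_simp
    ring
  rw [e]
  field_simp
  ring

/-- Uniqueness of positive solutions on an odd cycle. -/
theorem odd_cycle {D δ : Fin 5 → ℝ} (hD : ∀ k, 0 < D k) (hδ : ∀ k, 0 < δ k)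
    (h : ∀ k, D k * D (k + 1) = δ k * δ (k + 1)) : ∀ k, D k = δ k := by
  have step : ∀ k, D k * δ (k + 2) = δ k * D (k + 2) := by
    intro k
    have h1 := h k
    have h2 := h (k + 1)
    have e : k + 1 + 1 = k + 2 := by clear * -; decide +revert
    rw [e] at h2
    have h3 : D (k + 1) * (D k * δ (k + 2) - δ k * D (k + 2)) = 0 := by
      linear_combination δ (k + 2) * h1 - δ k * h2
    rcases mul_eq_zero.mp h3 with h4 | h4
    · exact absurd h4 (hD _).ne'
    · linarith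
  intro k
  have s1 := step k
  have s2 := step (k + 2)
  have s3 := step (k + 4)
  have e1 : k + 2 + 2 = k + 4 := by clear * -; decide +revert
  have e2 : k + 4 + 2 = k + 1 := by clear * -; decide +revert
  rw [e1] at s2
  rw [e2] at s3
  -- D k * δ (k+1) = δ k * D (k+1)
  have h2 := hD (k + 2)
  have h4 := hD (k + 4)
  have h2' := hδ (k + 2)
  have h4' := hδ (k + 4)
  have t1 : D k * δ (k + 4) = δ k * D (k + 4) := by
    have : D (k + 2) * (D k * δ (k + 4) - δ k * D (k + 4)) = 0 := by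
      linear_combination (D k) * s2 + D (k + 4) * s1
    rcases mul_eq_zero.mp this with h5 | h5
    · exact absurd h5 h2.ne'
    · linarith
  have t2 : D k * δ (k + 1) = δ k * D (k + 1) := by
    have : D (k + 4) * (D k * δ (k + 1) - δ k * D (k + 1)) = 0 := by
      linear_combination (D k) * s3 + D (k + 1) * t1
    rcases mul_eq_zero.mp this with h5 | h5
    · exact absurd h5 h4.ne'
    · linarith
  have h0 := h k
  have hk := hD k
  have hk' := hδ k
  have hk1 := hD (k + 1)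
  have hk1' := hδ (k + 1)
  have : D k ^ 2 = δ k ^ 2 := by
    have : D (k + 1) * (D k ^ 2 - δ k ^ 2) = 0 := by
      linear_combination (D k) * h0 + (δ k) * t2
    rcases mul_eq_zero.mp this with h5 | h5
    · exact absurd h5 hk1.ne'
    · linarith
  exact (pow_left_inj₀ hk.le hk'.le two_ne_zero).mp this

end Pool.Agent.H48.Mob

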