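import Pool.Agent.H48.Mob.Star120

/-! # Propagation over the 120-cell -/

open scoped RealInnerProductSpace

namespace Pool.Agent.H48.Mob

/-- `G` is the neighbour of the tetrahedron `F` that misses `a`. -/
structure Misses (F : Finset (Fin 120)) (a : Fin 120) (G : Finset (Fin 120)) : Prop where
  isTet : IsTet G
  mem : a ∈ F
  notMem : a ∉ G
  sub : ∀ w ∈ F, w ≠ a → w ∈ G

theorem two_rep {F : Finset (Fin 120)} (hF : IsTet F) {a b : Fin 120} (ha : a ∈ F) (hb : b ∈ F)
    (hab : a ≠ b) : ∃ c i k, F = tet c i k ∧ a = nb c (cyc i k) ∧ b = nb c (cyc i (k + 1)) := by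
  have h1 : ∃ c ∈ F, c ∉ ({a, b} : Finset (Fin 120)) := by
    by_contra hcon
    push Not at hcon
    have h3 := Finset.card_le_card (show F ⊆ _ from hcon)
    have h4 : ({a, b} : Finset (Fin 120)).card ≤ 2 := Finset.card_le_two
    rw [hF.1] at h3
    omega
  obtain ⟨c, hc, hc'⟩ := h1
  have h1 : ∃ d ∈ F, d ∉ ({a, b, c} : Finset (Fin 120)) := by
    by_contra hcon
    push Not at hcon
    have h3 := Finset.card_le_card (show F ⊆ _ from hcon)
    have h4 : ({a, b, c} : Finset (Fin 120)).card ≤ 3 := Finset.card_le_three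
    rw [hF.1] at h3
    omega
  obtain ⟨d, hd, hd'⟩ := h1
  simp only [Finset.mem_insert, Finset.mem_singleton, not_or] at hc' hd'
  obtain ⟨hca, hcb⟩ := hc'
  obtain ⟨hda, hdb, hdc⟩ := hd'
  obtain ⟨i, rfl⟩ := hF.2 c hc d hd (Ne.symm hdc)
  obtain ⟨k, hk⟩ := tet_rep2 hF hc hd
  have ha2 : a = nb c (cyc i k) ∨ a = nb c (cyc i (k + 1)) := by
    rw [hk, mem_tet] at ha
    rcases ha with h | h | h | h
    · exact absurd h.symm hca
    · exact absurd h.symm hda
    · exact Or.inl h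
    · exact Or.inr h
  have hb2 : b = nb c (cyc i k) ∨ b = nb c (cyc i (k + 1)) := by
    rw [hk, mem_tet] at hb
    rcases hb with h | h | h | h
    · exact absurd h.symm hcb
    · exact absurd h.symm hdb
    · exact Or.inl h
    · exact Or.inr h
  rcases ha2 with h | h <;> rcases hb2 with h' | h'
  · exact absurd (h.trans h'.symm) hab
  · exact ⟨c, i, k, hk, h, h'⟩
  · refine ⟨nb c i, invI i, -k - 1, ?_, ?_, ?_⟩
    · rw [tet_inv]; exact hk
    · have e : -k - 1 = -(k + 1) := by clear * -; decide +revert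
      rw [e, nb_link]; exact h
    · rw [sub_add_cancel, nb_link]; exact h'
  · exact absurd (h.trans h'.symm) hab

theorem Misses.eq_succ {c : Fin 120} {i : Fin 12} {k : Fin 5} {G : Finset (Fin 120)}
    (h : Misses (tet c i k) (nb c (cyc i k)) G) : G = tet c i (k + 1) := by
  have n1 : c ≠ nb c (cyc i k) := (nb_ne _ _).symm
  have n2 : nb c i ≠ nb c (cyc i k) := fun h => cyc_ne' _ _ (nb_inj _ _ _ h).symm
  have n3 : nb c (cyc i (k + 1)) ≠ nb c (cyc i k) := by
    intro h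
    have := cyc_inj' _ _ _ (nb_inj _ _ _ h)
    revert this; clear * -; decide +revert
  rcases tet_of_triangle h.isTet (h.sub _ (mem_tet0 _ _ _) n1) (h.sub _ (mem_tet1 _ _ _) n2)
    (h.sub _ (mem_tet3 _ _ _) n3) with h1 | h1
  · exact h1
  · exfalso
    apply h.notMem
    rw [h1, add_sub_cancel_right]
    exact mem_tet2 _ _ _

theorem Misses.eq_pred {c : Fin 120} {i : Fin 12} {k : Fin 5} {G : Finset (Fin 120)}
    (h : Misses (tet c i k) (nb c (cyc i (k + 1))) G) : G = tet c i (k - 1) := by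
  have n1 : c ≠ nb c (cyc i (k + 1)) := (nb_ne _ _).symm
  have n2 : nb c i ≠ nb c (cyc i (k + 1)) := fun h => cyc_ne' _ _ (nb_inj _ _ _ h).symm
  have n3 : nb c (cyc i k) ≠ nb c (cyc i (k + 1)) := by
    intro h
    have := cyc_inj' _ _ _ (nb_inj _ _ _ h)
    revert this; clear * -; decide +revert
  rcases tet_of_triangle h.isTet (h.sub _ (mem_tet0 _ _ _) n1) (h.sub _ (mem_tet1 _ _ _) n2)
    (h.sub _ (mem_tet2 _ _ _) n3) with h1 | h1
  · exfalso
    apply h.notMem
    rw [h1]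
    exact mem_tet3 _ _ _
  · exact h1

theorem Real120.nbr_edge {x : Finset (Fin 120) → L} (h : Real120 x) {F G : Finset (Fin 120)}
    (hF : IsTet F) {a : Fin 120} (hG : Misses F a G) : B (x F) (x G) = -1 := by
  have h1 : ∃ b ∈ F, b ∉ ({a} : Finset (Fin 120)) := by
    by_contra hcon
    push Not at hcon
    have h3 := Finset.card_le_card (show F ⊆ _ from hcon)
    rw [hF.1, Finset.card_singleton] at h3
    omega
  obtain ⟨b, hb, hb'⟩ := h1
  simp only [Finset.mem_singleton] at hb'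
  obtain ⟨c, i, k, rfl, rfl, rfl⟩ := two_rep hF hG.mem hb (Ne.symm hb')
  rw [hG.eq_succ]
  exact h.edge _ _ _

theorem Real120.nbr_pair {x : Finset (Fin 120) → L} (h : Real120 x) {F G G' : Finset (Fin 120)}
    (hF : IsTet F) {a b : Fin 120} (hab : a ≠ b) (hG : Misses F a G) (hG' : Misses F b G') :
    B (x G) (x G') = 1 - 2 * (Real.goldenRatio + 1) := by
  obtain ⟨c, i, k, rfl, rfl, rfl⟩ := two_rep hF hG.mem hG'.mem hab
  rw [hG.eq_succ, hG'.eq_pred, B_comm]
  exact h.corner _ _ _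

theorem misses_pred (p : Fin 120) (i : Fin 12) (k : Fin 5) :
    Misses (tet p i k) (nb p (cyc i (k + 1))) (tet p i (k - 1)) where
  isTet := tet_isTet _ _ _
  mem := mem_tet3 _ _ _
  notMem := not_mem_tet_succ _ _ _ _ (by clear * -; decide +revert) (by clear * -; decide +revert)
  sub := by
    intro w hw hne
    rw [mem_tet] at hw
    rcases hw with rfl | rfl | rfl | rfl
    · exact mem_tet0 _ _ _
    · exact mem_tet1 _ _ _
    · exact mem_tet4 _ _ _
    · exact absurd rfl hne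

theorem misses_succ (p : Fin 120) (i : Fin 12) (k : Fin 5) :
    Misses (tet p i k) (nb p (cyc i k)) (tet p i (k + 1)) where
  isTet := tet_isTet _ _ _
  mem := mem_tet2 _ _ _
  notMem := not_mem_tet_succ _ _ _ _ (by clear * -; decide +revert) (by clear * -; decide +revert)
  sub := by
    intro w hw hne
    rw [mem_tet] at hw
    rcases hw with rfl | rfl | rfl | rfl
    · exact mem_tet0 _ _ _
    · exact mem_tet1 _ _ _
    · exact absurd rfl hne
    · exact mem_tet2 _ _ _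

theorem misses_dropI (p : Fin 120) (i : Fin 12) (k : Fin 5) :
    Misses (tet p i k) (nb p i) (dropI p i k) where
  isTet := dropI_isTet _ _ _
  mem := mem_tet1 _ _ _
  notMem := not_mem_dropI _ _ _
  sub := by
    obtain ⟨h0, _, h2, h3⟩ := dropI_facts p i k
    intro w hw hne
    rw [mem_tet] at hw
    rcases hw with rfl | rfl | rfl | rfl
    · exact h0
    · exact absurd rfl hne
    · exact h2
    · exact h3

theorem misses_dropP (p : Fin 120) (i : Fin 12) (k : Fin 5) :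
    Misses (tet p i k) p (dropP p i k) where
  isTet := dropP_isTet _ _ _
  mem := mem_tet0 _ _ _
  notMem := (dropP_facts p i k).1
  sub := by
    obtain ⟨_, h1, h2, h3⟩ := dropP_facts p i k
    intro w hw hne
    rw [mem_tet] at hw
    rcases hw with rfl | rfl | rfl | rfl
    · exact absurd rfl hne
    · exact h1
    · exact h2
    · exact h3

section closure

variable (S : Finset (Fin 120) → Prop)
  (hS : ∀ p i k, S (tet p i k) → S (tet p i (k + 1)) → S (tet p i (k + 2)) →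
      S (tet p i (k + 3)))

include hS in
theorem pent5 (p : Fin 120) (i : Fin 12) (m : Fin 5) (h0 : S (tet p i m))
    (h1 : S (tet p i (m - 1))) (h2 : S (tet p i (m + 1))) : ∀ n, S (tet p i n) := by
  have e1 : m - 1 + 1 = m := by clear * -; decide +revert
  have e2 : m - 1 + 2 = m + 1 := by clear * -; decide +revert
  have e3 : m - 1 + 3 = m + 2 := by clear * -; decide +revert
  have h3 : S (tet p i (m + 2)) := by
    have := hS p i (m - 1) h1 (by rw [e1]; exact h0) (by rw [e2]; exact h2)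
    rwa [e3] at this
  have h4 : S (tet p i (m + 3)) := hS p i m h0 h2 h3
  intro n
  have : n = m ∨ n = m - 1 ∨ n = m + 1 ∨ n = m + 2 ∨ n = m + 3 := by
    clear * -; decide +revert
  rcases this with h | h | h | h | h <;> rw [h] <;> assumption

/-- A vertex and its three neighbours in the cell `p`. -/
def V3 (S : Finset (Fin 120) → Prop) (p : Fin 120) (i : Fin 12) (k : Fin 5) : Prop :=
  S (tet p i k) ∧ S (tet p i (k - 1)) ∧ S (tet p i (k + 1)) ∧ S (dropI p i k)

include hS in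
theorem V3_succ {p : Fin 120} {i : Fin 12} {k : Fin 5} (h : V3 S p i k) :
    V3 S p i (k + 1) := by
  obtain ⟨h0, h1, h2, h3⟩ := h
  have hall := pent5 S hS p i k h0 h1 h2
  refine ⟨h2, by rw [add_sub_cancel_right]; exact h0, hall _, ?_⟩
  -- the pentagon of `cyc i (k+1)`
  refine pent5 S hS p (cyc i (k + 1)) (bk i (k + 1)) ?_ ?_ ?_ _
  · rw [tet_rot', add_sub_cancel_right]; exact h0
  · rw [tet_rot]; exact h2
  · rw [dropI_eq]; exact h3

theorem V3_rho {p : Fin 120} {i : Fin 12} {k : Fin 5} (h : V3 S p i k) :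
    V3 S p (cyc i k) (bk i k - 1) := by
  obtain ⟨h0, h1, h2, h3⟩ := h
  have e1 : bk i k - 1 - 1 = bk i k - 2 := by
    generalize bk i k = b; clear * -; decide +revert
  refine ⟨by rw [tet_rot]; exact h0, ?_, ?_, ?_⟩
  · rw [e1]; exact h3
  · rw [sub_add_cancel, tet_rot']; exact h1
  · unfold dropI
    have e2 := (rho3 i k).1
    have e3 : bk (cyc i k) (bk i k - 1) - 2 = bk i (k + 1) - 1 := by
      rw [← (rho3 i k).2]
      generalize bk (cyc i k) (bk i k - 1) = b; clear * -; decide +revert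
    rw [e2, e3, tet_rot]
    exact h2

include hS in
theorem V3_all {p : Fin 120} {i : Fin 12} {k : Fin 5} (h : V3 S p i k) :
    ∀ j m, V3 S p j m := by
  have rot : ∀ i, (∃ k, V3 S p i k) → ∀ m, V3 S p i m := by
    rintro i ⟨k, hk⟩ m
    have h1 := V3_succ S hS hk
    have h2 := V3_succ S hS h1
    have h3 := V3_succ S hS h2
    have h4 := V3_succ S hS h3
    have : m = k ∨ m = k + 1 ∨ m = k + 1 + 1 ∨ m = k + 1 + 1 + 1 ∨ m = k + 1 + 1 + 1 + 1 := by
      clear * -; decide +revert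
    rcases this with h | h | h | h | h <;> rw [h] <;> assumption
  have nxt : ∀ i, (∃ k, V3 S p i k) → ∀ k, ∃ m, V3 S p (cyc i k) m := fun i hi k =>
    ⟨_, V3_rho S (rot i hi k)⟩
  intro j m
  obtain ⟨k1, k2, k3, rfl⟩ := conn3 i j
  exact rot _ (nxt _ (nxt _ (nxt _ ⟨k, h⟩ k1) k2) k3) m

/-- The cell `p` is known. -/
def CF (S : Finset (Fin 120) → Prop) (p : Fin 120) : Prop := ∀ F, IsTet F → p ∈ F → S F

include hS in
theorem CF_of_V3 {p : Fin 120} {i : Fin 12} {k : Fin 5} (h : V3 S p i k) : CF S p := by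
  intro F hF hp
  obtain ⟨j, m, rfl⟩ := tet_rep1 hF hp
  exact (V3_all S hS h j m).1

include hS in
theorem CF_step {p : Fin 120} {i : Fin 12} {k : Fin 5} (hp : CF S p) (hq : CF S (nb p i)) :
    CF S (nb p (cyc i k)) := by
  have hF := tet_isTet p i k
  obtain ⟨i0, k0, hrep⟩ := tet_rep1 hF (mem_tet2 p i k)
  set r := nb p (cyc i k) with hr
  have pF : p ∈ tet r i0 k0 := by rw [← hrep]; exact mem_tet0 _ _ _
  have qF : nb p i ∈ tet r i0 k0 := by rw [← hrep]; exact mem_tet1 _ _ _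
  have hpr : p ≠ r := (nb_ne _ _).symm
  have hqr : nb p i ≠ r := fun h => cyc_ne' _ _ (nb_inj _ _ _ h).symm
  have hpq : p ≠ nb p i := (nb_ne _ _).symm
  obtain ⟨d0, d1, d2, d3⟩ := dropI_facts r i0 k0
  -- any tetrahedron containing `p` or `nb p i` is known
  have key : ∀ G a, Misses (tet r i0 k0) a G → S G := by
    intro G a hG
    by_cases ha : a = p
    · exact hq G hG.isTet (hG.sub _ qF (by rw [ha]; exact hpq.symm))
    · exact hp G hG.isTet (hG.sub _ pF (Ne.symm ha))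
  apply CF_of_V3 S hS (i := i0) (k := k0)
  exact ⟨hp _ (tet_isTet _ _ _) pF, key _ _ (misses_pred _ _ _), key _ _ (misses_succ _ _ _),
    key _ _ (misses_dropI _ _ _)⟩

include hS in
theorem CF_link {p : Fin 120} {i : Fin 12} (hp : CF S p) (hq : CF S (nb p i)) :
    ∀ j, CF S (nb p j) := by
  intro j
  obtain ⟨k1, k2, k3, rfl⟩ := conn3 i j
  exact CF_step S hS hp (CF_step S hS hp (CF_step S hS hp hq))

include hS in
theorem cell120_closure (h0 : S (tet 0 0 0)) (h1 : S (tet 0 0 (0 - 1)))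
    (h2 : S (tet 0 0 (0 + 1))) (h3 : S (dropI 0 0 0)) (h4 : S (dropP 0 0 0)) :
    ∀ F, IsTet F → S F := by
  have c0 : CF S 0 := CF_of_V3 S hS (i := 0) (k := 0) ⟨h0, h1, h2, h3⟩
  have c1 : CF S (nb 0 0) := by
    apply CF_of_V3 S hS (i := invI 0) (k := -0 - 1)
    refine ⟨by rw [tet_inv]; exact h0, ?_, ?_, h4⟩
    · have e : (-0 - 1 - 1 : Fin 5) = -(0 + 1) - 1 := by decide
      rw [e, tet_inv]; exact h2
    · have e : (-0 - 1 + 1 : Fin 5) = -(0 - 1) - 1 := by decide
      rw [e, tet_inv]; exact h1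
  have step : ∀ p, CF S p → (∀ i, CF S (nb p i)) → ∀ i, ∀ j, CF S (nb (nb p i) j) := by
    intro p hp hpi i
    apply CF_link S hS (i := invI i) (hpi i)
    rw [nb_inv]; exact hp
  have full0 : ∀ j, CF S (nb 0 j) := CF_link S hS c0 c1
  have hall : ∀ w, CF S w := by
    intro w
    rw [← nb_path w]
    have f1 := step 0 c0 full0 (pa w 0)
    have f2 := step _ (full0 (pa w 0)) f1 (pa w 1)
    have f3 := step _ (f1 (pa w 1)) f2 (pa w 2)
    have f4 := step _ (f2 (pa w 2)) f3 (pa w 3)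
    exact f4 (pa w 4)
  intro F hF
  obtain ⟨p, i, k, rfl⟩ := tet_rep0 hF
  exact hall p _ hF (mem_tet0 _ _ _)

end closure

/-- Two normalised edge-scribed 120-cells are related by a Lorentz isometry. -/
theorem exists_isometry120 {x x' : Finset (Fin 120) → L} (h : Real120 x) (h' : Real120 x') :
    ∃ T : L →ₗ[ℝ] L, (∀ a b, B (T a) (T b) = B a b) ∧ ∀ F, IsTet F → T (x F) = x' F := by
  obtain ⟨T, t0, t1, t2, t3, t4⟩ := exists_map5 (a' := x' (tet 0 0 0))
    (b' := x' (tet 0 0 (0 - 1))) (c' := x' (tet 0 0 (0 + 1)))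
    (d' := x' (dropI 0 0 0)) (e' := x' (dropP 0 0 0)) (h.li 0 0 0)
  refine ⟨T, ?_, ?_⟩
  · have gram : ∀ y : Finset (Fin 120) → L, Real120 y →
        B (y (tet 0 0 0)) (y (tet 0 0 0)) = 1 ∧
        B (y (tet 0 0 (0 - 1))) (y (tet 0 0 (0 - 1))) = 1 ∧
        B (y (tet 0 0 (0 + 1))) (y (tet 0 0 (0 + 1))) = 1 ∧
        B (y (dropI 0 0 0)) (y (dropI 0 0 0)) = 1 ∧
        B (y (dropP 0 0 0)) (y (dropP 0 0 0)) = 1 ∧
        B (y (tet 0 0 0)) (y (tet 0 0 (0 - 1))) = -1 ∧
        B (y (tet 0 0 0)) (y (tet 0 0 (0 + 1))) = -1 ∧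
        B (y (tet 0 0 0)) (y (dropI 0 0 0)) = -1 ∧
        B (y (tet 0 0 0)) (y (dropP 0 0 0)) = -1 ∧
        B (y (tet 0 0 (0 - 1))) (y (tet 0 0 (0 + 1))) = 1 - 2 * (Real.goldenRatio + 1) ∧
        B (y (tet 0 0 (0 - 1))) (y (dropI 0 0 0)) = 1 - 2 * (Real.goldenRatio + 1) ∧
        B (y (tet 0 0 (0 - 1))) (y (dropP 0 0 0)) = 1 - 2 * (Real.goldenRatio + 1) ∧
        B (y (tet 0 0 (0 + 1))) (y (dropI 0 0 0)) = 1 - 2 * (Real.goldenRatio + 1) ∧
        B (y (tet 0 0 (0 + 1))) (y (dropP 0 0 0)) = 1 - 2 * (Real.goldenRatio + 1) ∧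
        B (y (dropI 0 0 0)) (y (dropP 0 0 0)) = 1 - 2 * (Real.goldenRatio + 1) := by
      intro y hy
      have hF := tet_isTet 0 0 0
      have m1 := misses_pred 0 0 0
      have m2 := misses_succ 0 0 0
      have m3 := misses_dropI 0 0 0
      have m4 := misses_dropP 0 0 0
      have a1 : nb 0 (cyc 0 (0 + 1)) ≠ nb 0 (cyc 0 0) := by
        intro h
        have := cyc_inj' _ _ _ (nb_inj _ _ _ h)
        revert this; decide
      have a2 : nb 0 (cyc 0 (0 + 1)) ≠ nb 0 0 := fun h => cyc_ne' _ _ (nb_inj _ _ _ h)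
      have a3 : nb 0 (cyc 0 (0 + 1)) ≠ 0 := nb_ne _ _
      have a4 : nb 0 (cyc 0 0) ≠ nb 0 0 := fun h => cyc_ne' _ _ (nb_inj _ _ _ h)
      have a5 : nb 0 (cyc 0 0) ≠ 0 := nb_ne _ _
      have a6 : nb 0 0 ≠ 0 := nb_ne _ _
      exact ⟨hy.unit _ hF, hy.unit _ (tet_isTet _ _ _), hy.unit _ (tet_isTet _ _ _),
        hy.unit _ (dropI_isTet _ _ _), hy.unit _ (dropP_isTet _ _ _),
        hy.nbr_edge hF m1, hy.nbr_edge hF m2, hy.nbr_edge hF m3, hy.nbr_edge hF m4,
        hy.nbr_pair hF a1 m1 m2, hy.nbr_pair hF a2 m1 m3, hy.nbr_pair hF a3 m1 m4,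
        hy.nbr_pair hF a4 m2 m3, hy.nbr_pair hF a5 m2 m4, hy.nbr_pair hF a6 m3 m4⟩
    obtain ⟨g1, g2, g3, g4, g5, g6, g7, g8, g9, g10, g11, g12, g13, g14, g15⟩ := gram x h
    obtain ⟨k1, k2, k3, k4, k5, k6, k7, k8, k9, k10, k11, k12, k13, k14, k15⟩ := gram x' h'
    intro a b
    obtain ⟨s, t, u, v, w, rfl⟩ := span5 (h.li 0 0 0) a
    obtain ⟨s', t', u', v', w', rfl⟩ := span5 (h.li 0 0 0) b
    simp only [map_add, map_smul, t0, t1, t2, t3, t4]
    generalize x (tet 0 0 0) = y0, x (tet 0 0 (0 - 1)) = y1, x (tet 0 0 (0 + 1)) = y2,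
      x (dropI 0 0 0) = y3, x (dropP 0 0 0) = y4 at *
    generalize x' (tet 0 0 0) = z0, x' (tet 0 0 (0 - 1)) = z1, x' (tet 0 0 (0 + 1)) = z2,
      x' (dropI 0 0 0) = z3, x' (dropP 0 0 0) = z4 at *
    simp only [B_add_left, B_add_right, B_smul_left, B_smul_right,
      B_comm y1 y0, B_comm y2 y0, B_comm y3 y0, B_comm y4 y0, B_comm y2 y1, B_comm y3 y1,
      B_comm y4 y1, B_comm y3 y2, B_comm y4 y2, B_comm y4 y3,
      B_comm z1 z0, B_comm z2 z0, B_comm z3 z0, B_comm z4 z0, B_comm z2 z1, B_comm z3 z1,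
      B_comm z4 z1, B_comm z3 z2, B_comm z4 z2, B_comm z4 z3,
      g1, g2, g3, g4, g5, g6, g7, g8, g9, g10, g11, g12, g13, g14, g15,
      k1, k2, k3, k4, k5, k6, k7, k8, k9, k10, k11, k12, k13, k14, k15]
  · apply cell120_closure (fun F => T (x F) = x' F)
    · intro p i k e0 e1 e2
      rw [h.lin, h'.lin, map_add, map_smul, map_sub, e0, e1, e2]
    · exact t0
    · exact t1
    · exact t2
    · exact t3
    · exact t4

end Pool.Agent.H48.Mob
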