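import Pool.Agent.H48.Mob.Lor

/-! # Four consecutive points of a pentagon in the link of an edge -/

open scoped RealInnerProductSpace

namespace Pool.Agent.H48.Mob

/-- Linear independence of five vectors, spelled out. -/
theorem li5 {a b c d e : L} (h : ∀ s t u v w : ℝ, s • a + t • b + u • c + v • d + w • e = 0 →
    s = 0 ∧ t = 0 ∧ u = 0 ∧ v = 0 ∧ w = 0) : LinearIndependent ℝ ![a, b, c, d, e] := by
  rw [Fintype.linearIndependent_iff]
  intro g hg
  rw [Fin.sum_univ_five] at hg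
  obtain ⟨h0, h1, h2, h3, h4⟩ := h (g 0) (g 1) (g 2) (g 3) (g 4) hg
  intro i
  fin_cases i <;> assumption

theorem span5 {a b c d e : L} (h : LinearIndependent ℝ ![a, b, c, d, e]) (z : L) :
    ∃ s t u v w : ℝ, z = s • a + t • b + u • c + v • d + w • e := by
  have hs : Submodule.span ℝ (Set.range ![a, b, c, d, e]) = ⊤ :=
    h.span_eq_top_of_card_eq_finrank' (by rw [finrank_L]; rfl)
  have hz : z ∈ Submodule.span ℝ (Set.range ![a, b, c, d, e]) := by rw [hs]; trivial
  rw [Submodule.mem_span_range_iff_exists_fun] at hz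
  obtain ⟨g, hg⟩ := hz
  rw [Fin.sum_univ_five] at hg
  exact ⟨g 0, g 1, g 2, g 3, g 4, hg.symm⟩

/-- The hypotheses on four consecutive points around an edge `P I`. -/
structure QuadHyp (P I x0 x1 x2 x3 : L) : Prop where
  pp : B P P = 1
  ii : B I I = 1
  x00 : B x0 x0 = 1
  x11 : B x1 x1 = 1
  x22 : B x2 x2 = 1
  x33 : B x3 x3 = 1
  pi : B P I = -1
  p0 : B P x0 = -1
  p1 : B P x1 = -1
  p2 : B P x2 = -1
  p3 : B P x3 = -1
  i0 : B I x0 = -1
  i1 : B I x1 = -1
  i2 : B I x2 = -1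
  i3 : B I x3 = -1
  x01 : B x0 x1 = -1
  x12 : B x1 x2 = -1
  x23 : B x2 x3 = -1
  fut : Future (P + I)
  c01 : ∃ l : L →ₗ[ℝ] ℝ, l P = 0 ∧ l I = 0 ∧ l x0 = 0 ∧ l x1 = 0 ∧ 0 < l x2 ∧ 0 < l x3
  c12 : ∃ l : L →ₗ[ℝ] ℝ, l P = 0 ∧ l I = 0 ∧ l x1 = 0 ∧ l x2 = 0 ∧ 0 < l x0 ∧ 0 < l x3
  c23 : ∃ l : L →ₗ[ℝ] ℝ, l P = 0 ∧ l I = 0 ∧ l x2 = 0 ∧ l x3 = 0 ∧ 0 < l x0 ∧ 0 < l x1

variable {P I x0 x1 x2 x3 : L}

theorem QuadHyp.li (h : QuadHyp P I x0 x1 x2 x3) : LinearIndependent ℝ ![P, I, x0, x1, x2] := by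
  apply li5
  intro s t u v w hz
  obtain ⟨l, lP, lI, l0, l1, l2, _⟩ := h.c01
  obtain ⟨m, mP, mI, m1, m2, m0, _⟩ := h.c12
  obtain ⟨n, nP, nI, n2, _, _, n1⟩ := h.c23
  have hw : w = 0 := by
    have := congrArg l hz
    simp [lP, lI, l0, l1] at this
    rcases this with h | h
    · exact h
    · exact absurd h l2.ne'
  have hu : u = 0 := by
    have := congrArg m hz
    simp [mP, mI, m1, m2] at this
    rcases this with h | h
    · exact h
    · exact absurd h m0.ne'
  have hv : v = 0 := by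
    have := congrArg n hz
    simp [nP, nI, n2, hu] at this
    rcases this with h | h
    · exact h
    · exact absurd h n1.ne'
  subst hw hu hv
  have h1 := congrArg (fun z => B z P) hz
  simp only [B_add_left, B_smul_left, h.pp, B_comm I P, h.pi, B_zero_left, zero_mul] at h1
  have hst : s = t := by linarith
  subst hst
  have h2 : s • (P + I) = 0 := by
    rw [smul_add]; simpa using hz
  have h3 : s = 0 := by
    rcases smul_eq_zero.mp h2 with h' | h'
    · exact h'
    · exfalso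
      have := future_snd_pos h.fut
      rw [h'] at this
      simp at this
  exact ⟨h3, h3, rfl, rfl, rfl⟩

theorem QuadHyp.diag (h : QuadHyp P I x0 x1 x2 x3) :
    0 < (1 - B x0 x2) / 2 ∧ (1 - B x0 x2) / 2 < 4 := by
  have hpi : ∀ z, B (P + I) z = B P z + B I z := fun z => B_add_left P I z
  have hli := h.li
  rw [Fintype.linearIndependent_iff] at hli
  -- the two vectors orthogonal to `P + I`
  have hy1 : B (P + I) (x0 - x2) = 0 := by
    rw [hpi, B_sub_right, B_sub_right, h.p0, h.p2, h.i0, h.i2]; ring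
  have hy2 : B (P + I) (x0 + x2 - (2 : ℝ) • x1) = 0 := by
    rw [hpi, B_sub_right, B_sub_right, B_add_right, B_add_right, B_smul_right, B_smul_right,
      h.p0, h.p2, h.i0, h.i2, h.p1, h.i1]; ring
  have e1 : B (x0 - x2) (x0 - x2) = 4 * ((1 - B x0 x2) / 2) := by
    simp only [B_sub_left, B_sub_right, h.x00, h.x22, B_comm x2 x0]; ring
  have e2 : B (x0 + x2 - (2 : ℝ) • x1) (x0 + x2 - (2 : ℝ) • x1) =
      16 - 4 * ((1 - B x0 x2) / 2) := by
    simp only [B_sub_left, B_sub_right, B_add_left, B_add_right, B_smul_left, B_smul_right,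
      h.x00, h.x22, h.x11, B_comm x2 x0, h.x01, h.x12, B_comm x1 x0, B_comm x2 x1]; ring
  have n1 := B_perp_nonneg h.fut hy1
  have n2 := B_perp_nonneg h.fut hy2
  constructor
  · rcases lt_or_eq_of_le n1 with h' | h'
    · rw [e1] at h'; linarith
    · exfalso
      obtain ⟨s, hs⟩ := B_perp_zero h.fut hy1 h'.symm
      have h0 : (-s) • P + (-s) • I + (1 : ℝ) • x0 + (0 : ℝ) • x1 + (-1 : ℝ) • x2 = 0 := by
        have : x0 - x2 - s • (P + I) = 0 := sub_eq_zero.mpr hs
        rw [← this, smul_add]; module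
      have := hli ![-s, -s, 1, 0, -1] (by rw [Fin.sum_univ_five]; exact h0) 2
      simp at this
  · rcases lt_or_eq_of_le n2 with h' | h'
    · rw [e2] at h'; linarith only [h']
    · exfalso
      obtain ⟨s, hs⟩ := B_perp_zero h.fut hy2 h'.symm
      have h0 : (-s) • P + (-s) • I + (1 : ℝ) • x0 + (-2 : ℝ) • x1 + (1 : ℝ) • x2 = 0 := by
        have : x0 + x2 - (2 : ℝ) • x1 - s • (P + I) = 0 := sub_eq_zero.mpr hs
        rw [← this, smul_add]; module
      have := hli ![-s, -s, 1, -2, 1] (by rw [Fin.sum_univ_five]; exact h0) 2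
      simp at this

/-- The main relation. -/
theorem QuadHyp.rel (h : QuadHyp P I x0 x1 x2 x3) {A C Z : ℝ}
    (hA : A = (1 - B x0 x2) / 2) (hC : C = (1 - B x1 x3) / 2) (hZ : Z = (1 - B x0 x3) / 2) :
    ∃ lam : ℝ, 0 < lam ∧ lam ^ 2 * (A * (4 - A)) = C * (4 - C) ∧
      Z = 1 + (A * C - lam * (A * (4 - A))) / 2 ∧ 2 < A * lam + C ∧ 2 * lam < A * lam + C := by
  obtain ⟨s, t, lam, mu, nu, hx⟩ := span5 h.li x3
  obtain ⟨l, lP, lI, l0, l1, l2, l3⟩ := h.c01
  obtain ⟨m, mP, mI, m1, m2, m0, m3⟩ := h.c12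
  obtain ⟨n, nP, nI, n2, n3, n0, n1⟩ := h.c23
  have hlam : 0 < lam := by
    have := congrArg m hx
    simp [mP, mI, m1, m2] at this
    by_contra hle
    push Not at hle
    nlinarith only [m0, m3, this, hle]
  have hnu : 0 < nu := by
    have := congrArg l hx
    simp [lP, lI, l0, l1] at this
    by_contra hle
    push Not at hle
    nlinarith only [l2, l3, this, hle]
  have hmu : mu < 0 := by
    have := congrArg n hx
    simp [nP, nI, n2, n3] at this
    by_contra hle
    push Not at hle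
    have := mul_pos hlam n0
    nlinarith
  have g02 : B x0 x2 = 1 - 2 * A := by rw [hA]; ring
  have g13 : B x1 x3 = 1 - 2 * C := by rw [hC]; ring
  have g03 : B x0 x3 = 1 - 2 * Z := by rw [hZ]; ring
  have eP : B P x3 = -1 := h.p3
  rw [hx] at eP
  simp only [B_add_right, B_smul_right, h.pp, h.pi, h.p0, h.p1, h.p2] at eP
  have eI : B I x3 = -1 := h.i3
  rw [hx] at eI
  simp only [B_add_right, B_smul_right, h.ii, B_comm I P, h.pi, h.i0, h.i1, h.i2] at eI
  have e0 : B x0 x3 = 1 - 2 * Z := g03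
  rw [hx] at e0
  simp only [B_add_right, B_smul_right, h.x00, B_comm x0 P, B_comm x0 I, h.p0, h.i0, h.x01,
    g02] at e0
  have e1 : B x1 x3 = 1 - 2 * C := g13
  rw [hx] at e1
  simp only [B_add_right, B_smul_right, h.x11, B_comm x1 P, B_comm x1 I, h.p1, h.i1,
    B_comm x1 x0, h.x01, h.x12] at e1
  have e2 : B x2 x3 = -1 := h.x23
  rw [hx] at e2
  simp only [B_add_right, B_smul_right, h.x22, B_comm x2 P, B_comm x2 I, h.p2, h.i2,
    B_comm x2 x0, B_comm x2 x1, h.x12, g02] at e2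
  have e3 : B x3 x3 = 1 := h.x33
  nth_rewrite 2 [hx] at e3
  simp only [B_add_right, B_smul_right, B_comm x3 P, B_comm x3 I, h.p3, h.i3,
    B_comm x3 x0, B_comm x3 x1, B_comm x3 x2, h.x23, g03, g13] at e3
  have hst : s = t := by linarith
  subst hst
  have hsum : lam + mu + nu = 1 := by linarith
  have hmu' : mu = 1 - lam - nu := by linarith
  subst hmu'
  have hs' : s = C - lam - nu := by linarith
  subst hs'
  -- e2 : linear in A
  have hnu' : 2 * nu = (A - 2) * lam + C := by linarith only [e2]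
  have hZ' : Z = 1 + (A * C - lam * (A * (4 - A))) / 2 := by
    have : nu = ((A - 2) * lam + C) / 2 := by linarith only [e2]
    rw [this] at e0
    linear_combination (1 / 2 : ℝ) * e0
  refine ⟨lam, hlam, ?_, hZ', by linarith, by linarith only [hnu, e2]⟩
  have : nu = ((A - 2) * lam + C) / 2 := by linarith only [e2]
  rw [this, hZ'] at e3
  linear_combination e3

end Pool.Agent.H48.Mob
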