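import Pool.Agent.H48.Mob.Quad
import Pool.Agent.H48.Mob.Loc
import Pool.Agent.H48.Mob.Model

/-! # Rigidity of the 600-cell in Lorentz space -/

open scoped RealInnerProductSpace

namespace Pool.Agent.H48.Mob

theorem gold_sq : Real.goldenRatio ^ 2 = Real.goldenRatio + 1 := Real.goldenRatio_sq

/-- The normalised data of an edge-scribed 600-cell. -/
structure Real600 (x : Fin 120 → L) : Prop where
  unit : ∀ p, B (x p) (x p) = 1
  edge : ∀ p i, B (x p) (x (nb p i)) = -1
  fut : ∀ p i, Future (x p + x (nb p i))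
  cov : ∀ p i k, ∃ l : L →ₗ[ℝ] ℝ, ∀ w, 0 ≤ l (x w) ∧ (l (x w) = 0 ↔
    w = p ∨ w = nb p i ∨ w = nb p (cyc i k) ∨ w = nb p (cyc i (k + 1)))

theorem cyc_ne : ∀ i k, cyc i k ≠ i := by decide
theorem cyc_inj : ∀ i k j, cyc i k = cyc i j → k = j := by decide

variable {x : Fin 120 → L}

theorem Real600.link (h : Real600 x) (p : Fin 120) (i : Fin 12) (k : Fin 5) :
    B (x (nb p i)) (x (nb p (cyc i k))) = -1 := by
  rw [← nb_link]; exact h.edge _ _

theorem Real600.link2 (h : Real600 x) (p : Fin 120) (i : Fin 12) (k : Fin 5) :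
    B (x (nb p (cyc i k))) (x (nb p (cyc i (k + 1)))) = -1 := by
  rw [← cyc_next]; exact h.link _ _ _

theorem Real600.cov' (h : Real600 x) (p : Fin 120) (i : Fin 12) (k : Fin 5) :
    ∃ l : L →ₗ[ℝ] ℝ, l (x p) = 0 ∧ l (x (nb p i)) = 0 ∧ l (x (nb p (cyc i k))) = 0 ∧
      l (x (nb p (cyc i (k + 1)))) = 0 ∧ ∀ m, m ≠ k → m ≠ k + 1 →
        0 < l (x (nb p (cyc i m))) := by
  obtain ⟨l, hl⟩ := h.cov p i k
  refine ⟨l, (hl _).2.mpr (by simp), (hl _).2.mpr (by simp), (hl _).2.mpr (by simp),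
    (hl _).2.mpr (by simp), ?_⟩
  intro m hm hm'
  refine lt_of_le_of_ne (hl _).1 (fun h0 => ?_)
  rcases (hl _).2.mp h0.symm with h1 | h1 | h1 | h1
  · exact nb_ne _ _ h1
  · exact cyc_ne _ _ (nb_inj _ _ _ h1)
  · exact hm (cyc_inj _ _ _ (nb_inj _ _ _ h1))
  · exact hm' (cyc_inj _ _ _ (nb_inj _ _ _ h1))

theorem Real600.quad (h : Real600 x) (p : Fin 120) (i : Fin 12) (k : Fin 5) :
    QuadHyp (x p) (x (nb p i)) (x (nb p (cyc i k))) (x (nb p (cyc i (k + 1))))
      (x (nb p (cyc i (k + 2)))) (x (nb p (cyc i (k + 3)))) := by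
  have e2 : k + 1 + 1 = k + 2 := by clear * -; decide +revert
  have e3 : k + 2 + 1 = k + 3 := by clear * -; decide +revert
  refine
    { pp := h.unit _, ii := h.unit _, x00 := h.unit _, x11 := h.unit _, x22 := h.unit _,
      x33 := h.unit _, pi := h.edge _ _, p0 := h.edge _ _, p1 := h.edge _ _, p2 := h.edge _ _,
      p3 := h.edge _ _, i0 := h.link _ _ _, i1 := h.link _ _ _, i2 := h.link _ _ _,
      i3 := h.link _ _ _, x01 := h.link2 _ _ _, x12 := ?_, x23 := ?_, fut := h.fut _ _,
      c01 := ?_, c12 := ?_, c23 := ?_ }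
  · rw [← e2]; exact h.link2 _ _ _
  · rw [← e3]; exact h.link2 _ _ _
  · obtain ⟨l, l1, l2, l3, l4, l5⟩ := h.cov' p i k
    exact ⟨l, l1, l2, l3, l4, l5 _ (by clear * -; decide +revert) (by clear * -; decide +revert),
      l5 _ (by clear * -; decide +revert) (by clear * -; decide +revert)⟩
  · obtain ⟨l, l1, l2, l3, l4, l5⟩ := h.cov' p i (k + 1)
    rw [e2] at l4
    exact ⟨l, l1, l2, l3, l4, l5 _ (by clear * -; decide +revert) (by clear * -; decide +revert),
      l5 _ (by clear * -; decide +revert) (by clear * -; decide +revert)⟩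
  · obtain ⟨l, l1, l2, l3, l4, l5⟩ := h.cov' p i (k + 2)
    rw [e3] at l4
    exact ⟨l, l1, l2, l3, l4, l5 _ (by clear * -; decide +revert) (by clear * -; decide +revert),
      l5 _ (by clear * -; decide +revert) (by clear * -; decide +revert)⟩

/-- The label of the edge `(i, k)` of the link of `p`. -/
noncomputable def DD (x : Fin 120 → L) (p : Fin 120) (i : Fin 12) (k : Fin 5) : ℝ :=
  (1 - B (x (nb p (cyc i (k - 1)))) (x (nb p (cyc i (k + 1))))) / 2

theorem DD_symm (x : Fin 120 → L) (p : Fin 120) (i : Fin 12) (k : Fin 5) :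
    DD x p (cyc i k) (bk i k) = DD x p i k := by
  unfold DD
  rw [cyc_next, cyc_prev, B_comm]

theorem Real600.star (h : Real600 x) (p : Fin 120) (i : Fin 12) (k : Fin 5) :
    DD x p i k = Real.goldenRatio + 1 := by
  have hφ := gold_sq
  have hφ1 := Real.one_lt_goldenRatio
  refine ico_real (Real.goldenRatio + 1) (DD x p) (DD_symm x p) ?_ i k
  intro i
  have hd : ∀ k, 0 < DD x p i k ∧ DD x p i k < 4 := by
    intro k
    have := (h.quad p i (k - 1)).diag
    have e1 : k - 1 + 2 = k + 1 := by clear * -; decide +revert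
    rw [e1] at this
    exact this
  have hr : ∀ k, ∃ lam : ℝ, 0 < lam ∧ lam ^ 2 * (DD x p i (k + 2) * (4 - DD x p i (k + 2))) =
      DD x p i (k + 3) * (4 - DD x p i (k + 3)) ∧
      DD x p i k = 1 + (DD x p i (k + 2) * DD x p i (k + 3) -
        lam * (DD x p i (k + 2) * (4 - DD x p i (k + 2)))) / 2 ∧
      2 < DD x p i (k + 2) * lam + DD x p i (k + 3) ∧
      2 * lam < DD x p i (k + 2) * lam + DD x p i (k + 3) := by
    intro k
    have := (h.quad p i (k + 1)).rel (A := DD x p i (k + 2)) (C := DD x p i (k + 3))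
      (Z := DD x p i k) ?_ ?_ ?_
    · exact this
    · unfold DD
      have e1 : k + 2 - 1 = k + 1 := by clear * -; decide +revert
      have e2 : k + 2 + 1 = k + 1 + 2 := by clear * -; decide +revert
      rw [e1, e2]
    · unfold DD
      have e1 : k + 3 - 1 = k + 1 + 1 := by clear * -; decide +revert
      have e2 : k + 3 + 1 = k + 1 + 3 := by clear * -; decide +revert
      rw [e1, e2]
    · unfold DD
      have e1 : k - 1 = k + 1 + 3 := by clear * -; decide +revert
      rw [e1, B_comm]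
  choose lam h1 h2 h3 h4 h5 using hr
  exact locR_pent (by linarith) (by nlinarith) _ lam (fun k => (hd k).1) (fun k => (hd k).2)
    h1 h2 h3 h4 h5

theorem eq_zero_of_perp5 {a b c d e z : L} (hli : LinearIndependent ℝ ![a, b, c, d, e])
    (ha : B z a = 0) (hb : B z b = 0) (hc : B z c = 0) (hd : B z d = 0) (he : B z e = 0) :
    z = 0 := by
  apply B_nondeg
  intro y
  obtain ⟨s, t, u, v, w, rfl⟩ := span5 hli y
  simp only [B_add_right, B_smul_right, ha, hb, hc, hd, he]
  ring

theorem Real600.star2 (h : Real600 x) (p : Fin 120) (i : Fin 12) (k : Fin 5) :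
    B (x (nb p (cyc i k))) (x (nb p (cyc i (k + 2)))) = 1 - 2 * (Real.goldenRatio + 1) := by
  have := h.star p i (k + 1)
  unfold DD at this
  have e1 : k + 1 - 1 = k := by clear * -; decide +revert
  have e2 : k + 1 + 1 = k + 2 := by clear * -; decide +revert
  rw [e1, e2] at this
  linarith

/-- The linear relation between consecutive vertices of a link pentagon. -/
theorem Real600.lin (h : Real600 x) (p : Fin 120) (i : Fin 12) (k : Fin 5) :
    x (nb p (cyc i (k + 3))) = x (nb p (cyc i k)) +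
      Real.goldenRatio • (x (nb p (cyc i (k + 2))) - x (nb p (cyc i (k + 1)))) := by
  have hφ := gold_sq
  have hq := h.quad p i k
  have h02 := h.star2 p i k
  have h13 : B (x (nb p (cyc i (k + 1)))) (x (nb p (cyc i (k + 3)))) =
      1 - 2 * (Real.goldenRatio + 1) := by
    have := h.star2 p i (k + 1)
    have e2 : k + 1 + 2 = k + 3 := by clear * -; decide +revert
    rwa [e2] at this
  have h30 : B (x (nb p (cyc i k))) (x (nb p (cyc i (k + 3)))) =
      1 - 2 * (Real.goldenRatio + 1) := by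
    have := h.star2 p i (k + 3)
    have e2 : k + 3 + 2 = k := by clear * -; decide +revert
    rw [e2] at this
    rw [B_comm]; exact this
  generalize x (nb p (cyc i k)) = x0 at *
  generalize x (nb p (cyc i (k + 1))) = x1 at *
  generalize x (nb p (cyc i (k + 2))) = x2 at *
  generalize x (nb p (cyc i (k + 3))) = x3 at *
  have h10 : B x1 x0 = -1 := by rw [B_comm]; exact hq.x01
  have h21 : B x2 x1 = -1 := by rw [B_comm]; exact hq.x12
  have h20 : B x2 x0 = 1 - 2 * (Real.goldenRatio + 1) := by rw [B_comm]; exact h02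
  rw [← sub_eq_zero]
  apply eq_zero_of_perp5 hq.li
  · rw [B_comm]
    simp only [B_sub_right, B_add_right, B_smul_right, hq.p0, hq.p1, hq.p2, hq.p3]
    ring
  · rw [B_comm]
    simp only [B_sub_right, B_add_right, B_smul_right, hq.i0, hq.i1, hq.i2, hq.i3]
    ring
  · rw [B_comm]
    simp only [B_sub_right, B_add_right, B_smul_right, hq.x00, hq.x01, h02, h30]
    linear_combination (2 : ℝ) * hφ
  · rw [B_comm]
    simp only [B_sub_right, B_add_right, B_smul_right, hq.x11, h10, h13, hq.x12]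
    ring
  · rw [B_comm]
    simp only [B_sub_right, B_add_right, B_smul_right, hq.x22, h21, hq.x23, h20]
    ring

/-- The linear map taking one five-tuple to another. -/
theorem exists_map5 {a b c d e a' b' c' d' e' : L}
    (hli : LinearIndependent ℝ ![a, b, c, d, e]) :
    ∃ T : L →ₗ[ℝ] L, T a = a' ∧ T b = b' ∧ T c = c' ∧ T d = d' ∧ T e = e' := by
  have hs : ⊤ ≤ Submodule.span ℝ (Set.range ![a, b, c, d, e]) := by
    rw [hli.span_eq_top_of_card_eq_finrank' (by rw [finrank_L]; rfl)]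
  let bs := Module.Basis.mk hli hs
  refine ⟨bs.constr ℝ ![a', b', c', d', e'], ?_, ?_, ?_, ?_, ?_⟩
  · have := bs.constr_basis ℝ ![a', b', c', d', e'] 0
    simpa [bs] using this
  · have := bs.constr_basis ℝ ![a', b', c', d', e'] 1
    simpa [bs] using this
  · have := bs.constr_basis ℝ ![a', b', c', d', e'] 2
    simpa [bs] using this
  · have := bs.constr_basis ℝ ![a', b', c', d', e'] 3
    simpa [bs] using this
  · have := bs.constr_basis ℝ ![a', b', c', d', e'] 4
    simpa [bs] using this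

/-- Closure in the icosahedron. -/
theorem ico_closure (S : Fin 12 → Prop)
    (hS : ∀ i k, S (cyc i k) → S (cyc i (k + 1)) → S (cyc i (k + 2)) → S (cyc i (k + 3)))
    (c : Fin 12) (hc : S c) (hck : ∀ k, S (cyc c k)) : ∀ j, S j := by
  have key : ∀ c, S c → (∀ k, S (cyc c k)) → ∀ k, ∀ m, S (cyc (cyc c k) m) := by
    intro c hc hck k m
    set a := cyc c k with ha
    set b := bk c k with hb
    have h0 : S (cyc a b) := by rw [ha, hb, cyc_bk]; exact hc
    have h1 : S (cyc a (b + 1)) := by rw [ha, hb, cyc_prev]; exact hck _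
    have h2 : S (cyc a (b - 1)) := by rw [ha, hb, cyc_next]; exact hck _
    have e1 : b - 1 + 1 = b := by generalize b = b'; clear * -; decide +revert
    have e2 : b - 1 + 2 = b + 1 := by generalize b = b'; clear * -; decide +revert
    have e3 : b - 1 + 3 = b + 2 := by generalize b = b'; clear * -; decide +revert
    have h3 : S (cyc a (b + 2)) := by
      have := hS a (b - 1) h2 (by rw [e1]; exact h0) (by rw [e2]; exact h1)
      rwa [e3] at this
    have h4 : S (cyc a (b + 3)) := hS a b h0 h1 h3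
    have : m = b ∨ m = b + 1 ∨ m = b - 1 ∨ m = b + 2 ∨ m = b + 3 := by
      generalize b = b'; clear * -; decide +revert
    rcases this with h | h | h | h | h <;> rw [h] <;> assumption
  intro j
  obtain ⟨k1, k2, k3, rfl⟩ := conn3 c j
  exact key _ (hck k1) (key _ hc hck k1) k2 k3

/-- Propagation over the 600-cell. -/
theorem cell_closure (S : Fin 120 → Prop)
    (hS : ∀ p i k, S (nb p (cyc i k)) → S (nb p (cyc i (k + 1))) → S (nb p (cyc i (k + 2))) →
      S (nb p (cyc i (k + 3))))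
    (h0 : S 0) (h1 : S (nb 0 0)) (h2 : S (nb 0 (cyc 0 0))) (h3 : S (nb 0 (cyc 0 1)))
    (h4 : S (nb 0 (cyc 0 2))) : ∀ w, S w := by
  have full0 : ∀ i, S (nb 0 i) := by
    have h5 : S (nb 0 (cyc 0 3)) := hS 0 0 0 h2 h3 h4
    have h6 : S (nb 0 (cyc 0 4)) := hS 0 0 1 h3 h4 h5
    refine ico_closure (fun i => S (nb 0 i)) (fun i k => hS 0 i k) 0 h1 ?_
    intro k
    fin_cases k <;> assumption
  have step : ∀ p, S p → (∀ i, S (nb p i)) → ∀ i, ∀ j, S (nb (nb p i) j) := by
    intro p hp hpi i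
    refine ico_closure (fun j => S (nb (nb p i) j)) (fun i' k => hS (nb p i) i' k) (invI i) ?_ ?_
    · show S (nb (nb p i) (invI i))
      rw [nb_inv]; exact hp
    · intro k
      show S (nb (nb p i) (cyc (invI i) k))
      have : cyc (invI i) k = cyc (invI i) (-(-k)) := by rw [neg_neg]
      rw [this, nb_link]
      exact hpi _
  intro w
  rw [← nb_path w]
  have f1 := step 0 h0 full0 (pa w 0)
  have f2 := step _ (full0 (pa w 0)) f1 (pa w 1)
  have f3 := step _ (f1 (pa w 1)) f2 (pa w 2)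
  have f4 := step _ (f2 (pa w 2)) f3 (pa w 3)
  exact f4 (pa w 4)

/-- Two normalised edge-scribed 600-cells are related by a Lorentz isometry. -/
theorem exists_isometry {x x' : Fin 120 → L} (h : Real600 x) (h' : Real600 x') :
    ∃ T : L →ₗ[ℝ] L, (∀ a b, B (T a) (T b) = B a b) ∧ ∀ w, T (x w) = x' w := by
  have hq := h.quad 0 0 0
  have hq' := h'.quad 0 0 0
  have h02 := h.star2 0 0 0
  have h02' := h'.star2 0 0 0
  obtain ⟨T, t0, t1, t2, t3, t4⟩ := exists_map5 (a' := x' 0) (b' := x' (nb 0 0))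
    (c' := x' (nb 0 (cyc 0 0))) (d' := x' (nb 0 (cyc 0 (0 + 1))))
    (e' := x' (nb 0 (cyc 0 (0 + 2)))) hq.li
  refine ⟨T, ?_, ?_⟩
  · intro a b
    obtain ⟨s, t, u, v, w, rfl⟩ := span5 hq.li a
    obtain ⟨s', t', u', v', w', rfl⟩ := span5 hq.li b
    simp only [map_add, map_smul, t0, t1, t2, t3, t4]
    generalize x 0 = p, x (nb 0 0) = i, x (nb 0 (cyc 0 0)) = x0,
      x (nb 0 (cyc 0 (0 + 1))) = x1, x (nb 0 (cyc 0 (0 + 2))) = x2,
      x (nb 0 (cyc 0 (0 + 3))) = x3 at *
    generalize x' 0 = p', x' (nb 0 0) = i', x' (nb 0 (cyc 0 0)) = x0',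
      x' (nb 0 (cyc 0 (0 + 1))) = x1', x' (nb 0 (cyc 0 (0 + 2))) = x2',
      x' (nb 0 (cyc 0 (0 + 3))) = x3' at *
    simp only [B_add_left, B_add_right, B_smul_left, B_smul_right,
      B_comm i p, B_comm x0 p, B_comm x1 p, B_comm x2 p, B_comm x0 i, B_comm x1 i, B_comm x2 i,
      B_comm x1 x0, B_comm x2 x0, B_comm x2 x1,
      B_comm i' p', B_comm x0' p', B_comm x1' p', B_comm x2' p', B_comm x0' i', B_comm x1' i',
      B_comm x2' i', B_comm x1' x0', B_comm x2' x0', B_comm x2' x1',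
      hq.pp, hq.ii, hq.x00, hq.x11, hq.x22, hq.pi, hq.p0, hq.p1, hq.p2, hq.i0, hq.i1, hq.i2,
      hq.x01, hq.x12, h02,
      hq'.pp, hq'.ii, hq'.x00, hq'.x11, hq'.x22, hq'.pi, hq'.p0, hq'.p1, hq'.p2, hq'.i0,
      hq'.i1, hq'.i2, hq'.x01, hq'.x12, h02']
  · apply cell_closure (fun w => T (x w) = x' w)
    · intro p i k e0 e1 e2
      rw [h.lin, h'.lin, map_add, map_smul, map_sub, e0, e1, e2]
    · exact t0
    · exact t1
    · exact t2
    · exact t3
    · exact t4

end Pool.Agent.H48.Mob
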