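import Pool.Agent.H48.Mob.Pent
import Pool.Agent.H48.Mob.Comb120
import Pool.Agent.H48.Mob.Star

/-! # Rigidity of the 120-cell in Lorentz space -/

open scoped RealInnerProductSpace

namespace Pool.Agent.H48.Mob

/-- The normalised data of an edge-scribed 120-cell. -/
structure Real120 (x : Finset (Fin 120) → L) : Prop where
  unit : ∀ F, IsTet F → B (x F) (x F) = 1
  edge : ∀ p i k, B (x (tet p i k)) (x (tet p i (k + 1))) = -1
  fut : ∀ p i k, Future (x (tet p i k) + x (tet p i (k + 1)))
  cov : ∀ a, ∃ l : L →ₗ[ℝ] ℝ, ∀ F, IsTet F → 0 ≤ l (x F) ∧ (l (x F) = 0 ↔ a ∈ F)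

variable {x : Finset (Fin 120) → L}

theorem Real120.pos (h : Real120 x) (a : Fin 120) : ∃ l : L →ₗ[ℝ] ℝ,
    (∀ F, IsTet F → a ∈ F → l (x F) = 0) ∧ (∀ F, IsTet F → a ∉ F → 0 < l (x F)) := by
  obtain ⟨l, hl⟩ := h.cov a
  refine ⟨l, fun F hF ha => (hl F hF).2.mpr ha, fun F hF ha => ?_⟩
  refine lt_of_le_of_ne (hl F hF).1 (fun h0 => ha ((hl F hF).2.mp h0.symm))

theorem mem_tet0 (p : Fin 120) (i : Fin 12) (k : Fin 5) : p ∈ tet p i k := by
  rw [mem_tet]; simp
theorem mem_tet1 (p : Fin 120) (i : Fin 12) (k : Fin 5) : nb p i ∈ tet p i k := by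
  rw [mem_tet]; simp
theorem mem_tet2 (p : Fin 120) (i : Fin 12) (k : Fin 5) : nb p (cyc i k) ∈ tet p i k := by
  rw [mem_tet]; simp
theorem mem_tet3 (p : Fin 120) (i : Fin 12) (k : Fin 5) :
    nb p (cyc i (k + 1)) ∈ tet p i k := by
  rw [mem_tet]; simp
theorem mem_tet4 (p : Fin 120) (i : Fin 12) (k : Fin 5) :
    nb p (cyc i k) ∈ tet p i (k - 1) := by
  rw [mem_tet, sub_add_cancel]; simp

/-- The neighbour across the face opposite `p`. -/
def dropP (p : Fin 120) (i : Fin 12) (k : Fin 5) : Finset (Fin 120) :=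
  dropI (nb p i) (invI i) (-k - 1)

theorem dropP_isTet (p : Fin 120) (i : Fin 12) (k : Fin 5) : IsTet (dropP p i k) :=
  dropI_isTet _ _ _

theorem dropP_facts (p : Fin 120) (i : Fin 12) (k : Fin 5) :
    p ∉ dropP p i k ∧ nb p i ∈ dropP p i k ∧ nb p (cyc i k) ∈ dropP p i k ∧
      nb p (cyc i (k + 1)) ∈ dropP p i k := by
  have e1 : nb (nb p i) (invI i) = p := nb_inv p i
  have e2 : nb (nb p i) (cyc (invI i) (-k - 1)) = nb p (cyc i (k + 1)) := by
    have e : -k - 1 = -(k + 1) := by clear * -; decide +revert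
    rw [e, nb_link]
  have e3 : nb (nb p i) (cyc (invI i) (-k - 1 + 1)) = nb p (cyc i k) := by
    rw [sub_add_cancel, nb_link]
  unfold dropP
  refine ⟨?_, ?_, ?_, ?_⟩
  · have := not_mem_dropI (nb p i) (invI i) (-k - 1)
    rwa [e1] at this
  · rw [mem_dropI]; simp
  · rw [mem_dropI, ← e3]; simp
  · rw [mem_dropI, ← e2]; simp

theorem dropI_facts (p : Fin 120) (i : Fin 12) (k : Fin 5) :
    p ∈ dropI p i k ∧ nb p i ∉ dropI p i k ∧ nb p (cyc i k) ∈ dropI p i k ∧
      nb p (cyc i (k + 1)) ∈ dropI p i k := by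
  refine ⟨?_, not_mem_dropI _ _ _, ?_, ?_⟩
  · rw [mem_dropI]; simp
  · rw [mem_dropI]; simp
  · rw [mem_dropI]; simp

/-- A vertex and its four neighbours are linearly independent. -/
theorem Real120.li (h : Real120 x) (p : Fin 120) (i : Fin 12) (k : Fin 5) :
    LinearIndependent ℝ ![x (tet p i k), x (tet p i (k - 1)), x (tet p i (k + 1)),
      x (dropI p i k), x (dropP p i k)] := by
  apply li5
  intro s t u v w hz
  obtain ⟨i0, i1, i2, i3⟩ := dropI_facts p i k
  obtain ⟨p0, p1, p2, p3⟩ := dropP_facts p i k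
  have hw : w = 0 := by
    obtain ⟨l, l0, l1⟩ := h.pos p
    have := congrArg l hz
    simp only [map_add, map_smul, map_zero, smul_eq_mul,
      l0 _ (tet_isTet p i k) (mem_tet0 _ _ _), l0 _ (tet_isTet p i (k - 1)) (mem_tet0 _ _ _),
      l0 _ (tet_isTet p i (k + 1)) (mem_tet0 _ _ _), l0 _ (dropI_isTet p i k) i0,
      mul_zero, zero_add, mul_eq_zero] at this
    rcases this with h' | h'
    · exact h'
    · exact absurd h' (l1 _ (dropP_isTet p i k) p0).ne'
  have hv : v = 0 := by
    obtain ⟨l, l0, l1⟩ := h.pos (nb p i)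
    have := congrArg l hz
    simp only [map_add, map_smul, map_zero, smul_eq_mul,
      l0 _ (tet_isTet p i k) (mem_tet1 _ _ _), l0 _ (tet_isTet p i (k - 1)) (mem_tet1 _ _ _),
      l0 _ (tet_isTet p i (k + 1)) (mem_tet1 _ _ _), l0 _ (dropP_isTet p i k) p1,
      mul_zero, zero_add, add_zero, mul_eq_zero] at this
    rcases this with h' | h'
    · exact h'
    · exact absurd h' (l1 _ (dropI_isTet p i k) i1).ne'
  have hu : u = 0 := by
    obtain ⟨l, l0, l1⟩ := h.pos (nb p (cyc i k))
    have := congrArg l hz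
    simp only [map_add, map_smul, map_zero, smul_eq_mul,
      l0 _ (tet_isTet p i k) (mem_tet2 _ _ _), l0 _ (tet_isTet p i (k - 1)) (mem_tet4 _ _ _),
      l0 _ (dropI_isTet p i k) i2, l0 _ (dropP_isTet p i k) p2,
      mul_zero, zero_add, add_zero, mul_eq_zero] at this
    rcases this with h' | h'
    · exact h'
    · exact absurd h' (l1 _ (tet_isTet p i (k + 1)) (not_mem_tet_succ _ _ _ _
        (by clear * -; decide +revert) (by clear * -; decide +revert))).ne'
  have ht : t = 0 := by
    obtain ⟨l, l0, l1⟩ := h.pos (nb p (cyc i (k + 1)))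
    have := congrArg l hz
    simp only [map_add, map_smul, map_zero, smul_eq_mul,
      l0 _ (tet_isTet p i k) (mem_tet3 _ _ _), l0 _ (tet_isTet p i (k + 1)) (mem_tet2 _ _ _),
      l0 _ (dropI_isTet p i k) i3, l0 _ (dropP_isTet p i k) p3,
      mul_zero, zero_add, add_zero, mul_eq_zero] at this
    rcases this with h' | h'
    · exact h'
    · exact absurd h' (l1 _ (tet_isTet p i (k - 1)) (not_mem_tet_succ _ _ _ _
        (by clear * -; decide +revert) (by clear * -; decide +revert))).ne'
  subst hw hv hu ht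
  refine ⟨?_, rfl, rfl, rfl, rfl⟩
  have h1 : s • x (tet p i k) = 0 := by simpa using hz
  rcases smul_eq_zero.mp h1 with h2 | h2
  · exact h2
  · exfalso
    have := h.unit _ (tet_isTet p i k)
    rw [h2, B_zero_left] at this
    exact zero_ne_one this

theorem Real120.pent (h : Real120 x) (p : Fin 120) (i : Fin 12) (k : Fin 5) :
    PentHyp (x (tet p i k)) (x (tet p i (k + 1))) (x (tet p i (k + 2)))
      (x (tet p i (k + 3))) := by
  have e2 : k + 1 + 1 = k + 2 := by clear * -; decide +revert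
  have e3 : k + 2 + 1 = k + 3 := by clear * -; decide +revert
  have e4 : k + 3 + 1 = k + 4 := by clear * -; decide +revert
  have key : ∀ m : Fin 5, ∃ l : L →ₗ[ℝ] ℝ, l (x (tet p i m)) = 0 ∧
      l (x (tet p i (m + 1))) = 0 ∧ ∀ n, n ≠ m → n ≠ m + 1 → 0 < l (x (tet p i n)) := by
    intro m
    obtain ⟨l, l0, l1⟩ := h.pos (nb p (cyc i (m + 1)))
    refine ⟨l, l0 _ (tet_isTet _ _ _) (mem_tet3 _ _ _), l0 _ (tet_isTet _ _ _) (mem_tet2 _ _ _),
      fun n h1 h2 => l1 _ (tet_isTet _ _ _) (not_mem_tet_succ _ _ _ _ (Ne.symm h2) ?_)⟩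
    intro h3
    exact h1 (add_right_cancel h3).symm
  refine
    { y00 := h.unit _ (tet_isTet _ _ _), y11 := h.unit _ (tet_isTet _ _ _),
      y22 := h.unit _ (tet_isTet _ _ _), y33 := h.unit _ (tet_isTet _ _ _),
      y01 := h.edge _ _ _, y12 := ?_, y23 := ?_, f01 := h.fut _ _ _, f12 := ?_, f23 := ?_,
      dep := ?_, c01 := ?_, c12 := ?_, c23 := ?_ }
  · rw [← e2]; exact h.edge _ _ _
  · rw [← e3]; exact h.edge _ _ _
  · rw [← e2]; exact h.fut _ _ _
  · rw [← e3]; exact h.fut _ _ _
  · obtain ⟨s, t, u, v, w, hx⟩ := span5 (h.li p i (k + 1)) (x (tet p i (k + 3)))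
    rw [add_sub_cancel_right, e2] at hx
    obtain ⟨i0, i1, i2, i3⟩ := dropI_facts p i (k + 1)
    obtain ⟨p0, p1, p2, p3⟩ := dropP_facts p i (k + 1)
    have hw : w = 0 := by
      obtain ⟨l, l0, l1⟩ := h.pos p
      have := congrArg l hx
      simp only [map_add, map_smul, smul_eq_mul,
        l0 _ (tet_isTet p i k) (mem_tet0 _ _ _), l0 _ (tet_isTet p i (k + 1)) (mem_tet0 _ _ _),
        l0 _ (tet_isTet p i (k + 2)) (mem_tet0 _ _ _),
        l0 _ (tet_isTet p i (k + 3)) (mem_tet0 _ _ _), l0 _ (dropI_isTet p i (k + 1)) i0,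
        mul_zero, zero_add, zero_eq_mul] at this
      rcases this with h' | h'
      · exact h'
      · exact absurd h' (l1 _ (dropP_isTet p i (k + 1)) p0).ne'
    have hv : v = 0 := by
      obtain ⟨l, l0, l1⟩ := h.pos (nb p i)
      have := congrArg l hx
      simp only [map_add, map_smul, smul_eq_mul,
        l0 _ (tet_isTet p i k) (mem_tet1 _ _ _), l0 _ (tet_isTet p i (k + 1)) (mem_tet1 _ _ _),
        l0 _ (tet_isTet p i (k + 2)) (mem_tet1 _ _ _),
        l0 _ (tet_isTet p i (k + 3)) (mem_tet1 _ _ _), l0 _ (dropP_isTet p i (k + 1)) p1,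
        mul_zero, zero_add, add_zero, zero_eq_mul] at this
      rcases this with h' | h'
      · exact h'
      · exact absurd h' (l1 _ (dropI_isTet p i (k + 1)) i1).ne'
    refine ⟨t, s, u, ?_⟩
    rw [hx, hw, hv, zero_smul, zero_smul, add_zero, add_zero, add_comm (s • _)]
  · obtain ⟨l, l1, l2, l3⟩ := key k
    exact ⟨l, l1, l2, l3 _ (by clear * -; decide +revert) (by clear * -; decide +revert),
      l3 _ (by clear * -; decide +revert) (by clear * -; decide +revert)⟩
  · obtain ⟨l, l1, l2, l3⟩ := key (k + 1)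
    rw [e2] at l2
    exact ⟨l, l1, l2, l3 _ (by clear * -; decide +revert) (by clear * -; decide +revert),
      l3 _ (by clear * -; decide +revert) (by clear * -; decide +revert)⟩
  · obtain ⟨l, l1, l2, l3⟩ := key (k + 2)
    rw [e3] at l2
    exact ⟨l, l1, l2, l3 _ (by clear * -; decide +revert) (by clear * -; decide +revert),
      l3 _ (by clear * -; decide +revert) (by clear * -; decide +revert)⟩

/-- The corner value at the vertex `tet p i k` of the pentagon `(p, i)`. -/
noncomputable def HH (x : Finset (Fin 120) → L) (p : Fin 120) (i : Fin 12) (k : Fin 5) : ℝ :=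
  (1 - B (x (tet p i (k - 1))) (x (tet p i (k + 1)))) / 2

theorem Real120.rel (h : Real120 x) (p : Fin 120) (i : Fin 12) (k : Fin 5) :
    1 < HH x p i k ∧ HH x p i (k + 3) = (HH x p i k - 1) * (HH x p i (k + 1) - 1) ∧
    x (tet p i (k + 2)) = (HH x p i (k + 1) / HH x p i k) • x (tet p i (k - 1)) +
      (HH x p i (k + 1) * (1 - HH x p i k) / HH x p i k) • x (tet p i k) +
      (HH x p i (k + 1) - 1) • x (tet p i (k + 1)) := by
  have e1 : k - 1 + 1 = k := by clear * -; decide +revert
  have e2 : k - 1 + 2 = k + 1 := by clear * -; decide +revert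
  have e3 : k - 1 + 3 = k + 2 := by clear * -; decide +revert
  have hp := h.pent p i (k - 1)
  rw [e1, e2, e3] at hp
  obtain ⟨r1, r2, r3, r4⟩ := hp.rel (h1 := HH x p i k) (h2 := HH x p i (k + 1))
    (H := HH x p i (k + 3)) rfl (by
      unfold HH
      have e4 : k + 1 - 1 = k := by clear * -; decide +revert
      have e5 : k + 1 + 1 = k + 2 := by clear * -; decide +revert
      rw [e4, e5]) (by
      unfold HH
      have e4 : k + 3 - 1 = k + 2 := by clear * -; decide +revert
      have e5 : k + 3 + 1 = k - 1 := by clear * -; decide +revert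
      rw [e4, e5, B_comm])
  exact ⟨r1, r3, r4⟩

theorem Real120.rel' (h : Real120 x) (p : Fin 120) (i : Fin 12) (k : Fin 5) :
    x (tet p i (k - 2)) = (HH x p i (k - 1) / HH x p i k) • x (tet p i (k + 1)) +
      (HH x p i (k - 1) * (1 - HH x p i k) / HH x p i k) • x (tet p i k) +
      (HH x p i (k - 1) - 1) • x (tet p i (k - 1)) := by
  have e1 : k - 2 + 1 = k - 1 := by clear * -; decide +revert
  have e2 : k - 2 + 2 = k := by clear * -; decide +revert
  have e3 : k - 2 + 3 = k + 1 := by clear * -; decide +revert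
  have hp := (h.pent p i (k - 2)).rev
  rw [e1, e2, e3] at hp
  obtain ⟨r1, r2, r3, r4⟩ := hp.rel (h1 := HH x p i k) (h2 := HH x p i (k - 1))
    (H := (1 - B (x (tet p i (k + 1))) (x (tet p i (k - 2)))) / 2) (by
      unfold HH; rw [B_comm]) (by
      unfold HH
      have e4 : k - 1 - 1 = k - 2 := by clear * -; decide +revert
      have e5 : k - 1 + 1 = k := by clear * -; decide +revert
      rw [e4, e5, B_comm]) rfl
  exact r4

theorem ico_third : ∀ i k, cyc (cyc i (k + 1)) (bk i (k + 1) + 2) =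
    cyc (cyc i k) (bk i k - 2) := by decide

theorem ico_third' : ∀ i k, cyc (cyc i (k - 1)) (bk i (k - 1) - 2) =
    cyc (cyc i k) (bk i k + 2) := by decide

/-- `dropI` seen from the third pentagon. -/
theorem dropI_eq (p : Fin 120) (i : Fin 12) (k : Fin 5) :
    tet p (cyc i (k + 1)) (bk i (k + 1) + 1) = dropI p i k := by
  ext w
  have e : bk i (k + 1) + 1 + 1 = bk i (k + 1) + 2 := by
    generalize bk i (k + 1) = b; clear * -; decide +revert
  have e2 : k + 1 - 1 = k := by clear * -; decide +revert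
  rw [mem_tet, mem_dropI, cyc_prev, e, ico_third, e2]
  tauto

theorem dropI_eq' (p : Fin 120) (i : Fin 12) (k : Fin 5) :
    tet p (cyc i k) (bk i k + 1) = dropI p i (k - 1) := by
  have := dropI_eq p i (k - 1)
  rwa [sub_add_cancel] at this

/-- The relation between the corner values at the two ends of an edge. -/
theorem Real120.shared (h : Real120 x) (p : Fin 120) (i : Fin 12) (k : Fin 5) :
    HH x p (cyc i (k - 1)) (bk i (k - 1) - 1) / (HH x p i (k - 1) * HH x p (cyc i k) (bk i k)) =
    HH x p (cyc i (k + 1)) (bk i (k + 1)) / (HH x p i k * HH x p (cyc i k) (bk i k - 1)) := by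
  set j := cyc i k with hj
  set b := bk i k with hb
  -- vertices: w = tet p i k = tet p j (b-1), a = tet p i (k-1) = tet p j b
  have w1 : tet p j (b - 1) = tet p i k := tet_rot p i k
  have a1 : tet p j b = tet p i (k - 1) := tet_rot' p i k
  have r1 := h.rel' p i k
  have r2 := (h.rel p j (b - 1)).2.2
  have e1 : b - 1 + 2 = b + 1 := by generalize b = b'; clear * -; decide +revert
  have e2 : b - 1 + 1 = b := by generalize b = b'; clear * -; decide +revert
  have e3 : b - 1 - 1 = b - 2 := by generalize b = b'; clear * -; decide +revert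
  rw [e1, e2, e3, w1, a1] at r2
  -- inner products
  have hk1 : k - 1 + 1 = k := by clear * -; decide +revert
  have hw0 := (h.rel p i k).1
  have ha0 := (h.rel p i (k - 1)).1
  have kw0 := (h.rel p j (b - 1)).1
  have ka0 := (h.rel p j b).1
  have key := shared_edge (b := x (tet p i (k + 1))) (w := x (tet p i k))
    (a := x (tet p i (k - 1))) (b' := x (tet p i (k - 2))) (c := x (tet p j (b - 2)))
    (c' := x (tet p j (b + 1))) (hw := HH x p i k) (ha := HH x p i (k - 1))
    (kw := HH x p j (b - 1)) (ka := HH x p j b) (by linarith) (by linarith) (by linarith)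
    (by linarith) (h.unit _ (tet_isTet _ _ _)) (h.unit _ (tet_isTet _ _ _))
    (by
      have := h.edge p i (k - 1)
      rw [hk1] at this
      rw [B_comm]; exact this)
    (by rw [B_comm]; exact h.edge p i k)
    (by
      have := h.edge p j (b - 2)
      have e4 : b - 2 + 1 = b - 1 := by generalize b = b'; clear * -; decide +revert
      rw [e4, w1] at this
      exact this)
    (by unfold HH; rw [B_comm]; ring)
    (by
      unfold HH
      rw [e3, e2, a1]; ring)
    r1 r2
  -- identify the third corners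
  have t1 : (1 - B (x (tet p i (k - 2))) (x (tet p j (b + 1)))) / 2 =
      HH x p (cyc i (k - 1)) (bk i (k - 1) - 1) := by
    unfold HH
    have s1 : tet p (cyc i (k - 1)) (bk i (k - 1) - 1 + 1) = tet p i (k - 2) := by
      have e5 : k - 1 - 1 = k - 2 := by clear * -; decide +revert
      rw [sub_add_cancel, tet_rot', e5]
    have s2 : tet p (cyc i (k - 1)) (bk i (k - 1) - 1 - 1) = tet p j (b + 1) := by
      rw [hj, hb, dropI_eq']
      have e5 : bk i (k - 1) - 1 - 1 = bk i (k - 1) - 2 := by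
        generalize bk i (k - 1) = b'; clear * -; decide +revert
      rw [e5]
      rfl
    rw [s1, s2, B_comm]
  have t2 : (1 - B (x (tet p i (k + 1))) (x (tet p j (b - 2)))) / 2 =
      HH x p (cyc i (k + 1)) (bk i (k + 1)) := by
    unfold HH
    have s1 : tet p (cyc i (k + 1)) (bk i (k + 1) - 1) = tet p i (k + 1) := tet_rot _ _ _
    have s2 : tet p (cyc i (k + 1)) (bk i (k + 1) + 1) = tet p j (b - 2) := by
      rw [dropI_eq]; rfl
    rw [s1, s2]
  rw [t1, t2] at key
  exact key

/-- The edge label. -/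
noncomputable def DE (x : Finset (Fin 120) → L) (p : Fin 120) (i : Fin 12) (k : Fin 5) : ℝ :=
  Real.sqrt (HH x p i k * HH x p (cyc i k) (bk i k - 1) / HH x p (cyc i (k + 1)) (bk i (k + 1)))

theorem ico_bk2 : ∀ i k, cyc (cyc i k) (bk i k + 1) = cyc i (k - 1) ∧
    bk (cyc i k) (bk i k + 1) = bk i (k - 1) - 1 := by decide

theorem Real120.HHpos (h : Real120 x) (p : Fin 120) (i : Fin 12) (k : Fin 5) :
    0 < HH x p i k := by linarith [(h.rel p i k).1]

theorem Real120.DE_sq (h : Real120 x) (p : Fin 120) (i : Fin 12) (k : Fin 5) :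
    DE x p i k ^ 2 =
      HH x p i k * HH x p (cyc i k) (bk i k - 1) / HH x p (cyc i (k + 1)) (bk i (k + 1)) := by
  unfold DE
  apply Real.sq_sqrt
  have h1 := h.HHpos p i k
  have h2 := h.HHpos p (cyc i k) (bk i k - 1)
  have h3 := h.HHpos p (cyc i (k + 1)) (bk i (k + 1))
  positivity

theorem Real120.DE_sq' (h : Real120 x) (p : Fin 120) (i : Fin 12) (k : Fin 5) :
    DE x p i k ^ 2 =
      HH x p i (k - 1) * HH x p (cyc i k) (bk i k) / HH x p (cyc i (k - 1)) (bk i (k - 1) - 1) := by
  rw [h.DE_sq]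
  have hs := h.shared p i k
  have h1 := h.HHpos p i k
  have h2 := h.HHpos p (cyc i k) (bk i k - 1)
  have h3 := h.HHpos p (cyc i (k + 1)) (bk i (k + 1))
  have h4 := h.HHpos p i (k - 1)
  have h5 := h.HHpos p (cyc i k) (bk i k)
  have h6 := h.HHpos p (cyc i (k - 1)) (bk i (k - 1) - 1)
  generalize HH x p i k = c1 at *
  generalize HH x p (cyc i k) (bk i k - 1) = c2 at *
  generalize HH x p (cyc i (k + 1)) (bk i (k + 1)) = c3 at *
  generalize HH x p i (k - 1) = c4 at *
  generalize HH x p (cyc i k) (bk i k) = c5 at *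
  generalize HH x p (cyc i (k - 1)) (bk i (k - 1) - 1) = c6 at *
  field_simp at hs ⊢
  linarith

theorem Real120.DE_pos (h : Real120 x) (p : Fin 120) (i : Fin 12) (k : Fin 5) :
    0 < DE x p i k := by
  unfold DE
  apply Real.sqrt_pos.mpr
  have h1 := h.HHpos p i k
  have h2 := h.HHpos p (cyc i k) (bk i k - 1)
  have h3 := h.HHpos p (cyc i (k + 1)) (bk i (k + 1))
  positivity

theorem Real120.DE_symm (h : Real120 x) (p : Fin 120) (i : Fin 12) (k : Fin 5) :
    DE x p (cyc i k) (bk i k) = DE x p i k := by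
  have h1 := h.DE_sq p (cyc i k) (bk i k)
  have h2 := h.DE_sq' p i k
  rw [cyc_bk, bk_bk, (ico_bk2 i k).1, (ico_bk2 i k).2] at h1
  have h3 : DE x p (cyc i k) (bk i k) ^ 2 = DE x p i k ^ 2 := by
    rw [h1, h2]; ring
  exact (pow_left_inj₀ (h.DE_pos _ _ _).le (h.DE_pos _ _ _).le two_ne_zero).mp h3

theorem Real120.DE_mul (h : Real120 x) (p : Fin 120) (i : Fin 12) (k : Fin 5) :
    DE x p i k * DE x p i (k + 1) = HH x p i k := by
  have h1 := h.DE_sq p i k
  have h2 := h.DE_sq' p i (k + 1)
  rw [add_sub_cancel_right] at h2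
  have c1 := h.HHpos p i k
  have c2 := h.HHpos p (cyc i k) (bk i k - 1)
  have c3 := h.HHpos p (cyc i (k + 1)) (bk i (k + 1))
  have h3 : (DE x p i k * DE x p i (k + 1)) ^ 2 = HH x p i k ^ 2 := by
    rw [mul_pow, h1, h2]
    field_simp
  exact (pow_left_inj₀ (mul_pos (h.DE_pos _ _ _) (h.DE_pos _ _ _)).le c1.le two_ne_zero).mp h3

theorem Real120.DE_delta (h : Real120 x) (p : Fin 120) (i : Fin 12) :
    ∀ k, DE x p i k = HH x p i (k + 2) - 1 := by
  refine odd_cycle (D := fun k => DE x p i k) (δ := fun k => HH x p i (k + 2) - 1)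
    (fun k => h.DE_pos p i k) (fun k => by linarith [(h.rel p i (k + 2)).1]) ?_
  intro k
  show DE x p i k * DE x p i (k + 1) = (HH x p i (k + 2) - 1) * (HH x p i (k + 1 + 2) - 1)
  rw [h.DE_mul]
  have h1 := (h.rel p i (k + 2)).2.1
  have e1 : k + 2 + 3 = k := by clear * -; decide +revert
  have e2 : k + 2 + 1 = k + 1 + 2 := by clear * -; decide +revert
  rw [e1, e2] at h1
  exact h1

theorem Real120.DE_eq (h : Real120 x) (p : Fin 120) (i : Fin 12) (k : Fin 5) :
    DE x p i k = Real.goldenRatio := by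
  refine ico_real Real.goldenRatio (DE x p) (h.DE_symm p) ?_ i k
  intro i
  apply locR_ptol Real.one_lt_goldenRatio gold_sq
  · exact fun k => h.DE_pos p i k
  · intro k
    have h1 := h.DE_mul p i (k + 2)
    have e2 : k + 2 + 1 = k + 3 := by clear * -; decide +revert
    rw [e2] at h1
    rw [h1, h.DE_delta p i k]
    ring

theorem Real120.HH_eq (h : Real120 x) (p : Fin 120) (i : Fin 12) (k : Fin 5) :
    HH x p i k = Real.goldenRatio + 1 := by
  rw [← h.DE_mul, h.DE_eq, h.DE_eq, ← gold_sq]; ring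

/-- The linear relation between consecutive vertices of a pentagon. -/
theorem Real120.lin (h : Real120 x) (p : Fin 120) (i : Fin 12) (k : Fin 5) :
    x (tet p i (k + 3)) = x (tet p i k) +
      Real.goldenRatio • (x (tet p i (k + 2)) - x (tet p i (k + 1))) := by
  have h1 := (h.rel p i (k + 1)).2.2
  have e1 : k + 1 + 2 = k + 3 := by clear * -; decide +revert
  have e2 : k + 1 - 1 = k := by clear * -; decide +revert
  have e3 : k + 1 + 1 = k + 2 := by clear * -; decide +revert
  rw [e1, e2, e3, h.HH_eq, h.HH_eq] at h1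
  have hp : Real.goldenRatio + 1 ≠ 0 := by
    have := Real.one_lt_goldenRatio
    linarith
  rw [h1, div_self hp]
  have e4 : (Real.goldenRatio + 1) * (1 - (Real.goldenRatio + 1)) / (Real.goldenRatio + 1) =
      - Real.goldenRatio := by
    field_simp
    ring
  rw [e4]
  module

theorem Real120.corner (h : Real120 x) (p : Fin 120) (i : Fin 12) (k : Fin 5) :
    B (x (tet p i (k - 1))) (x (tet p i (k + 1))) = 1 - 2 * (Real.goldenRatio + 1) := by
  have := h.HH_eq p i k
  unfold HH at this
  linarith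

end Pool.Agent.H48.Mob
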